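import Pool.Agent.Lib.MP_305fdd_al.To.F.F5A
import Pool.Agent.Lib.MP_305fdd_al.F2.D.p_t1
import Pool.Agent.Lib.MP_305fdd_al.F2.D.p_t2

/-!
# Groups on trees with trivial edge stabilisers (MP_305fdd_al, torsion room, block F5)

`free_prod_of_tree`: a group which acts on a tree (edges may be flipped) with finitely many orbits of
edges, such that only the identity fixes both ends of an edge and the stabilisers of the vertices are
cyclic, is a free product of finitely many cyclic groups.

The barycentric subdivision has no inversions; then `fp_of_tree`.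
-/

set_option autoImplicit false

namespace Pool.Agent.ToF

open Monoid Pool.Agent.FrT Pool.Agent.VF Pool.Agent.MP_305fdd_al Pool.Agent.Lib.MP_305fdd_al

section

variable {G V : Type} [Group G] [MulAction G V]

/-- the action on the edges -/
def esm (X : SimpleGraph V) (hX : ∀ (g : G) (x y : V), X.Adj x y → X.Adj (g • x) (g • y))
    (g : G) (e : X.edgeSet) : X.edgeSet :=
  ⟨Sym2.map (g • ·) e.1, by
    obtain ⟨e, he⟩ := e
    induction e using Sym2.ind with
    | _ a b =>
      rw [Sym2.map_mk, SimpleGraph.mem_edgeSet]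
      exact hX g a b (by simpa using he)⟩

/-- the action on the subdivision -/
@[reducible] def sact (X : SimpleGraph V)
    (hX : ∀ (g : G) (x y : V), X.Adj x y → X.Adj (g • x) (g • y)) :
    MulAction G (V ⊕ X.edgeSet) where
  smul g a := Sum.map (g • ·) (esm X hX g) a
  one_smul a := by
    rcases a with v | ⟨e, he⟩
    · change Sum.inl ((1 : G) • v) = _
      rw [one_smul]
    · change Sum.inr (esm X hX 1 ⟨e, he⟩) = _
      congr 1
      apply Subtype.ext
      change Sym2.map (fun x => (1 : G) • x) e = e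
      simp
  mul_smul g h a := by
    rcases a with v | ⟨e, he⟩
    · change Sum.inl ((g * h) • v) = Sum.inl (g • h • v)
      rw [mul_smul]
    · change Sum.inr (esm X hX (g * h) ⟨e, he⟩) =
        Sum.inr (esm X hX g (esm X hX h ⟨e, he⟩))
      congr 1
      apply Subtype.ext
      change Sym2.map (fun x => (g * h) • x) e = Sym2.map (fun x => g • x) (Sym2.map (fun x => h • x) e)
      rw [Sym2.map_map]
      congr 1
      funext x
      exact mul_smul g h x

/-- adjacency of the subdivision -/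
def sadj (X : SimpleGraph V) : V ⊕ X.edgeSet → V ⊕ X.edgeSet → Prop
  | Sum.inl v, Sum.inr e => v ∈ e.1
  | Sum.inr e, Sum.inl v => v ∈ e.1
  | _, _ => False

/-- the subdivision -/
def sgr (X : SimpleGraph V) : SimpleGraph (V ⊕ X.edgeSet) where
  Adj := sadj X
  symm := ⟨by
    rintro (v | e) (w | f) h
    · exact h
    · exact h
    · exact h
    · exact h⟩
  loopless := ⟨by
    rintro (v | e) h
    · exact h
    · exact h⟩

/-- a vertex of an edge -/
theorem sedge (X : SimpleGraph V) (e : X.edgeSet) : ∃ u v, X.Adj u v ∧ e.1 = s(u, v) := by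
  obtain ⟨e, he⟩ := e
  induction e using Sym2.ind with
  | _ a b => exact ⟨a, b, by simpa using he, rfl⟩

theorem sreach (X : SimpleGraph V) {u v : V} (p : X.Walk u v) :
    (sgr X).Reachable (Sum.inl u) (Sum.inl v) := by
  induction p with
  | nil => exact SimpleGraph.Reachable.refl _
  | @cons a b c h q ih =>
    have e1 : (sgr X).Adj (Sum.inl a) (Sum.inr ⟨s(a, b), h⟩) := Sym2.mem_mk_left a b
    have e2 : (sgr X).Adj (Sum.inr ⟨s(a, b), h⟩) (Sum.inl b) := Sym2.mem_mk_right a b
    exact (e1.reachable.trans e2.reachable).trans ih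

theorem stree {X : SimpleGraph V} (hT : X.IsTree) : (sgr X).IsTree := by
  have hne : Nonempty V := hT.connected.nonempty
  have hconn : (sgr X).Connected := by
    have : Nonempty (V ⊕ X.edgeSet) := hne.map Sum.inl
    have h1 : ∀ a : V ⊕ X.edgeSet, ∃ v : V, (sgr X).Reachable a (Sum.inl v) := by
      rintro (v | e)
      · exact ⟨v, SimpleGraph.Reachable.refl _⟩
      · obtain ⟨u, v, -, he⟩ := sedge X e
        refine ⟨u, SimpleGraph.Adj.reachable ?_⟩
        change u ∈ e.1
        rw [he]
        exact Sym2.mem_mk_left u v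
    refine SimpleGraph.Connected.mk ?_
    intro a b
    obtain ⟨u, hu⟩ := h1 a
    obtain ⟨v, hv⟩ := h1 b
    obtain ⟨p⟩ := hT.connected.preconnected u v
    exact (hu.trans (sreach X p)).trans hv.symm
  have hcut : ∀ a b, (sgr X).Adj a b → ∃ S : Set (V ⊕ X.edgeSet), F2D.Cut (sgr X) S a b := by
    have key : ∀ (u : V) (e : X.edgeSet), u ∈ e.1 →
        ∃ S : Set (V ⊕ X.edgeSet), Sum.inl u ∉ S ∧ Sum.inr e ∈ S ∧
          (∀ (x : V) (f : X.edgeSet), x ∈ f.1 → Sum.inl x ∉ S → Sum.inr f ∈ S → x = u ∧ f = e) ∧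
          (∀ (x : V) (f : X.edgeSet), x ∈ f.1 → Sum.inr f ∉ S → Sum.inl x ∉ S) := by
      intro u e hu
      obtain ⟨v, hv⟩ := hu
      have huv : X.Adj u v := by
        have := e.2
        rw [hv] at this
        simpa using this
      obtain ⟨S, hS1, hS2, hS3⟩ := F2D.p_t2 V X hT u v huv
      refine ⟨{a | match a with
        | Sum.inl x => x ∈ S
        | Sum.inr f => ∃ x ∈ f.1, x ∈ S}, hS1, ?_, ?_, ?_⟩
      · change ∃ x ∈ e.1, x ∈ S
        exact ⟨v, by rw [hv]; exact Sym2.mem_mk_right u v, hS2⟩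
      · intro x f hx hxS hf
        change x ∉ S at hxS
        change ∃ x ∈ f.1, x ∈ S at hf
        obtain ⟨y, hy, hyS⟩ := hf
        have hxy : x ≠ y := fun h => hxS (h ▸ hyS)
        have hf2 : f.1 = s(x, y) := (Sym2.mem_and_mem_iff hxy).mp ⟨hx, hy⟩
        have hadj : X.Adj x y := by
          have := f.2
          rw [hf2] at this
          simpa using this
        obtain ⟨e1, e2⟩ := hS3 x y hadj hxS hyS
        refine ⟨e1, ?_⟩
        apply Subtype.ext
        rw [hf2, hv, e1, e2]
      · intro x f hx hf hxS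
        exact hf ⟨x, hx, hxS⟩
    rintro (u | e) (w | f) h
    · exact h.elim
    · obtain ⟨S, h1, h2, h3, h4⟩ := key u f h
      refine ⟨S, h1, h2, ?_⟩
      rintro (a | a) (b | b) hab ha hb
      · exact hab.elim
      · obtain ⟨e1, e2⟩ := h3 a b hab ha hb
        rw [e1, e2]
        exact ⟨rfl, rfl⟩
      · exact absurd hb (h4 b a hab ha)
      · exact hab.elim
    · obtain ⟨S, h1, h2, h3, h4⟩ := key w e h
      refine ⟨Sᶜ, fun h => h h2, h1, ?_⟩
      rintro (a | a) (b | b) hab ha hb
      · exact hab.elim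
      · exact absurd (not_not.mp ha) (h4 a b hab hb)
      · obtain ⟨e1, e2⟩ := h3 b a hab hb (not_not.mp ha)
        rw [e1, e2]
        exact ⟨rfl, rfl⟩
      · exact hab.elim
    · exact h.elim
  exact F2D.p_t1 _ _ hconn hcut

end

theorem isFP_of_cyclic {C : Type} [Group C] (hC : IsCyclic C) : IsFP C := by
  by_cases hfin : Finite C
  · exact p_cl.2.2.2.2 C hC
  · have h1 : Nat.card C = 0 := by
      rw [Nat.card_eq_zero]
      exact Or.inr (not_finite_iff_infinite.1 hfin)
    have e : Multiplicative (ZMod (Nat.card C)) ≃* C := zmodCyclicMulEquiv hC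
    rw [h1] at e
    exact IsFP.equiv e p_cl.2.2.2.1

/-- **groups on trees with trivial edge stabilisers**: `G` acts on a tree (edges may be flipped) with
finitely many orbits of edges; only `1` fixes both ends of an edge; the stabilisers of the vertices are
cyclic.  Then `G` is a free product of finitely many cyclic groups. -/
theorem free_prod_of_tree {G V : Type} [Group G] [MulAction G V] {X : SimpleGraph V}
    (hT : X.IsTree) (hact : ∀ (g : G) (x y : V), X.Adj x y → X.Adj (g • x) (g • y))
    (he : ∀ (g : G) (x y : V), X.Adj x y → g • x = x → g • y = y → g = 1)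
    (hcyc : ∀ x : V, IsCyclic (MulAction.stabilizer G x))
    (hfin : ∃ s : Finset (V × V), ∀ x y, X.Adj x y → ∃ (g : G) (p : V × V), p ∈ s ∧
      ((g • p.1 = x ∧ g • p.2 = y) ∨ (g • p.1 = y ∧ g • p.2 = x))) :
    ∃ (n : ℕ) (m : Fin n → ℕ), Nonempty (G ≃* FP m) := by
  classical
  obtain ⟨s, hs⟩ := hfin
  letI := sact (G := G) X hact
  have hinl : ∀ (g : G) (v : V), g • (Sum.inl v : V ⊕ X.edgeSet) = Sum.inl (g • v) :=
    fun _ _ => rfl
  have hinr : ∀ (g : G) (e : X.edgeSet), g • (Sum.inr e : V ⊕ X.edgeSet) = Sum.inr (esm X hact g e) :=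
    fun _ _ => rfl
  have hsv : ∀ (v : V) (g : G), g • (Sum.inl v : V ⊕ X.edgeSet) = Sum.inl v ↔ g • v = v := by
    intro v g
    rw [hinl, Sum.inl_injective.eq_iff]
  have hse : ∀ (e : X.edgeSet) (u v : V), e.1 = s(u, v) → ∀ g : G,
      (g • (Sum.inr e : V ⊕ X.edgeSet) = Sum.inr e ↔
        (g • u = u ∧ g • v = v) ∨ (g • u = v ∧ g • v = u)) := by
    intro e u v he g
    rw [hinr, Sum.inr_injective.eq_iff, Subtype.ext_iff]
    change Sym2.map (fun x => g • x) e.1 = e.1 ↔ _
    rw [he, Sym2.map_mk, Sym2.eq_iff]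
  have hedge : ∀ (g : G) (x : V) (e : X.edgeSet), x ∈ e.1 →
      g • (Sum.inl x : V ⊕ X.edgeSet) = Sum.inl x → g • (Sum.inr e : V ⊕ X.edgeSet) = Sum.inr e →
      g = 1 := by
    intro g x e hx h1 h2
    obtain ⟨v, hv⟩ := hx
    have hxv : X.Adj x v := by
      have := e.2
      rw [hv] at this
      simpa using this
    rw [hsv] at h1
    rw [hse e x v hv] at h2
    rcases h2 with h2 | h2
    · exact he g x v hxv h2.1 h2.2
    · exact absurd (h1.symm.trans h2.1) hxv.ne
  have hTD : TD G (sgr X) := by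
    refine ⟨stree hT, ?_, ?_, ?_, ?_⟩
    · rintro g (v | e) (w | f) h
      · exact h.elim
      · change g • v ∈ Sym2.map (fun x => g • x) f.1
        rw [Sym2.mem_map]
        exact ⟨v, h, rfl⟩
      · change g • w ∈ Sym2.map (fun x => g • x) e.1
        rw [Sym2.mem_map]
        exact ⟨w, h, rfl⟩
      · exact h.elim
    · rintro g (v | e) (w | f) h ⟨h1, -⟩
      · exact h.elim
      · rw [hinl] at h1
        cases h1
      · rw [hinr] at h1
        cases h1
      · exact h.elim
    · rintro g (v | e) (w | f) h h1 h2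
      · exact h.elim
      · exact hedge g v f h h1 h2
      · exact hedge g w e h h2 h1
      · exact h.elim
    · rintro (v | e)
      · have h1 : MulAction.stabilizer G (Sum.inl v : V ⊕ X.edgeSet) = MulAction.stabilizer G v := by
          ext g
          rw [MulAction.mem_stabilizer_iff, MulAction.mem_stabilizer_iff, hsv]
        rw [h1]
        exact isFP_of_cyclic (hcyc v)
      · obtain ⟨u, v, huv, hev⟩ := sedge X e
        have hflip : ∀ g : G, g • (Sum.inr e : V ⊕ X.edgeSet) = Sum.inr e → g ≠ 1 →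
            g • u = v ∧ g • v = u := by
          intro g hg hg1
          rcases (hse e u v hev g).1 hg with h1 | h1
          · exact absurd (he g u v huv h1.1 h1.2) hg1
          · exact h1
        have htwo : ∀ g h : G, g • (Sum.inr e : V ⊕ X.edgeSet) = Sum.inr e → g ≠ 1 →
            h • (Sum.inr e : V ⊕ X.edgeSet) = Sum.inr e → h ≠ 1 → g = h := by
          intro g h hg hg1 hh hh1
          obtain ⟨a1, a2⟩ := hflip g hg hg1
          obtain ⟨b1, b2⟩ := hflip h hh hh1
          have h3 : h⁻¹ * g = 1 := by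
            apply he _ u v huv
            · rw [mul_smul, a1, inv_smul_eq_iff, b1]
            · rw [mul_smul, a2, inv_smul_eq_iff, b2]
          exact (inv_mul_eq_one.1 h3).symm
        apply isFP_of_cyclic
        by_cases hex : ∃ f : MulAction.stabilizer G (Sum.inr e : V ⊕ X.edgeSet), f ≠ 1
        · obtain ⟨f, hf⟩ := hex
          refine ⟨⟨f, fun g => ?_⟩⟩
          by_cases hg : g = 1
          · rw [hg]
            exact Subgroup.one_mem (Subgroup.zpowers f)
          · have h3 : g = f := Subtype.ext (htwo g.1 f.1 g.2 (fun h => hg (Subtype.ext h)) f.2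
              (fun h => hf (Subtype.ext h)))
            rw [h3]
            exact Subgroup.mem_zpowers f
        · push Not at hex
          refine ⟨⟨1, fun g => ?_⟩⟩
          rw [hex g]
          exact Subgroup.mem_zpowers _
  -- representatives
  let f1 : V × V → (V ⊕ X.edgeSet) × (V ⊕ X.edgeSet) := fun p =>
    if h : X.Adj p.1 p.2 then (Sum.inl p.1, Sum.inr ⟨s(p.1, p.2), h⟩) else (Sum.inl p.1, Sum.inl p.1)
  let f2 : V × V → (V ⊕ X.edgeSet) × (V ⊕ X.edgeSet) := fun p =>
    if h : X.Adj p.1 p.2 then (Sum.inl p.2, Sum.inr ⟨s(p.1, p.2), h⟩) else (Sum.inl p.1, Sum.inl p.1)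
  have hadj : ∀ (g : G) (x y : V), X.Adj (g • x) (g • y) → X.Adj x y := by
    intro g x y h
    have := hact g⁻¹ _ _ h
    rwa [inv_smul_smul, inv_smul_smul] at this
  have hrep : ∀ (x : V) (e : X.edgeSet), x ∈ e.1 → ∃ (g : G) (p : (V ⊕ X.edgeSet) × (V ⊕ X.edgeSet)),
      p ∈ s.image f1 ∪ s.image f2 ∧ g • p.1 = Sum.inl x ∧ g • p.2 = Sum.inr e := by
    intro x e hx
    obtain ⟨y, hy⟩ := hx
    have hxy : X.Adj x y := by
      have := e.2
      rw [hy] at this
      simpa using this
    obtain ⟨g, p, hp, hg | hg⟩ := hs x y hxy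
    · have hpa : X.Adj p.1 p.2 := hadj g _ _ (by rw [hg.1, hg.2]; exact hxy)
      refine ⟨g, f1 p, Finset.mem_union_left _ (Finset.mem_image_of_mem _ hp), ?_⟩
      have h1 : f1 p = (Sum.inl p.1, Sum.inr ⟨s(p.1, p.2), hpa⟩) := dif_pos hpa
      rw [h1]
      refine ⟨by rw [hinl, hg.1], ?_⟩
      rw [hinr, Sum.inr_injective.eq_iff, Subtype.ext_iff, hy]
      change Sym2.map (fun x => g • x) s(p.1, p.2) = _
      rw [Sym2.map_mk, hg.1, hg.2]
    · have hpa : X.Adj p.1 p.2 := hadj g _ _ (by rw [hg.1, hg.2]; exact hxy.symm)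
      refine ⟨g, f2 p, Finset.mem_union_right _ (Finset.mem_image_of_mem _ hp), ?_⟩
      have h1 : f2 p = (Sum.inl p.2, Sum.inr ⟨s(p.1, p.2), hpa⟩) := dif_pos hpa
      rw [h1]
      refine ⟨by rw [hinl, hg.2], ?_⟩
      rw [hinr, Sum.inr_injective.eq_iff, Subtype.ext_iff, hy]
      change Sym2.map (fun x => g • x) s(p.1, p.2) = _
      rw [Sym2.map_mk, hg.1, hg.2]
      exact Sym2.eq_swap
  have hR : Reps G (sgr X) (s.image f1 ∪ s.image f2) := by
    rintro (v | e) (w | f) h
    · exact h.elim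
    · obtain ⟨g, p, hp, h1, h2⟩ := hrep v f h
      exact ⟨g, p, hp, Or.inl ⟨h1, h2⟩⟩
    · obtain ⟨g, p, hp, h1, h2⟩ := hrep w e h
      exact ⟨g, p, hp, Or.inr ⟨h1, h2⟩⟩
    · exact h.elim
  exact fp_of_tree _ G (V ⊕ X.edgeSet) (sgr X) _ le_rfl hTD hR

end Pool.Agent.ToF
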