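import Pool.Agent.Lib.MP_305fdd_al.To.F.PckOf
import Pool.Agent.Lib.MP_305fdd_al.Basic

/-!
# MP_305fdd_al, torsion room, block F: the literal end

From the rigidity of the free products of cyclic groups and of the cocompact lattices to the first
conjunct of the frozen statement S01087.
-/

set_option autoImplicit false

namespace Pool.Agent.ToF

open Matrix MeasureTheory Pool.Agent.ToN Pool.Agent.MP_305fdd_al Pool.Agent.Lib.MP_305fdd_al

/-- a discrete group of finite covolume is cocompact or its image is a free product of cyclic groups -/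
def S_FP : Prop := ∀ Γ : Subgroup SLR, Dsc Γ → (-1 : SLR) ∈ Γ → Pck Γ →
  (∀ C : ℝ, ∃ g : SLR, ∀ γ ∈ Γ, ¬ Bd C (γ * g)) →
    ∃ (n : ℕ) (m : Fin n → ℕ),
      Nonempty (Γ.map (QuotientGroup.mk' (Subgroup.center SLR)) ≃* FP m)

/-- cocompact lattices are profinitely rigid -/
def S_CO : Prop := ∀ (G : Type) [Group G] (R : G →* PSLR), Function.Injective R →
  Pool.Agent.ToN.Disc R → Pool.Agent.ToN.Coc R → ProfinitelyRigid G

/-- free products of cyclic groups are profinitely rigid -/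
def S_FR : Prop := ∀ (n : ℕ) (m : Fin n → ℕ), ProfinitelyRigid (FP m)

/-- the group generated by `Γ` and the centre -/
def pm (Γ : Subgroup SLR) : Subgroup SLR := (Γ.map (pr : SLR →* PSLR)).comap pr

theorem le_pm (Γ : Subgroup SLR) : Γ ≤ pm Γ := Subgroup.le_comap_map _ _

theorem mem_pm {Γ : Subgroup SLR} {A : SLR} : A ∈ pm Γ ↔ A ∈ Γ ∨ -A ∈ Γ := by
  constructor
  · rintro ⟨B, hB, h⟩
    rw [pr_eq_iff] at h
    rcases h with h | h
    · left
      rw [← (Subtype.ext h : B = A)]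
      exact hB
    · right
      have h1 : -A = B := Subtype.ext h.symm
      rw [h1]
      exact hB
  · rintro (h | h)
    · exact le_pm Γ h
    · exact ⟨-A, h, by rw [pr_eq_iff]; exact Or.inr rfl⟩

theorem neg_one_mem_pm (Γ : Subgroup SLR) : (-1 : SLR) ∈ pm Γ := by
  rw [mem_pm, neg_neg]
  exact Or.inr Γ.one_mem

theorem map_pm (Γ : Subgroup SLR) : (pm Γ).map pr = Γ.map pr := by
  unfold pm
  rw [Subgroup.map_comap_eq_self_of_surjective]
  exact QuotientGroup.mk'_surjective _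

theorem sq_one {A : SLR} (h : A * A = 1) (h0 : A.1 0 0 < 0) : A = -1 := by
  have h1 : A = A⁻¹ := eq_inv_of_mul_eq_one_left h
  have e00 := congrArg (fun B : SLR => B.1 0 0) h1
  have e01 := congrArg (fun B : SLR => B.1 0 1) h1
  have e10 := congrArg (fun B : SLR => B.1 1 0) h1
  simp only [inv1, Matrix.adjugate_fin_two, Matrix.of_apply, Matrix.cons_val', Matrix.cons_val_zero,
    Matrix.cons_val_one, Matrix.cons_val_fin_one] at e00 e01 e10
  have hd := slr_det A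
  have h01 : A.1 0 1 = 0 := by linarith
  have h10 : A.1 1 0 = 0 := by linarith
  rw [h01, h10, ← e00] at hd
  have h00 : A.1 0 0 = -1 := by nlinarith
  apply Subtype.ext
  show A.1 = -(1 : SLR).1
  rw [one1]
  ext i j
  fin_cases i <;> fin_cases j
  · simpa using h00
  · simpa using h01
  · simpa using h10
  · have h11 : A.1 1 1 = -1 := by rw [← e00]; exact h00
    simpa using h11

theorem dsc_pm {Γ : Subgroup SLR} (hd : Dsc Γ) : Dsc (pm Γ) := by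
  obtain ⟨ε, hε, h⟩ := hd
  refine ⟨min (ε / 8) (1 / 2), by positivity, fun A hA hn => ?_⟩
  have hn1 : ∀ i j, |A.1 i j - (1 : Matrix (Fin 2) (Fin 2) ℝ) i j| < ε / 8 := fun i j =>
    (hn i j).trans_le (min_le_left _ _)
  have hn2 : ∀ i j, |A.1 i j - (1 : Matrix (Fin 2) (Fin 2) ℝ) i j| < 1 / 2 := fun i j =>
    (hn i j).trans_le (min_le_right _ _)
  rcases mem_pm.1 hA with h1 | h1
  · exact h A h1 fun i j => (hn1 i j).trans (by linarith)
  · have h2 : A * A = (-A) * (-A) := by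
      rw [neg_mul_neg]
    have h3 : A * A ∈ Γ := by
      rw [h2]
      exact Γ.mul_mem h1 h1
    have h4 : A * A = 1 := by
      apply h _ h3
      intro i j
      have h5 : (A * A).1 i j - (1 : Matrix (Fin 2) (Fin 2) ℝ) i j =
          (A.1 i 0 * (A.1 0 j - (1 : Matrix (Fin 2) (Fin 2) ℝ) 0 j) +
            A.1 i 1 * (A.1 1 j - (1 : Matrix (Fin 2) (Fin 2) ℝ) 1 j)) +
          (A.1 i j - (1 : Matrix (Fin 2) (Fin 2) ℝ) i j) := by
        rw [mul1, Matrix.mul_apply, Fin.sum_univ_two]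
        revert j
        refine Fin.forall_fin_two.2 ⟨?_, ?_⟩
        · rw [Matrix.one_apply_eq, Matrix.one_apply_ne (show (1 : Fin 2) ≠ 0 by decide)]
          ring
        · rw [Matrix.one_apply_eq, Matrix.one_apply_ne (show (0 : Fin 2) ≠ 1 by decide)]
          ring
      have hb : ∀ k, |A.1 i k| ≤ 3 / 2 := by
        intro k
        have h6 := abs_lt.1 (hn2 i k)
        have h7 : |(1 : Matrix (Fin 2) (Fin 2) ℝ) i k| ≤ 1 := by
          fin_cases i <;> fin_cases k <;> simp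
        have h8 := abs_le.1 h7
        rw [abs_le]
        constructor <;> linarith [h6.1, h6.2, h8.1, h8.2]
      rw [h5]
      have h6 := hn1 0 j
      have h7 := hn1 1 j
      have h8 := hn1 i j
      have a1 : |A.1 i 0 * (A.1 0 j - (1 : Matrix (Fin 2) (Fin 2) ℝ) 0 j)| ≤ 3 / 2 * (ε / 8) := by
        rw [abs_mul]
        exact mul_le_mul (hb 0) h6.le (abs_nonneg _) (by norm_num)
      have a2 : |A.1 i 1 * (A.1 1 j - (1 : Matrix (Fin 2) (Fin 2) ℝ) 1 j)| ≤ 3 / 2 * (ε / 8) := by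
        rw [abs_mul]
        exact mul_le_mul (hb 1) h7.le (abs_nonneg _) (by norm_num)
      have a3 := abs_add_le (A.1 i 0 * (A.1 0 j - (1 : Matrix (Fin 2) (Fin 2) ℝ) 0 j) +
            A.1 i 1 * (A.1 1 j - (1 : Matrix (Fin 2) (Fin 2) ℝ) 1 j))
          (A.1 i j - (1 : Matrix (Fin 2) (Fin 2) ℝ) i j)
      have a4 := abs_add_le (A.1 i 0 * (A.1 0 j - (1 : Matrix (Fin 2) (Fin 2) ℝ) 0 j))
            (A.1 i 1 * (A.1 1 j - (1 : Matrix (Fin 2) (Fin 2) ℝ) 1 j))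
      linarith
    have h5 : (-A) * (-A) = 1 := by rw [← h2, h4]
    have h6 : (-A).1 0 0 < 0 := by
      have h7 := (abs_lt.1 (hn2 0 0)).1
      rw [Matrix.one_apply_eq] at h7
      show -(A.1 0 0) < 0
      linarith
    have h7 := sq_one h5 h6
    exact neg_injective h7

theorem cov_pm {Γ : Subgroup SLR}
    (hc : ∃ F : Set SLR, (∀ g : SLR, ∃ γ ∈ Γ, ∃ f ∈ F, g = γ * f) ∧
      volume {M : Fin 2 → Fin 2 → ℝ | ∃ f ∈ F, ∃ z : ℝ, z ≠ 0 ∧ ‖z‖ ≤ 1 ∧
        M = fun i j => z * (f : Matrix (Fin 2) (Fin 2) ℝ) i j} < ⊤) :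
    ∃ F : Set SLR, (∀ g : SLR, ∃ γ ∈ pm Γ, ∃ f ∈ F, g = γ * f) ∧
      volume {M : Fin 2 → Fin 2 → ℝ | ∃ f ∈ F, ∃ z : ℝ, z ≠ 0 ∧ ‖z‖ ≤ 1 ∧
        M = fun i j => z * (f : Matrix (Fin 2) (Fin 2) ℝ) i j} < ⊤ := by
  obtain ⟨F, h1, h2⟩ := hc
  refine ⟨F, fun g => ?_, h2⟩
  obtain ⟨γ, hγ, f, hf, h⟩ := h1 g
  exact ⟨γ, le_pm Γ hγ, f, hf, h⟩

/-- profinite rigidity is invariant under isomorphism -/
theorem rig_equiv {G H : Type} [Group G] [Group H] (e : G ≃* H) (h : ProfinitelyRigid G) :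
    ProfinitelyRigid H := by
  intro Λ _ hΛ
  obtain ⟨hfg, hrf, hs⟩ := hΛ
  obtain ⟨f⟩ := h Λ ⟨hfg, hrf, fun Q _ _ => ⟨fun hq => by
    obtain ⟨φ, hφ⟩ := (hs Q).1 hq
    exact ⟨φ.comp e.toMonoidHom, hφ.comp e.surjective⟩, fun hq => by
    obtain ⟨φ, hφ⟩ := hq
    exact (hs Q).2 ⟨φ.comp e.symm.toMonoidHom, hφ.comp e.symm.surjective⟩⟩⟩
  exact ⟨f.trans e⟩

/-- the image of a cocompact group, as a subgroup of `PSL(2, ℝ)` -/
theorem co_rigid (h2 : S_CO) {Γ : Subgroup SLR} (hd : Dsc (pm Γ)) {C : ℝ}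
    (hC : ∀ g : SLR, ∃ γ ∈ pm Γ, Bd C (γ * g)) : ProfinitelyRigid (Γ.map (pr : SLR →* PSLR)) := by
  apply h2 _ (Γ.map (pr : SLR →* PSLR)).subtype Subtype.val_injective
  · obtain ⟨ε, hε, h⟩ := hd
    refine ⟨ε, hε, fun g A hA hn => ?_⟩
    have h1 : A ∈ pm Γ := by
      show pr A ∈ Γ.map (pr : SLR →* PSLR)
      rw [hA]
      exact g.2
    have h3 := h A h1 hn
    apply Subtype.ext
    show (Γ.map (pr : SLR →* PSLR)).subtype g = 1
    rw [← hA, h3, map_one]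
  · refine ⟨C, fun g => ?_⟩
    obtain ⟨γ, hγ, h⟩ := hC g
    exact ⟨⟨pr γ, hγ⟩, γ, rfl, h⟩

/-- **Every lattice of `PSL(2, ℝ)` is profinitely rigid** (in the language of the library) -/
theorem lattice_rigid (h1 : S_FP) (h2 : S_CO) (h3 : S_FR) (Γ : Subgroup SLR) (hd : Dsc Γ)
    (hc : ∃ F : Set SLR, (∀ g : SLR, ∃ γ ∈ Γ, ∃ f ∈ F, g = γ * f) ∧
      volume {M : Fin 2 → Fin 2 → ℝ | ∃ f ∈ F, ∃ z : ℝ, z ≠ 0 ∧ ‖z‖ ≤ 1 ∧
        M = fun i j => z * (f : Matrix (Fin 2) (Fin 2) ℝ) i j} < ⊤) :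
    ProfinitelyRigid (Γ.map (QuotientGroup.mk' (Subgroup.center SLR))) := by
  have hd' := dsc_pm hd
  by_cases hC : ∃ C : ℝ, ∀ g : SLR, ∃ γ ∈ pm Γ, Bd C (γ * g)
  · obtain ⟨C, hC⟩ := hC
    exact co_rigid h2 hd' hC
  · push Not at hC
    obtain ⟨n, m, ⟨e⟩⟩ := h1 (pm Γ) hd' (neg_one_mem_pm Γ) (pck_of hd' (cov_pm hc)) hC
    have h4 := rig_equiv e.symm (h3 n m)
    have h5 : (pm Γ).map (QuotientGroup.mk' (Subgroup.center SLR)) =
      Γ.map (QuotientGroup.mk' (Subgroup.center SLR)) := map_pm Γ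
    rwa [h5] at h4

/-- **The first conjunct of the frozen statement S01087.** -/
theorem real_half (h1 : S_FP) (h2 : S_CO) (h3 : S_FR) :
    ∀ Γ : Subgroup (Matrix.SpecialLinearGroup (Fin 2) ℝ),
    (∃ ε : ℝ, 0 < ε ∧ ∀ γ ∈ Γ,
      (∀ i j, ‖(γ : Matrix (Fin 2) (Fin 2) ℝ) i j - (1 : Matrix (Fin 2) (Fin 2) ℝ) i j‖ < ε) → γ = 1) →
    (∃ F : Set (Matrix.SpecialLinearGroup (Fin 2) ℝ),
      (∀ g : Matrix.SpecialLinearGroup (Fin 2) ℝ, ∃ γ ∈ Γ, ∃ f ∈ F, g = γ * f) ∧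
      MeasureTheory.volume {M : Fin 2 → Fin 2 → ℝ | ∃ f ∈ F, ∃ z : ℝ, z ≠ 0 ∧ ‖z‖ ≤ 1 ∧
        M = fun i j => z * (f : Matrix (Fin 2) (Fin 2) ℝ) i j} < ⊤) →
    ∀ (Λ : Type) [Group Λ], Group.FG Λ →
      (∀ x : Λ, x ≠ 1 → ∃ (Q : Type) (_ : Group Q) (_ : Finite Q) (φ : Λ →* Q), φ x ≠ 1) →
      (∀ (Q : Type) [Group Q] [Finite Q],
        (∃ φ : Λ →* Q, Function.Surjective φ) ↔
        (∃ φ : ↥(Γ.map (QuotientGroup.mk' (Subgroup.center (Matrix.SpecialLinearGroup (Fin 2) ℝ)))) →* Q,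
          Function.Surjective φ)) →
      Nonempty (Λ ≃* ↥(Γ.map (QuotientGroup.mk' (Subgroup.center (Matrix.SpecialLinearGroup (Fin 2) ℝ))))) := by
  intro Γ hd hc Λ _ hfg hrf hs
  have hrf' : Group.ResiduallyFinite Λ :=
    Group.residuallyFinite_of_forall_exists_finite_monoidHom hrf
  exact lattice_rigid h1 h2 h3 Γ hd hc Λ ⟨hfg, hrf', hs⟩

end Pool.Agent.ToF
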