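import Pool.Agent.Lib.MP_305fdd_al.To.F.Defs

/-!
# MP_305fdd_al, torsion room, block F4c: the action on the perfect forms

The image of a discrete group in `PSL_2(ℝ)` acts on the tree of the perfect forms: trivial edge
stabilisers, cyclic vertex stabilisers, finitely many orbits of edges.
-/

set_option autoImplicit false

namespace Pool.Agent.ToF

open Matrix Pool.Agent.ToN

/-! ### forms -/

theorem qfx3 {Y Y' : Qf} {u v w : V2} (huv : dt u v ≠ 0) (hvw : dt v w ≠ 0) (huw : dt u w ≠ 0)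
    (hu : ev Y u = ev Y' u) (hv : ev Y v = ev Y' v) (hw : ev Y w = ev Y' w) : Y = Y' := by
  have hD : dt u v * dt v w * dt u w ≠ 0 := mul_ne_zero (mul_ne_zero huv hvw) huw
  unfold ev at hu hv hw
  unfold dt at hD huv hvw huw
  funext i
  fin_cases i
  · apply mul_left_cancel₀ hD
    show _ * Y 0 = _ * Y' 0
    linear_combination (v 1 * w 1 * (v 0 * w 1 - v 1 * w 0)) * hu -
      (u 1 * w 1 * (u 0 * w 1 - u 1 * w 0)) * hv + (u 1 * v 1 * (u 0 * v 1 - u 1 * v 0)) * hw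
  · apply mul_left_cancel₀ (mul_ne_zero two_ne_zero hD)
    show _ * Y 1 = _ * Y' 1
    linear_combination (-(v 0 * w 1 + v 1 * w 0) * (v 0 * w 1 - v 1 * w 0)) * hu +
      ((u 0 * w 1 + u 1 * w 0) * (u 0 * w 1 - u 1 * w 0)) * hv -
      ((u 0 * v 1 + u 1 * v 0) * (u 0 * v 1 - u 1 * v 0)) * hw
  · apply mul_left_cancel₀ hD
    show _ * Y 2 = _ * Y' 2
    linear_combination (v 0 * w 0 * (v 0 * w 1 - v 1 * w 0)) * hu -
      (u 0 * w 0 * (u 0 * w 1 - u 1 * w 0)) * hv + (u 0 * v 0 * (u 0 * v 1 - u 1 * v 0)) * hw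

theorem qfx {Y Y' : Qf} (h : ∀ x, ev Y x = ev Y' x) : Y = Y' := by
  refine qfx3 (u := ![1, 0]) (v := ![0, 1]) (w := ![1, 1]) ?_ ?_ ?_ (h _) (h _) (h _) <;>
    simp [dt]

theorem pull_pull (A B : SLR) (Y : Qf) : pull A (pull B Y) = pull (B * A) Y :=
  qfx fun x => by rw [ev_pull, ev_pull, ev_pull, ac_mul]

theorem pull_one (Y : Qf) : pull 1 Y = Y := qfx fun x => by rw [ev_pull, ac_one]

theorem evn (Y : Qf) (x : V2) : ev Y (-x) = ev Y x := by
  unfold ev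
  simp only [Pi.neg_apply]
  ring

theorem ac_of_neg {A B : SLR} (h : A.1 = -B.1) (v : V2) : ac A v = -ac B v := by
  unfold ac
  rw [h, Matrix.neg_mulVec]

theorem pull_PM {A B : SLR} (h : PM A B) (Y : Qf) : pull A Y = pull B Y := by
  rcases h with h | h
  · rw [show A = B from Subtype.ext h]
  · exact qfx fun x => by rw [ev_pull, ev_pull, ac_of_neg h, evn]

theorem Ps.two {Y : Qf} (h : Ps Y) : 0 < Y 2 := by
  have h1 := h.2
  unfold ds at h1
  have h2 : 0 < Y 0 * Y 2 := by nlinarith [sq_nonneg (Y 1)]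
  exact (mul_pos_iff_of_pos_left h.1).1 h2

theorem ev_pos {Y : Qf} (h : Ps Y) {x : V2} (hx : x ≠ 0) : 0 < ev Y x := by
  have h0 := h.1
  have h1 := h.2
  have e : Y 0 * ev Y x = (Y 0 * x 0 + Y 1 * x 1) ^ 2 + ds Y * x 1 ^ 2 := by
    unfold ev ds
    ring
  have h2 : 0 < Y 0 * ev Y x := by
    rw [e]
    by_cases hx1 : x 1 = 0
    · have hx0 : x 0 ≠ 0 := by
        intro hx0
        exact hx (v2_ext hx0 hx1)
      rw [hx1]
      have : 0 < (Y 0 * x 0) ^ 2 := by positivity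
      nlinarith
    · have : 0 < ds Y * x 1 ^ 2 := mul_pos h1 (by positivity)
      nlinarith [sq_nonneg (Y 0 * x 0 + Y 1 * x 1)]
  exact (mul_pos_iff_of_pos_left h0).1 h2

theorem ac_ne {A : SLR} {x : V2} (hx : x ≠ 0) : ac A x ≠ 0 := by
  intro h
  apply hx
  rw [← ac_inv_ac A x, h]
  unfold ac
  rw [Matrix.mulVec_zero]

theorem Ps.pull {Y : Qf} (h : Ps Y) (A : SLR) : Ps (ToF.pull A Y) := by
  refine ⟨?_, by rw [ds_pull]; exact h.2⟩
  show 0 < ev Y (ac A ![1, 0])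
  apply ev_pos h
  apply ac_ne
  intro h0
  have := congrFun h0 0
  simp at this

/-! ### the set `U` is stable under `Γ` -/

theorem Ad.pull {U : Set V2} {Y : Qf} (h : Ad U Y) {A : SLR} (hA : ∀ v ∈ U, ac A v ∈ U) :
    Ad U (ToF.pull A Y) :=
  ⟨h.1.pull A, fun u hu => by rw [ev_pull]; exact h.2 _ (hA u hu)⟩

theorem mv_pull {U : Set V2} {Y : Qf} {A : SLR} (hA' : ∀ v ∈ U, ac A⁻¹ v ∈ U) {u : V2}
    (hu : u ∈ Mv U Y) : ac A⁻¹ u ∈ Mv U (ToF.pull A Y) :=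
  ⟨hA' u hu.1, by rw [ev_pull, ac_ac_inv]; exact hu.2⟩

theorem Pf.pull {U : Set V2} {Y : Qf} (h : Pf U Y) {A : SLR} (hA : ∀ v ∈ U, ac A v ∈ U)
    (hA' : ∀ v ∈ U, ac A⁻¹ v ∈ U) : Pf U (ToF.pull A Y) := by
  obtain ⟨h1, u, hu, v, hv, w, hw, huv, hvw, huw⟩ := h
  refine ⟨h1.pull hA, ac A⁻¹ u, mv_pull hA' hu, ac A⁻¹ v, mv_pull hA' hv, ac A⁻¹ w, mv_pull hA' hw,
    ?_, ?_, ?_⟩ <;> rw [dt_ac] <;> assumption

/-! ### the action -/

/-- the action of `SL_2(ℝ)` on the forms -/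
def hS : SLR →* Equiv.Perm Qf where
  toFun A :=
    { toFun := pull A⁻¹
      invFun := pull A
      left_inv := fun Y => by rw [pull_pull, inv_mul_cancel, pull_one]
      right_inv := fun Y => by rw [pull_pull, mul_inv_cancel, pull_one] }
  map_one' := by
    apply Equiv.ext
    intro Y
    show pull (1 : SLR)⁻¹ Y = Y
    rw [inv_one, pull_one]
  map_mul' A B := by
    apply Equiv.ext
    intro Y
    show pull (A * B)⁻¹ Y = pull A⁻¹ (pull B⁻¹ Y)
    rw [pull_pull, _root_.mul_inv_rev]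

theorem hS_apply (A : SLR) (Y : Qf) : hS A Y = pull A⁻¹ Y := rfl

theorem PM.inv {A B : SLR} (h : PM A B) : PM A⁻¹ B⁻¹ := by
  rw [← pr_eq_iff] at h ⊢
  rw [map_inv, map_inv, h]

/-- the action of `PSL_2(ℝ)` on the forms -/
def hP : PSLR →* Equiv.Perm Qf :=
  QuotientGroup.lift (Subgroup.center SLR) hS fun z hz => by
    have h1 : pr z = pr 1 := by
      rw [map_one]
      exact (QuotientGroup.eq_one_iff z).2 hz
    rw [pr_eq_iff] at h1
    apply Equiv.ext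
    intro Y
    rw [hS_apply, pull_PM (PM.inv h1), inv_one, pull_one]
    rfl

theorem hP_pr (A : SLR) (Y : Qf) : hP (pr A) Y = pull A⁻¹ Y := rfl

/-- the image in `PSL_2(ℝ)` -/
abbrev IG (Γ : Subgroup SLR) : Type := ↥(Γ.map (QuotientGroup.mk' (Subgroup.center SLR)))

theorem IG.rep {Γ : Subgroup SLR} (g : IG Γ) : ∃ γ ∈ Γ, pr γ = g.1 := by
  obtain ⟨γ, hγ, h⟩ := Subgroup.mem_map.1 g.2
  exact ⟨γ, hγ, h⟩

/-- the action on the perfect forms -/
@[reducible] def vact (Γ : Subgroup SLR) (U : Set V2) (hU : ∀ γ ∈ Γ, ∀ v ∈ U, ac γ v ∈ U) :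
    MulAction (IG Γ) (Vx U) where
  smul g Y := ⟨hP g.1 Y.1, by
    obtain ⟨γ, hγ, h⟩ := g.rep
    rw [← h, hP_pr]
    refine Y.2.pull (fun v hv => hU _ (Γ.inv_mem hγ) v hv) fun v hv => ?_
    rw [inv_inv]
    exact hU _ hγ v hv⟩
  one_smul Y := Subtype.ext (by
    show hP (1 : PSLR) Y.1 = Y.1
    rw [map_one]
    rfl)
  mul_smul g h Y := Subtype.ext (by
    show hP (g.1 * h.1) Y.1 = hP g.1 (hP h.1 Y.1)
    rw [map_mul]
    rfl)

end Pool.Agent.ToF
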