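import Pool.Agent.Lib.MP_305fdd_al.To.F.Defs
import Mathlib.Combinatorics.SimpleGraph.Acyclic

/-!
# MP_305fdd_al, torsion room, block F, part F4b: the graph of the perfect forms is acyclic
-/

set_option autoImplicit false

namespace Pool.Agent.ToF

open Matrix

/-- the bilinear form -/
def bl (Y : Qf) (v w : V2) : ℝ :=
  Y 0 * (v 0 * w 0) + Y 1 * (v 0 * w 1 + v 1 * w 0) + Y 2 * (v 1 * w 1)

theorem ev_neg (Y : Qf) (v : V2) : ev Y (-v) = ev Y v := by
  unfold ev
  simp only [Pi.neg_apply]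
  ring

/-- the value of a form in the basis `v, w` -/
theorem ev_basis (Y : Qf) (v w x : V2) : dt v w ^ 2 * ev Y x =
    dt x w ^ 2 * ev Y v + 2 * (dt x w * dt v x) * bl Y v w + dt v x ^ 2 * ev Y w := by
  unfold ev bl dt
  ring

theorem qf_ext {Y Z : Qf} (h : ∀ x : V2, ev Y x = ev Z x) : Y = Z := by
  have h1 := h ![1, 0]
  have h2 := h ![0, 1]
  have h3 := h ![1, 1]
  simp [ev] at h1 h2 h3
  funext i
  fin_cases i
  · exact h1
  · show Y 1 = Z 1
    linarith
  · exact h2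

/-- the forms with given values at `v` and `w` form a line -/
theorem line {Y Z : Qf} {v w : V2} (h : dt v w ≠ 0) (hv : ev Z v = ev Y v)
    (hw : ev Z w = ev Y w) : ∃ s : ℝ, ∀ x, ev Z x = ev Y x + s * (dt v x * dt w x) := by
  refine ⟨-2 * (bl Z v w - bl Y v w) / dt v w ^ 2, fun x => ?_⟩
  have h1 := ev_basis Y v w x
  have h2 := ev_basis Z v w x
  rw [hv, hw] at h2
  have h3 : dt x w = - dt w x := by unfold dt; ring
  rw [h3] at h1 h2
  have h4 : dt v w ^ 2 ≠ 0 := pow_ne_zero 2 h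
  field_simp
  linear_combination h2 - h1

section

variable {U : Set V2}

/-- a minimal vector of the midpoint -/
theorem mid_gt {M : Qf} {v w : V2} (hM : ∀ u ∈ U, dt v u * dt w u ≠ 0 → 1 < ev M u)
    (hMv : ev M v = 1) (hMw : ev M w = 1) (hvw : dt v w ≠ 0) {Z : Qf}
    (hZ : ∀ u ∈ U, 1 ≤ ev Z u) (hv : v ∈ U) (hw : w ∈ U) {u u' : V2} (hu : u ∈ Mv U Z)
    (hu' : u' ∈ Mv U Z) (h1 : dt v u * dt w u < 0) (h2 : 0 < dt v u' * dt w u') : False := by
  have D : 0 < dt v w ^ 2 := by positivity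
  have key : ∀ Q : Qf, dt v w ^ 2 * ((dt v u' * dt w u') * ev Q u - (dt v u * dt w u) * ev Q u') =
      ((dt v u' * dt w u') * dt u w ^ 2 - (dt v u * dt w u) * dt u' w ^ 2) * ev Q v +
      ((dt v u' * dt w u') * dt v u ^ 2 - (dt v u * dt w u) * dt v u' ^ 2) * ev Q w := by
    intro Q
    have e1 := ev_basis Q v w u
    have e2 := ev_basis Q v w u'
    have e3 : dt u w = - dt w u := by unfold dt; ring
    have e4 : dt u' w = - dt w u' := by unfold dt; ring
    rw [e3] at e1 ⊢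
    rw [e4] at e2 ⊢
    linear_combination (dt v u' * dt w u') * e1 - (dt v u * dt w u) * e2
  have hM1 := hM u hu.1 h1.ne
  have hM2 := hM u' hu'.1 h2.ne'
  have k1 := key M
  have k2 := key Z
  rw [hMv, hMw] at k1
  rw [hu.2, hu'.2] at k2
  have hZv := hZ v hv
  have hZw := hZ w hw
  generalize dt v u * dt w u = p at *
  generalize dt v u' * dt w u' = p' at *
  have a0 : 0 ≤ p' * dt u w ^ 2 - p * dt u' w ^ 2 := by
    nlinarith [sq_nonneg (dt u w), sq_nonneg (dt u' w)]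
  have b0 : 0 ≤ p' * dt v u ^ 2 - p * dt v u' ^ 2 := by
    nlinarith [sq_nonneg (dt v u), sq_nonneg (dt v u')]
  generalize p' * dt u w ^ 2 - p * dt u' w ^ 2 = a at *
  generalize p' * dt v u ^ 2 - p * dt v u' ^ 2 = b at *
  have h5 : a + b ≤ dt v w ^ 2 * (p' - p) := by nlinarith
  have h6 : dt v w ^ 2 * (p' - p) < a + b := by
    have h7 : p' - p < p' * ev M u - p * ev M u' := by nlinarith
    have h8 := mul_lt_mul_of_pos_left h7 D
    linarith
  linarith

/-- a perfect form has a minimal vector which is not parallel to `v` or `w` -/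
theorem pf_other (h : CU U) {Z : Qf} (hZ : Pf U Z) {v w : V2} (hv : v ∈ U) (hw : w ∈ U)  :
    ∃ u ∈ Mv U Z, dt v u * dt w u ≠ 0 := by
  obtain ⟨_, a, ha, b, hb, c, hc, hab, hbc, hac⟩ := hZ
  by_contra hn
  push Not at hn
  have key : ∀ u ∈ Mv U Z, (u = v ∨ u = -v) ∨ (u = w ∨ u = -w) := by
    intro u hu
    rcases mul_eq_zero.1 (hn u hu) with h1 | h1
    · exact Or.inl (h.par v hv u hu.1 h1)
    · exact Or.inr (h.par w hw u hu.1 h1)
  have z1 : dt v v = 0 := by unfold dt; ring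
  have z2 : ∀ x y : V2, dt x (-y) = - dt x y := by
    intro x y; unfold dt; simp only [Pi.neg_apply]; ring
  have z3 : ∀ x y : V2, dt (-x) y = - dt x y := by
    intro x y; unfold dt; simp only [Pi.neg_apply]; ring
  have z4 : ∀ x : V2, dt x x = 0 := by intro x; unfold dt; ring
  have kv : ∀ x y : V2, ∀ z : V2, (x = z ∨ x = -z) → (y = z ∨ y = -z) → dt x y = 0 := by
    intro x y z hx hy
    rcases hx with rfl | rfl <;> rcases hy with rfl | rfl <;> simp [z2, z3, z4]
  rcases key a ha with a1 | a1 <;> rcases key b hb with b1 | b1 <;>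
    rcases key c hc with c1 | c1
  · exact hab (kv _ _ _ a1 b1)
  · exact hab (kv _ _ _ a1 b1)
  · exact hac (kv _ _ _ a1 c1)
  · exact hbc (kv _ _ _ b1 c1)
  · exact hbc (kv _ _ _ b1 c1)
  · exact hac (kv _ _ _ a1 c1)
  · exact hab (kv _ _ _ a1 b1)
  · exact hab (kv _ _ _ a1 b1)

/-- the cut of an edge, one orientation -/
theorem cut_pos (h : CU U) {Y Y' : Vx U} {v w : V2} (hv : v ∈ Mv U Y.1) (hw : w ∈ Mv U Y.1)
    (hv' : v ∈ Mv U Y'.1) (hw' : w ∈ Mv U Y'.1) (hvw : dt v w ≠ 0) {t : ℝ} (ht : 0 < t)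
    (hl : ∀ x, ev Y'.1 x = ev Y.1 x + t * (dt v x * dt w x)) :
    ∃ S : Set (Vx U), Y ∈ S ∧ Y' ∉ S ∧ ∀ Z Z', (Tr U).Adj Z Z' → Z ∈ S → Z' ∉ S →
      Z = Y ∧ Z' = Y' := by
  -- the midpoint
  let M : Qf := (1 / 2 : ℝ) • (Y.1 + Y'.1)
  have hMe : ∀ x, ev M x = (ev Y.1 x + ev Y'.1 x) / 2 := by
    intro x
    rw [ev_smul, ev_add]
    ring
  have hM : ∀ u ∈ U, dt v u * dt w u ≠ 0 → 1 < ev M u := by
    intro u hu hq
    rw [hMe]
    have h1 := Y.2.1.2 u hu
    have h2 := Y'.2.1.2 u hu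
    have h3 := hl u
    rcases lt_or_gt_of_ne hq with h4 | h4
    · have h5 : t * (dt v u * dt w u) < 0 := mul_neg_of_pos_of_neg ht h4
      linarith
    · have h5 : 0 < t * (dt v u * dt w u) := mul_pos ht h4
      linarith
  have hMv : ev M v = 1 := by rw [hMe, hv.2, hv'.2]; norm_num
  have hMw : ev M w = 1 := by rw [hMe, hw.2, hw'.2]; norm_num
  have side : ∀ Z : Vx U, ∀ u ∈ Mv U Z.1, ∀ u' ∈ Mv U Z.1, dt v u * dt w u < 0 →
      0 < dt v u' * dt w u' → False := fun Z u hu u' hu' h1 h2 =>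
    mid_gt hM hMv hMw hvw Z.2.1.2 hv.1 hw.1 hu hu' h1 h2
  have hY1 : ∃ u ∈ Mv U Y.1, 0 < dt v u * dt w u := by
    obtain ⟨u, hu, hq⟩ := pf_other h Y.2 hv.1 hw.1
    refine ⟨u, hu, ?_⟩
    have h1 := Y'.2.1.2 u hu.1
    rw [hl, hu.2] at h1
    rcases lt_or_gt_of_ne hq with h4 | h4
    · have h5 : t * (dt v u * dt w u) < 0 := mul_neg_of_pos_of_neg ht h4
      linarith
    · exact h4
  have hY2 : ∀ u ∈ Mv U Y'.1, dt v u * dt w u ≤ 0 := by
    intro u hu
    have h1 := Y.2.1.2 u hu.1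
    have h2 := hl u
    rw [hu.2] at h2
    by_contra hn
    push Not at hn
    have h5 : 0 < t * (dt v u * dt w u) := mul_pos ht hn
    linarith
  refine ⟨{Z | ∃ u ∈ Mv U Z.1, 0 < dt v u * dt w u}, hY1, ?_, ?_⟩
  · rintro ⟨u, hu, hq⟩
    exact absurd (hY2 u hu) (not_le.2 hq)
  · rintro Z Z' ⟨_, a, ha, b, hb, ha', hb', hab⟩ ⟨u0, hu0, hq0⟩ hZ'
    have hZ0 : ∀ u ∈ Mv U Z.1, 0 ≤ dt v u * dt w u := by
      intro u hu
      by_contra hn
      push Not at hn
      exact side Z u hu u0 hu0 hn hq0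
    have hZ1 : ∀ u ∈ Mv U Z'.1, dt v u * dt w u ≤ 0 := by
      intro u hu
      by_contra hn
      push Not at hn
      exact hZ' ⟨u, hu, hn⟩
    have qa : dt v a * dt w a = 0 := le_antisymm (hZ1 a ha') (hZ0 a ha)
    have qb : dt v b * dt w b = 0 := le_antisymm (hZ1 b hb') (hZ0 b hb)
    have z2 : ∀ x y : V2, dt x (-y) = - dt x y := by
      intro x y; unfold dt; simp only [Pi.neg_apply]; ring
    have z3 : ∀ x y : V2, dt (-x) y = - dt x y := by
      intro x y; unfold dt; simp only [Pi.neg_apply]; ring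
    have z4 : ∀ x : V2, dt x x = 0 := by intro x; unfold dt; ring
    have kv : ∀ x y : V2, ∀ z : V2, (x = z ∨ x = -z) → (y = z ∨ y = -z) → dt x y = 0 := by
      intro x y z hx hy
      rcases hx with rfl | rfl <;> rcases hy with rfl | rfl <;> simp [z2, z3, z4]
    have ke : ∀ (Q : Qf) (x z : V2), (x = z ∨ x = -z) → ev Q x = ev Q z := by
      intro Q x z hx
      rcases hx with rfl | rfl
      · rfl
      · exact ev_neg Q z
    have hvals : ∀ Q : Qf, ev Q a = 1 → ev Q b = 1 → ev Q v = 1 ∧ ev Q w = 1 := by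
      intro Q h1 h2
      rcases mul_eq_zero.1 qa with a1 | a1
      · have a2 := h.par v hv.1 a ha.1 a1
        rcases mul_eq_zero.1 qb with b1 | b1
        · exact absurd (kv _ _ _ a2 (h.par v hv.1 b hb.1 b1)) hab
        · have b2 := h.par w hw.1 b hb.1 b1
          rw [ke Q a v a2] at h1
          rw [ke Q b w b2] at h2
          exact ⟨h1, h2⟩
      · have a2 := h.par w hw.1 a ha.1 a1
        rcases mul_eq_zero.1 qb with b1 | b1
        · have b2 := h.par v hv.1 b hb.1 b1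
          rw [ke Q a w a2] at h1
          rw [ke Q b v b2] at h2
          exact ⟨h2, h1⟩
        · exact absurd (kv _ _ _ a2 (h.par w hw.1 b hb.1 b1)) hab
    obtain ⟨zv, zw⟩ := hvals Z.1 ha.2 hb.2
    obtain ⟨zv', zw'⟩ := hvals Z'.1 ha'.2 hb'.2
    constructor
    · obtain ⟨s, hs⟩ := line hvw (zv.trans hv.2.symm) (zw.trans hw.2.symm)
      have s1 : s ≤ 0 := by
        have h1 := Y.2.1.2 u0 hu0.1
        have h2 := hs u0
        rw [hu0.2] at h2
        by_contra hn
        push Not at hn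
        have h5 : 0 < s * (dt v u0 * dt w u0) := mul_pos hn hq0
        linarith
      have s2 : 0 ≤ s := by
        obtain ⟨u1, hu1, hq1⟩ := hY1
        have h1 := Z.2.1.2 u1 hu1.1
        rw [hs, hu1.2] at h1
        by_contra hn
        push Not at hn
        have h5 : s * (dt v u1 * dt w u1) < 0 := mul_neg_of_neg_of_pos hn hq1
        linarith
      have s3 : s = 0 := le_antisymm s1 s2
      apply Subtype.ext
      apply qf_ext
      intro x
      rw [hs, s3]
      ring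
    · obtain ⟨s, hs⟩ := line hvw (zv'.trans hv'.2.symm) (zw'.trans hw'.2.symm)
      have s1 : 0 ≤ s := by
        obtain ⟨u, hu, hq⟩ := pf_other h Z'.2 hv.1 hw.1
        have hq' : dt v u * dt w u < 0 := lt_of_le_of_ne (hZ1 u hu) hq
        have h1 := Y'.2.1.2 u hu.1
        have h2 := hs u
        rw [hu.2] at h2
        by_contra hn
        push Not at hn
        have h5 : 0 < s * (dt v u * dt w u) := mul_pos_of_neg_of_neg hn hq'
        linarith
      have s2 : s ≤ 0 := by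
        obtain ⟨u, hu, hq⟩ := pf_other h Y'.2 hv.1 hw.1
        have hq' : dt v u * dt w u < 0 := lt_of_le_of_ne (hY2 u hu) hq
        have h1 := Z'.2.1.2 u hu.1
        rw [hs, hu.2] at h1
        by_contra hn
        push Not at hn
        have h5 : s * (dt v u * dt w u) < 0 := mul_neg_of_pos_of_neg hn hq'
        linarith
      have s3 : s = 0 := le_antisymm s2 s1
      apply Subtype.ext
      apply qf_ext
      intro x
      rw [hs, s3]
      ring

/-- the cut of an edge -/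
theorem cut (h : CU U) {Y Y' : Vx U} (hadj : (Tr U).Adj Y Y') :
    ∃ S : Set (Vx U), Y ∈ S ∧ Y' ∉ S ∧ ∀ Z Z', (Tr U).Adj Z Z' → Z ∈ S → Z' ∉ S →
      Z = Y ∧ Z' = Y' := by
  obtain ⟨hne, v, hv, w, hw, hv', hw', hvw⟩ := hadj
  obtain ⟨t, ht⟩ := line hvw (hv'.2.trans hv.2.symm) (hw'.2.trans hw.2.symm)
  have ht0 : t ≠ 0 := by
    rintro rfl
    apply hne
    apply Subtype.ext
    apply qf_ext
    intro x
    rw [ht]
    ring
  rcases lt_or_gt_of_ne ht0 with h1 | h1
  · obtain ⟨S, hS1, hS2, hS3⟩ := cut_pos h hv' hw' hv hw hvw (t := -t) (by linarith)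
      (by intro x; rw [ht]; ring)
    refine ⟨Sᶜ, hS2, fun hn => hn hS1, ?_⟩
    intro Z Z' hZ h2 h3
    obtain ⟨e1, e2⟩ := hS3 Z' Z hZ.symm (not_not.1 h3) h2
    exact ⟨e2, e1⟩
  · exact cut_pos h hv hw hv' hw' hvw h1 ht

/-- **F4b**: the graph of the perfect forms is acyclic -/
theorem bridge (h : CU U) : (Tr U).IsAcyclic := by
  rw [SimpleGraph.isAcyclic_iff_forall_adj_isBridge]
  intro Y Y' hadj
  obtain ⟨S, hu, hv, hS⟩ := cut h hadj
  rw [SimpleGraph.isBridge_iff]
  intro hr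
  obtain ⟨p⟩ := hr
  have key : ∀ (a b : Vx U), ((Tr U) \ SimpleGraph.fromEdgeSet {s(Y, Y')}).Walk a b →
      a ∈ S → b ∈ S := by
    intro a b q
    induction q with
    | nil => exact id
    | @cons a b c h q ih =>
      intro ha
      apply ih
      by_contra hb
      rw [SimpleGraph.sdiff_adj] at h
      obtain ⟨h1, h2⟩ := h
      obtain ⟨e1, e2⟩ := hS a b h1 ha hb
      apply h2
      rw [SimpleGraph.fromEdgeSet_adj]
      refine ⟨?_, h1.ne⟩
      rw [Set.mem_singleton_iff, e1, e2]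
  exact hv (key Y Y' p hu)

end

end Pool.Agent.ToF
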