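import Pool.Agent.Lib.MP_305fdd_al.To.F.Shoot

/-!
# MP_305fdd_al, torsion room, block F: the graph of the perfect forms is connected (Voronoi's algorithm)
-/

set_option autoImplicit false

namespace Pool.Agent.ToF

open Matrix Pool.Agent.ToN

/-- a quadratic form is determined by three values -/
theorem ev_three (D : Qf) (u v w x : V2) : ev D x * (dt u v * dt v w * dt u w) =
    ev D u * (dt v w * dt v x * dt w x) - ev D v * (dt u w * dt u x * dt w x) +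
      ev D w * (dt u v * dt u x * dt v x) := by
  unfold ev dt
  ring

theorem ev_sub (Y Z : Qf) (x : V2) : ev (Y - Z) x = ev Y x - ev Z x := by
  unfold ev
  simp only [Pi.sub_apply]
  ring

theorem qf_eq_zero {D : Qf} (h : ∀ x, ev D x = 0) : D = 0 := by
  have h0 := h ![1, 0]
  have h1 := h ![0, 1]
  have h2 := h ![1, 1]
  unfold ev at h0 h1 h2
  simp only [Matrix.cons_val_zero, Matrix.cons_val_one] at h0 h1 h2
  funext i
  fin_cases i
  · change D 0 = 0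
    linarith
  · change D 1 = 0
    linarith
  · change D 2 = 0
    linarith

theorem qf_ext3 {Y Z : Qf} {u v w : V2} (huv : dt u v ≠ 0) (hvw : dt v w ≠ 0) (huw : dt u w ≠ 0)
    (hu : ev Y u = ev Z u) (hv : ev Y v = ev Z v) (hw : ev Y w = ev Z w) : Y = Z := by
  have h : Y - Z = 0 := by
    apply qf_eq_zero
    intro x
    have h1 := ev_three (Y - Z) u v w x
    rw [ev_sub Y Z u, ev_sub Y Z v, ev_sub Y Z w, hu, hv, hw] at h1
    have h2 : ev (Y - Z) x * (dt u v * dt v w * dt u w) = 0 := by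
      rw [h1]
      ring
    exact (mul_eq_zero.1 h2).resolve_right (mul_ne_zero (mul_ne_zero huv hvw) huw)
  exact sub_eq_zero.1 h

/-- a form in the basis `v, w` -/
theorem ev_bas (X : Qf) (v w x : V2) : ev X x * (dt v w) ^ 2 =
    ev X v * (dt x w) ^ 2 + ev X w * (dt v x) ^ 2 +
      (ev X (v + w) - ev X v - ev X w) * (dt x w * dt v x) := by
  unfold ev dt
  simp only [Pi.add_apply]
  ring

theorem ev_neg_arg (Y : Qf) (x : V2) : ev Y (-x) = ev Y x := by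
  unfold ev
  simp only [Pi.neg_apply]
  ring

theorem dt_neg_left (v w : V2) : dt (-v) w = -dt v w := by
  unfold dt
  simp only [Pi.neg_apply]
  ring

theorem dt_neg_right (v w : V2) : dt v (-w) = -dt v w := by
  unfold dt
  simp only [Pi.neg_apply]
  ring

theorem pl4 (v m x y : V2) : dt v m * dt x y = dt v y * dt x m - dt m y * dt x v := by
  unfold dt
  ring

/-- the two vectors next to a line -/
theorem exists_adj {M : Set V2} (hM : M.Finite) {x₀ : V2} (hx₀ : x₀ ≠ 0)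
    (hne : ∀ m ∈ M, dt x₀ m ≠ 0) (hneg : ∀ m ∈ M, -m ∈ M) {m₁ m₂ : V2} (h₁ : m₁ ∈ M)
    (h₂ : m₂ ∈ M) (h₁₂ : dt m₁ m₂ ≠ 0) :
    ∃ v ∈ M, ∃ w ∈ M, dt v w ≠ 0 ∧ 0 < dt x₀ v ∧ 0 < dt x₀ w ∧
      ∀ m ∈ M, dt v m * dt w m ≤ 0 := by
  obtain ⟨y, hy⟩ : ∃ y, dt x₀ y = 1 := by
    obtain ⟨z, hz⟩ := exists_dt_ne hx₀
    refine ⟨(dt x₀ z)⁻¹ • z, ?_⟩
    have e : dt x₀ ((dt x₀ z)⁻¹ • z) = (dt x₀ z)⁻¹ * dt x₀ z := by
      unfold dt
      simp only [Pi.smul_apply, smul_eq_mul]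
      ring
    rw [e, inv_mul_cancel₀ hz]
  -- the half of `M` with positive determinant
  have hfin : {m | m ∈ M ∧ 0 < dt x₀ m}.Finite := hM.subset fun m hm => hm.1
  have hhalf : ∀ m ∈ M, ∃ m' ∈ M, 0 < dt x₀ m' ∧ (m' = m ∨ m' = -m) := by
    intro m hm
    rcases lt_or_gt_of_ne (hne m hm) with h | h
    · exact ⟨-m, hneg m hm, by rw [dt_neg_right]; linarith, Or.inr rfl⟩
    · exact ⟨m, hm, h, Or.inl rfl⟩
  obtain ⟨m₀, hm₀, hm₀', -⟩ := hhalf m₁ h₁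
  have hnon : {m | m ∈ M ∧ 0 < dt x₀ m}.Nonempty := ⟨m₀, hm₀, hm₀'⟩
  obtain ⟨v, hv, hvmax⟩ := Set.exists_max_image _ (fun m => dt m y / dt x₀ m) hfin hnon
  obtain ⟨w, hw, hwmin⟩ := Set.exists_min_image _ (fun m => dt m y / dt x₀ m) hfin hnon
  have hvm : ∀ m ∈ M, 0 < dt x₀ m → 0 ≤ dt v m := by
    intro m hm hm'
    have h1 : dt m y / dt x₀ m ≤ dt v y / dt x₀ v := hvmax m ⟨hm, hm'⟩
    rw [div_le_div_iff₀ hm' hv.2] at h1
    have h2 := pl4 v m x₀ y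
    rw [hy, mul_one] at h2
    rw [h2]
    linarith
  have hwm : ∀ m ∈ M, 0 < dt x₀ m → dt w m ≤ 0 := by
    intro m hm hm'
    have h1 : dt w y / dt x₀ w ≤ dt m y / dt x₀ m := hwmin m ⟨hm, hm'⟩
    rw [div_le_div_iff₀ hw.2 hm'] at h1
    have h2 := pl4 w m x₀ y
    rw [hy, mul_one] at h2
    rw [h2]
    linarith
  refine ⟨v, hv.1, w, hw.1, ?_, hv.2, hw.2, ?_⟩
  · intro h0
    -- all elements are parallel
    have hpar : ∀ m ∈ M, 0 < dt x₀ m → dt v m = 0 := by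
      intro m hm hm'
      have h1 := hvm m hm hm'
      have h2 := hwm m hm hm'
      have h3 := pl4 v w x₀ m
      rw [h0, zero_mul] at h3
      -- dt v m * dt x₀ w = dt w m * dt x₀ v
      have h4 : dt v m * dt x₀ w ≤ 0 := by
        have : dt v m * dt x₀ w = dt w m * dt x₀ v := by linarith
        rw [this]
        exact mul_nonpos_of_nonpos_of_nonneg h2 hv.2.le
      have h5 : 0 ≤ dt v m * dt x₀ w := mul_nonneg h1 hw.2.le
      have h6 : dt v m * dt x₀ w = 0 := le_antisymm h4 h5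
      exact (mul_eq_zero.1 h6).resolve_right hw.2.ne'
    have hpar' : ∀ m ∈ M, dt v m = 0 := by
      intro m hm
      obtain ⟨m', hm', hm'', h⟩ := hhalf m hm
      have h1 := hpar m' hm' hm''
      rcases h with h | h
      · rwa [h] at h1
      · rw [h, dt_neg_right] at h1
        linarith
    have h1 := hpar' m₁ h₁
    have h2 := hpar' m₂ h₂
    have h3 := pl4 m₁ m₂ x₀ v
    have h4 : dt m₁ v = 0 := by rw [dt_swap, h1, neg_zero]
    have h5 : dt m₂ v = 0 := by rw [dt_swap, h2, neg_zero]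
    rw [h4, h5, zero_mul, zero_mul, sub_zero] at h3
    exact h₁₂ ((mul_eq_zero.1 h3).resolve_right hv.2.ne')
  · intro m hm
    obtain ⟨m', hm', hm'', h⟩ := hhalf m hm
    have h1 := mul_nonpos_of_nonneg_of_nonpos (hvm m' hm' hm'') (hwm m' hm' hm'')
    rcases h with h | h
    · rwa [h] at h1
    · rw [h, dt_neg_right, dt_neg_right, neg_mul_neg] at h1
      exact h1

variable {U : Set V2}

theorem Mv.fin (h : CU U) {Y : Qf} (hY : Ad U Y) : (Mv U Y).Finite :=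
  (h.fin_ev hY.1 1).subset fun _ hu => ⟨hu.1, hu.2.le⟩

theorem Mv.neg (h : CU U) {Y : Qf} {m : V2} (hm : m ∈ Mv U Y) : -m ∈ Mv U Y :=
  ⟨h.neg m hm.1, by rw [ev_neg_arg, hm.2]⟩

/-- VORONOI'S ALGORITHM: one step -/
theorem CU.step (h : CU U) (Y₁ Z : Vx U) {u₁ u₂ u₃ : V2} (k₁ : u₁ ∈ Mv U Y₁.1) (k₂ : u₂ ∈ Mv U Y₁.1)
    (k₃ : u₃ ∈ Mv U Y₁.1) (d₁₂ : dt u₁ u₂ ≠ 0) (d₂₃ : dt u₂ u₃ ≠ 0) (d₁₃ : dt u₁ u₃ ≠ 0)
    (hne : Z ≠ Y₁) :
    ∃ Z' : Vx U, (Tr U).Adj Z Z' ∧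
      ev Z'.1 u₁ + ev Z'.1 u₂ + ev Z'.1 u₃ < ev Z.1 u₁ + ev Z.1 u₂ + ev Z.1 u₃ := by
  have hne' : Z.1 ≠ Y₁.1 := fun h0 => hne (Subtype.ext h0)
  obtain ⟨Y₁, hY₁⟩ := Y₁
  obtain ⟨Z, hZ⟩ := Z
  have hA₁ : Ad U Y₁ := hY₁.1
  have hA : Ad U Z := hZ.1
  obtain ⟨z₁, hz₁, z₂, hz₂, z₃, hz₃, hz₁₂, -, -⟩ := hZ.2
  change u₁ ∈ Mv U Y₁ at k₁
  change u₂ ∈ Mv U Y₁ at k₂
  change u₃ ∈ Mv U Y₁ at k₃
  change Z ≠ Y₁ at hne'
  -- the direction
  set X : Qf := Y₁ - Z with hX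
  have hXM : ∀ m ∈ Mv U Z, 0 ≤ ev X m := by
    intro m hm
    rw [hX, ev_sub, hm.2]
    linarith [hA₁.2 m hm.1]
  have hXj : ∀ u ∈ Mv U Y₁, ev X u ≤ 0 := by
    intro u hu
    rw [hX, ev_sub, hu.2]
    linarith [hA.2 u hu.1]
  obtain ⟨x₀, hx₀, hx₀X⟩ : ∃ x₀ ∈ Mv U Y₁, ev X x₀ < 0 := by
    by_contra hcon
    push Not at hcon
    apply hne'
    have e : ∀ u ∈ Mv U Y₁, ev Z u = ev Y₁ u := by
      intro u hu
      have := le_antisymm (hXj u hu) (hcon u hu)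
      rw [hX, ev_sub] at this
      linarith
    exact qf_ext3 d₁₂ d₂₃ d₁₃ (e _ k₁) (e _ k₂) (e _ k₃)
  have hXL : ev X u₁ + ev X u₂ + ev X u₃ < 0 := by
    by_contra hcon
    have e1 := hXj _ k₁
    have e2 := hXj _ k₂
    have e3 := hXj _ k₃
    have f1 : ev X u₁ = 0 := by linarith
    have f2 : ev X u₂ = 0 := by linarith
    have f3 : ev X u₃ = 0 := by linarith
    have : ev X x₀ * (dt u₁ u₂ * dt u₂ u₃ * dt u₁ u₃) = 0 := by
      rw [ev_three, f1, f2, f3]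
      ring
    rcases mul_eq_zero.1 this with g | g
    · exact hx₀X.ne g
    · exact (mul_ne_zero (mul_ne_zero d₁₂ d₂₃) d₁₃) g
  have hx₀0 : x₀ ≠ 0 := h.nz x₀ hx₀.1
  have hdt : ∀ m ∈ Mv U Z, dt x₀ m ≠ 0 := by
    intro m hm h0
    rcases h.par x₀ hx₀.1 m hm.1 h0 with h1 | h1
    · have := hXM m hm
      rw [h1] at this
      linarith
    · have := hXM m hm
      rw [h1, ev_neg_arg] at this
      linarith
  obtain ⟨v, hv, w, hw, hvw, hxv, hxw, hM⟩ := exists_adj (Mv.fin h hA) hx₀0 hdt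
    (fun m hm => Mv.neg h hm) hz₁ hz₂ hz₁₂
  set q : Qf := -qd v w with hq
  have hqe : ∀ x, ev q x = -(dt v x * dt w x) := fun x => by rw [hq, ev_negY, ev_qd]
  have hqM : ∀ m ∈ Mv U Z, 0 ≤ ev q m := fun m hm => by rw [hqe]; linarith [hM m hm]
  have hqx : ev q x₀ < 0 := by
    rw [hqe]
    have e1 : dt v x₀ * dt w x₀ = dt x₀ v * dt x₀ w := by
      rw [dt_swap v x₀, dt_swap w x₀]
      ring
    rw [e1]
    linarith [mul_pos hxv hxw]
  have hqv : ev q v = 0 := by rw [hqe, dt_self]; ring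
  have hqw : ev q w = 0 := by rw [hqe, dt_self]; ring
  -- the sum decreases along `q`
  have hqL : ev q u₁ + ev q u₂ + ev q u₃ < 0 := by
    have hk : 0 < (dt v w) ^ 2 := sq_pos_of_ne_zero hvw
    have hbas : ∀ x, ev X x * (dt v w) ^ 2 = ev X v * (dt x w) ^ 2 + ev X w * (dt v x) ^ 2 +
        (ev X (v + w) - ev X v - ev X w) * ev q x := by
      intro x
      rw [ev_bas X v w x, hqe, dt_swap x w]
      ring
    set B := ev X (v + w) - ev X v - ev X w with hB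
    have hXv := hXM v hv
    have hXw := hXM w hw
    have hBpos : 0 < B := by
      by_contra hcon
      push Not at hcon
      have h1 := hbas x₀
      have h2 : ev X x₀ * (dt v w) ^ 2 < 0 := mul_neg_of_neg_of_pos hx₀X hk
      have h3 : 0 ≤ ev X v * (dt x₀ w) ^ 2 := mul_nonneg hXv (sq_nonneg _)
      have h4 : 0 ≤ ev X w * (dt v x₀) ^ 2 := mul_nonneg hXw (sq_nonneg _)
      have h5 : 0 ≤ B * ev q x₀ := mul_nonneg_of_nonpos_of_nonpos hcon hqx.le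
      linarith
    by_contra hcon
    push Not at hcon
    have h1 := hbas u₁
    have h2 := hbas u₂
    have h3 := hbas u₃
    have h4 : (ev X u₁ + ev X u₂ + ev X u₃) * (dt v w) ^ 2 < 0 := mul_neg_of_neg_of_pos hXL hk
    have h5 : ∀ x, 0 ≤ ev X v * (dt x w) ^ 2 := fun x => mul_nonneg hXv (sq_nonneg _)
    have h6 : ∀ x, 0 ≤ ev X w * (dt v x) ^ 2 := fun x => mul_nonneg hXw (sq_nonneg _)
    have h7 : 0 ≤ B * (ev q u₁ + ev q u₂ + ev q u₃) := mul_nonneg hBpos.le hcon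
    linarith [h5 u₁, h5 u₂, h5 u₃, h6 u₁, h6 u₂, h6 u₃]
  obtain ⟨t, ht0, hA', u, hu, hqu, hvu⟩ := h.shoot hA hqx
  have ht : 0 < t := by
    rcases ht0.eq_or_lt with h0 | h0
    · exfalso
      rw [← h0, zero_smul, add_zero] at hvu
      exact absurd (hqM u ⟨hu, hvu⟩) (not_le.2 hqu)
    · exact h0
  have hqu' := hqu
  rw [hqe] at hqu'
  have hduv : dt v u ≠ 0 := by
    intro h0
    rw [h0, zero_mul, neg_zero] at hqu'
    exact lt_irrefl _ hqu'
  have hduw : dt w u ≠ 0 := by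
    intro h0
    rw [h0, mul_zero, neg_zero] at hqu'
    exact lt_irrefl _ hqu'
  have hv' : v ∈ Mv U (Z + t • q) := ⟨hv.1, by rw [ev_add, ev_smul, hqv, hv.2]; ring⟩
  have hw' : w ∈ Mv U (Z + t • q) := ⟨hw.1, by rw [ev_add, ev_smul, hqw, hw.2]; ring⟩
  refine ⟨⟨Z + t • q, hA', v, hv', w, hw', u, ⟨hu, hvu⟩, hvw, hduw, hduv⟩,
    ⟨?_, v, hv, w, hw, hv', hw', hvw⟩, ?_⟩
  · intro h0
    have h1 : Z = Z + t • q := congrArg Subtype.val h0
    have h2 : ev Z u = ev (Z + t • q) u := by rw [← h1]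
    rw [ev_add, ev_smul] at h2
    have : t * ev q u < 0 := mul_neg_of_pos_of_neg ht hqu
    linarith
  · change ev (Z + t • q) u₁ + ev (Z + t • q) u₂ + ev (Z + t • q) u₃ < _
    rw [ev_add, ev_smul, ev_add, ev_smul, ev_add, ev_smul]
    have := mul_neg_of_pos_of_neg ht hqL
    linarith

/-- a perfect form is determined by its minimal vectors -/
theorem Pf.inj {Y Z : Vx U} (h : Mv U Y.1 = Mv U Z.1) : Y = Z := by
  obtain ⟨Y, hY, u, hu, v, hv, w, hw, huv, hvw, huw⟩ := Y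
  obtain ⟨Z, hZ⟩ := Z
  apply Subtype.ext
  simp only at *
  have e : ∀ x ∈ Mv U Y, ev Y x = ev Z x := by
    intro x hx
    rw [hx.2]
    rw [h] at hx
    exact hx.2.symm
  exact qf_ext3 huv hvw huw (e _ hu) (e _ hv) (e _ hw)

/-- bounded perfect forms: finitely many -/
theorem CU.fin_pf (h : CU U) (K : ℝ) : {Z : Vx U | Z.1 0 + Z.1 2 ≤ K}.Finite := by
  obtain ⟨c, hc, hdeg⟩ := h.deg
  have hW := h.fin (K / c)
  set W := {v | v ∈ U ∧ nm v ≤ K / c} with hWdef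
  have hsub : ∀ Z : Vx U, Z.1 0 + Z.1 2 ≤ K → Mv U Z.1 ⊆ W := by
    intro Z hZ m hm
    refine ⟨hm.1, ?_⟩
    have h1 : c ≤ ds Z.1 := by
      by_contra hcon
      push Not at hcon
      obtain ⟨u, hu, hu'⟩ := hdeg _ Z.2.1.1 hcon
      exact absurd (Z.2.1.2 u hu) (not_le.2 hu')
    have h2 := ds_nm_le Z.1 m
    rw [hm.2, mul_one] at h2
    rw [le_div_iff₀ hc, mul_comm]
    exact (mul_le_mul_of_nonneg_right h1 (nm_nonneg m)).trans (h2.trans hZ)
  refine Set.Finite.of_finite_image (f := fun Z : Vx U => Mv U Z.1)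
    ((hW.powerset).subset ?_) ?_
  · rintro _ ⟨Z, hZ, rfl⟩
    exact hsub Z hZ
  · intro Y _ Z _ hYZ
    exact Pf.inj hYZ

/-- a bound for the coefficients from two values -/
theorem bnd_two {v w : V2} (hvw : dt v w ≠ 0) (R : ℝ) : ∃ K : ℝ, ∀ Z : Qf, Ps Z → ev Z v ≤ R →
    ev Z w ≤ R → Z 0 + Z 2 ≤ K := by
  refine ⟨2 * R * (((dt ![1, 0] w) ^ 2 + (dt v ![1, 0]) ^ 2) / (dt v w) ^ 2 +
    ((dt ![0, 1] w) ^ 2 + (dt v ![0, 1]) ^ 2) / (dt v w) ^ 2), fun Z hZ hv hw => ?_⟩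
  have hk : 0 < (dt v w) ^ 2 := sq_pos_of_ne_zero hvw
  have key : ∀ x, ev Z x ≤ 2 * R * (((dt x w) ^ 2 + (dt v x) ^ 2) / (dt v w) ^ 2) := by
    intro x
    rw [← mul_div_assoc, le_div_iff₀ hk]
    -- parallelogram law
    have e : ev Z x * dt v w ^ 2 = 2 * (ev Z v * (dt x w) ^ 2 + ev Z w * (dt v x) ^ 2) -
        ev Z ((dt x w) • v - (dt v x) • w) := by
      unfold ev dt
      simp only [Pi.sub_apply, Pi.smul_apply, smul_eq_mul]
      ring
    rw [e]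
    have h1 : 0 ≤ ev Z ((dt x w) • v - (dt v x) • w) := by
      by_cases h0 : (dt x w) • v - (dt v x) • w = 0
      · rw [h0]
        unfold ev
        simp
      · exact (hZ.pos h0).le
    have h2 : ev Z v * (dt x w) ^ 2 ≤ R * (dt x w) ^ 2 := mul_le_mul_of_nonneg_right hv (sq_nonneg _)
    have h3 : ev Z w * (dt v x) ^ 2 ≤ R * (dt v x) ^ 2 := mul_le_mul_of_nonneg_right hw (sq_nonneg _)
    linarith
  have e0 : ev Z ![1, 0] = Z 0 := by unfold ev; simp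
  have e1 : ev Z ![0, 1] = Z 2 := by unfold ev; simp
  rw [mul_add, ← e0, ← e1]
  exact add_le_add (key _) (key _)

/-- THE GRAPH IS CONNECTED -/
theorem CU.connected (h : CU U) : (Tr U).Connected := by
  have hne := h.exists_pf
  rw [SimpleGraph.connected_iff]
  refine ⟨?_, hne⟩
  -- every vertex is connected with a fixed one
  have key : ∀ Y₁ Z : Vx U, (Tr U).Reachable Z Y₁ := by
    intro Y₁
    obtain ⟨u₁, k₁, u₂, k₂, u₃, k₃, d₁₂, d₂₃, d₁₃⟩ := Y₁.2.2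
    let L : Vx U → ℝ := fun Z => ev Z.1 u₁ + ev Z.1 u₂ + ev Z.1 u₃
    have hfin : ∀ R, {Z : Vx U | L Z < R}.Finite := by
      intro R
      obtain ⟨K, hK⟩ := bnd_two d₁₂ R
      refine (h.fin_pf K).subset fun Z hZ => ?_
      have h1 := Z.2.1.2 u₁ k₁.1
      have h2 := Z.2.1.2 u₂ k₂.1
      have h3 := Z.2.1.2 u₃ k₃.1
      have hZ' : ev Z.1 u₁ + ev Z.1 u₂ + ev Z.1 u₃ < R := hZ
      exact hK Z.1 Z.2.1.1 (by linarith) (by linarith)
    have main : ∀ (n : ℕ) (Z : Vx U), {W : Vx U | L W < L Z}.ncard = n → (Tr U).Reachable Z Y₁ := by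
      intro n
      induction n using Nat.strong_induction_on with
      | _ n ih =>
        intro Z hn
        by_cases hZ : Z = Y₁
        · rw [hZ]
        · obtain ⟨Z', hadj, hlt⟩ := h.step Y₁ Z k₁ k₂ k₃ d₁₂ d₂₃ d₁₃ hZ
          have hlt' : L Z' < L Z := hlt
          refine hadj.reachable.trans (ih _ ?_ Z' rfl)
          rw [← hn]
          refine Set.ncard_lt_ncard ⟨fun W hW => lt_trans hW hlt', fun hsub => ?_⟩ (hfin _)
          have h9 : Z' ∈ {W : Vx U | L W < L Z'} := hsub (show Z' ∈ {W : Vx U | L W < L Z} from hlt')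
          exact lt_irrefl (L Z') h9
    exact fun Z => main _ Z rfl
  exact fun Z Y => key Y Z

end Pool.Agent.ToF
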