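import Pool.Agent.Lib.MP_305fdd_al.To.N.Disc

/-!
# MP_305fdd_al, torsion room, block F: lattices of `SL_2(ℝ)` which are not cocompact

Definitions and interfaces (helper43).
-/

set_option autoImplicit false

namespace Pool.Agent.ToF

open Matrix Pool.Agent.ToN

/-- vectors of the plane -/
abbrev V2 := Fin 2 → ℝ

/-- quadratic forms `Y 0 * x₀² + 2 * Y 1 * x₀ x₁ + Y 2 * x₁²` -/
abbrev Qf := Fin 3 → ℝ

def Near (δ : ℝ) (A : SLR) : Prop := ∀ i j, |A.1 i j - (1 : Matrix (Fin 2) (Fin 2) ℝ) i j| < δ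

def Bd (C : ℝ) (A : SLR) : Prop := ∀ i j, |A.1 i j| ≤ C

/-- discrete -/
def Dsc (Γ : Subgroup SLR) : Prop := ∃ ε : ℝ, 0 < ε ∧ ∀ γ ∈ Γ, Near ε γ → γ = 1

/-- conclusion of the packing lemma F1 -/
def Pck (Γ : Subgroup SLR) : Prop := ∀ δ : ℝ, 0 < δ → ∃ C : ℝ, ∀ g : SLR,
  (∃ γ ∈ Γ, Bd C (γ * g)) ∨ ∃ γ ∈ Γ, γ ≠ 1 ∧ γ ≠ -1 ∧ Near δ (g⁻¹ * γ * g)

/-- the trace gap (conclusion of F2) -/
def Gap (Γ : Subgroup SLR) : Prop := ∃ τ : ℝ, 0 < τ ∧ ∀ γ ∈ Γ, |γ.1.trace| = 2 ∨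
  τ ≤ |(|γ.1.trace| - 2)|

/-- determinant of two vectors -/
def dt (u v : V2) : ℝ := u 0 * v 1 - u 1 * v 0

/-- the action on vectors -/
def ac (A : SLR) (v : V2) : V2 := A.1 *ᵥ v

/-- square of the length -/
def nm (v : V2) : ℝ := v 0 ^ 2 + v 1 ^ 2

/-- the transvection `x ↦ x + c det(v, x) v` -/
def tv (c : ℝ) (v : V2) : SLR := mkS (1 - c * (v 0 * v 1)) (c * (v 0 * v 0)) (-(c * (v 1 * v 1)))
  (1 + c * (v 0 * v 1)) (by ring)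

/-- the vectors `v` such that `tv 1 v` generates the transvections of `Γ` with direction `v` -/
def UU (Γ : Subgroup SLR) : Set V2 := {v | ∀ c : ℝ, tv c v ∈ Γ ↔ ∃ n : ℤ, c = n}

/-- value of a quadratic form -/
def ev (Y : Qf) (x : V2) : ℝ := Y 0 * x 0 ^ 2 + 2 * Y 1 * (x 0 * x 1) + Y 2 * x 1 ^ 2

/-- determinant of a quadratic form -/
def ds (Y : Qf) : ℝ := Y 0 * Y 2 - Y 1 ^ 2

/-- positive definite -/
def Ps (Y : Qf) : Prop := 0 < Y 0 ∧ 0 < ds Y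

/-- what F4 needs about the set of the parabolic vectors -/
structure CU (U : Set V2) : Prop where
  nz : ∀ v ∈ U, v ≠ 0
  neg : ∀ v ∈ U, -v ∈ U
  par : ∀ v ∈ U, ∀ w ∈ U, dt v w = 0 → w = v ∨ w = -v
  sep : ∀ v ∈ U, ∀ w ∈ U, dt v w ≠ 0 → 1 ≤ |dt v w|
  fin : ∀ R : ℝ, {v | v ∈ U ∧ nm v ≤ R}.Finite
  deg : ∃ c : ℝ, 0 < c ∧ ∀ Y : Qf, Ps Y → ds Y < c → ∃ u ∈ U, ev Y u < 1

/-- admissible forms -/
def Ad (U : Set V2) (Y : Qf) : Prop := Ps Y ∧ ∀ u ∈ U, 1 ≤ ev Y u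

/-- minimal vectors -/
def Mv (U : Set V2) (Y : Qf) : Set V2 := {u | u ∈ U ∧ ev Y u = 1}

/-- the vertices of the tree: perfect forms -/
def Pf (U : Set V2) (Y : Qf) : Prop := Ad U Y ∧ ∃ u ∈ Mv U Y, ∃ v ∈ Mv U Y, ∃ w ∈ Mv U Y,
  dt u v ≠ 0 ∧ dt v w ≠ 0 ∧ dt u w ≠ 0

abbrev Vx (U : Set V2) := {Y : Qf // Pf U Y}

/-- the tree -/
def Tr (U : Set V2) : SimpleGraph (Vx U) where
  Adj Y Y' := Y ≠ Y' ∧ ∃ v ∈ Mv U Y.1, ∃ w ∈ Mv U Y.1, v ∈ Mv U Y'.1 ∧ w ∈ Mv U Y'.1 ∧ dt v w ≠ 0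
  symm := ⟨by
    rintro Y Y' ⟨h, v, hv, w, hw, hv', hw', hvw⟩
    exact ⟨h.symm, v, hv', w, hw', hv, hw, hvw⟩⟩
  loopless := ⟨fun Y h => h.1 rfl⟩

/-- the form `x ↦ Y (A x)` -/
def pull (A : SLR) (Y : Qf) : Qf :=
  ![ev Y (ac A ![1, 0]),
    Y 0 * (A.1 0 0 * A.1 0 1) + Y 1 * (A.1 0 0 * A.1 1 1 + A.1 0 1 * A.1 1 0) +
      Y 2 * (A.1 1 0 * A.1 1 1),
    ev Y (ac A ![0, 1])]

/-! ### basic lemmas -/

theorem ac0 (A : SLR) (v : V2) : ac A v 0 = A.1 0 0 * v 0 + A.1 0 1 * v 1 := by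
  simp [ac, mulVec, dotProduct, Fin.sum_univ_two]

theorem ac1 (A : SLR) (v : V2) : ac A v 1 = A.1 1 0 * v 0 + A.1 1 1 * v 1 := by
  simp [ac, mulVec, dotProduct, Fin.sum_univ_two]

theorem ac_mul (A B : SLR) (v : V2) : ac (A * B) v = ac A (ac B v) := by
  unfold ac
  rw [mul1, mulVec_mulVec]

theorem ac_one (v : V2) : ac 1 v = v := by
  unfold ac
  rw [one1, one_mulVec]

theorem ac_inv_ac (A : SLR) (v : V2) : ac A⁻¹ (ac A v) = v := by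
  rw [← ac_mul, inv_mul_cancel, ac_one]

theorem ac_ac_inv (A : SLR) (v : V2) : ac A (ac A⁻¹ v) = v := by
  rw [← ac_mul, mul_inv_cancel, ac_one]

theorem v2_ext {u v : V2} (h0 : u 0 = v 0) (h1 : u 1 = v 1) : u = v := by
  funext i
  fin_cases i
  · exact h0
  · exact h1

theorem dt_ac (A : SLR) (u v : V2) : dt (ac A u) (ac A v) = dt u v := by
  unfold dt
  rw [ac0, ac1, ac0, ac1]
  linear_combination (u 0 * v 1 - u 1 * v 0) * slr_det A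

theorem tv_ac (c : ℝ) (v x : V2) : ac (tv c v) x = x + (c * dt v x) • v := by
  apply v2_ext
  · rw [ac0]
    simp only [tv, mkS00, mkS01, Pi.add_apply, Pi.smul_apply, smul_eq_mul, dt]
    ring
  · rw [ac1]
    simp only [tv, mkS10, mkS11, Pi.add_apply, Pi.smul_apply, smul_eq_mul, dt]
    ring

theorem tv_conj (A : SLR) (c : ℝ) (v : V2) : A * tv c v * A⁻¹ = tv c (ac A v) := by
  have hA := slr_det A
  rw [mul_inv_eq_iff_eq_mul]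
  apply slr_ext
  · rw [mul00, mul00]
    simp only [tv, mkS00, mkS01, mkS10, ac0, ac1]
    linear_combination (c * (A.1 0 0 * (v 0 * v 1) + A.1 0 1 * (v 1 * v 1))) * hA
  · rw [mul01, mul01]
    simp only [tv, mkS00, mkS01, mkS11, ac0, ac1]
    linear_combination (-(c * (A.1 0 0 * (v 0 * v 0) + A.1 0 1 * (v 0 * v 1)))) * hA
  · rw [mul10, mul10]
    simp only [tv, mkS00, mkS10, mkS11, ac0, ac1]
    linear_combination (c * (A.1 1 0 * (v 0 * v 1) + A.1 1 1 * (v 1 * v 1))) * hA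
  · rw [mul11, mul11]
    simp only [tv, mkS01, mkS10, mkS11, ac0, ac1]
    linear_combination (-(c * (A.1 1 0 * (v 0 * v 0) + A.1 1 1 * (v 0 * v 1)))) * hA

theorem ev_pull (A : SLR) (Y : Qf) (x : V2) : ev (pull A Y) x = ev Y (ac A x) := by
  unfold ev pull
  simp only [ac0, ac1, ev, Matrix.cons_val_zero, Matrix.cons_val_one, Matrix.cons_val]
  ring

theorem ev_add (Y Z : Qf) (x : V2) : ev (Y + Z) x = ev Y x + ev Z x := by
  unfold ev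
  simp only [Pi.add_apply]
  ring

theorem ev_smul (t : ℝ) (Y : Qf) (x : V2) : ev (t • Y) x = t * ev Y x := by
  unfold ev
  simp only [Pi.smul_apply, smul_eq_mul]
  ring

theorem ds_pull (A : SLR) (Y : Qf) : ds (pull A Y) = ds Y := by
  have hA := slr_det A
  unfold ds pull
  simp only [ac0, ac1, ev, Matrix.cons_val_zero, Matrix.cons_val_one, Matrix.cons_val]
  linear_combination (Y 0 * Y 2 - Y 1 ^ 2) * (A.1 0 0 * A.1 1 1 - A.1 0 1 * A.1 1 0 + 1) * hA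

end Pool.Agent.ToF
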