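import Pool.Agent.Lib.MP_305fdd_al.VF.I.Final

/-!
# Groups on trees with trivial edge stabilisers (MP_305fdd_al, torsion room, block F5)

`fp_of_tree`: no inversions, the vertex stabilisers are free products of cyclic groups.
-/

set_option autoImplicit false

namespace Pool.Agent.ToF

open Monoid Pool.Agent.FrT Pool.Agent.VF Pool.Agent.MP_305fdd_al Pool.Agent.Lib.MP_305fdd_al

theorem IsFP.equiv {G H : Type} [Group G] [Group H] (e : G ≃* H) (h : IsFP G) : IsFP H := by
  obtain ⟨n, m, ⟨f⟩⟩ := h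
  exact ⟨n, m, ⟨e.symm.trans f⟩⟩

/-- the data: a tree without inversions, trivial edge stabilisers, the vertex stabilisers are free
products of cyclic groups -/
structure TD (G : Type) [Group G] {V : Type} [MulAction G V] (X : SimpleGraph V) : Prop where
  tree : X.IsTree
  act : ∀ (g : G) (x y : V), X.Adj x y → X.Adj (g • x) (g • y)
  noinv : ∀ (g : G) (x y : V), X.Adj x y → ¬ (g • x = y ∧ g • y = x)
  edge : ∀ (g : G) (x y : V), X.Adj x y → g • x = x → g • y = y → g = 1
  vert : ∀ x : V, IsFP (MulAction.stabilizer G x)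

/-- `s` contains representatives of the edges -/
def Reps (G : Type) [Group G] {V : Type} [MulAction G V] (X : SimpleGraph V)
    (s : Finset (V × V)) : Prop :=
  ∀ x y, X.Adj x y → ∃ (g : G) (p : V × V), p ∈ s ∧
    ((g • p.1 = x ∧ g • p.2 = y) ∨ (g • p.1 = y ∧ g • p.2 = x))

section

variable {G V : Type} [Group G] [MulAction G V] {X : SimpleGraph V} {u v : V}

theorem fp_of_no_edge (h : TD G X) (hno : ∀ x y, ¬ X.Adj x y) : IsFP G := by
  obtain ⟨x⟩ := h.tree.connected.nonempty
  have hsub : ∀ y, y = x := by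
    intro y
    obtain ⟨p⟩ := h.tree.connected.preconnected y x
    cases p with
    | nil => rfl
    | cons hab _ => exact absurd hab (hno _ _)
  have htop : MulAction.stabilizer G x = ⊤ := by
    rw [eq_top_iff]
    intro g _
    exact hsub _
  have h1 := h.vert x
  rw [htop] at h1
  exact IsFP.equiv Subgroup.topEquiv h1

/-- the component of `w` -/
abbrev Cp (G : Type) {V : Type} [Group G] [MulAction G V] (X : SimpleGraph V) (u v w : V) : Type :=
  {x : V // Rch G X u v x w}

/-- the graph on the component -/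
def cg (G : Type) {V : Type} [Group G] [MulAction G V] (X : SimpleGraph V) (u v w : V) :
    SimpleGraph (Cp G X u v w) :=
  (X.deleteEdges (Orb G u v)).comap Subtype.val

theorem cg_adj {w : V} {x y : Cp G X u v w} :
    (cg G X u v w).Adj x y ↔ X.Adj x.1 y.1 ∧ s(x.1, y.1) ∉ Orb G u v := by
  rw [cg, SimpleGraph.comap_adj, SimpleGraph.deleteEdges_adj]

theorem cg_reach {w : V} {x y : V} (p : (X.deleteEdges (Orb G u v)).Walk x y)
    (hx : Rch G X u v x w) (hy : Rch G X u v y w) :
    (cg G X u v w).Reachable ⟨x, hx⟩ ⟨y, hy⟩ := by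
  induction p with
  | nil => exact SimpleGraph.Reachable.refl _
  | @cons a b c hab q ih =>
    have hb : Rch G X u v b w := by
      have h1 : Rch G X u v a b := SimpleGraph.Adj.reachable hab
      exact h1.symm.trans hx
    have h2 : (cg G X u v w).Adj ⟨a, hx⟩ ⟨b, hb⟩ := hab
    exact h2.reachable.trans (ih hb hy)

theorem cg_tree (hX : X.IsTree) (w : V) : (cg G X u v w).IsTree := by
  have hne : Nonempty (Cp G X u v w) := ⟨⟨w, Rch.refl X u v w⟩⟩
  refine ⟨SimpleGraph.Connected.mk ?_, ?_⟩
  · rintro ⟨x, hx⟩ ⟨y, hy⟩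
    obtain ⟨p⟩ : (X.deleteEdges (Orb G u v)).Reachable x y := hx.trans hy.symm
    exact cg_reach p hx hy
  · have h1 : (X.deleteEdges (Orb G u v)).IsAcyclic :=
      hX.2.anti (SimpleGraph.deleteEdges_le _)
    exact h1.comap ⟨Subtype.val, fun h => h⟩ Subtype.val_injective

variable (hact : ∀ (g : G) (x y : V), X.Adj x y → X.Adj (g • x) (g • y))

/-- the action of the stabiliser of the component -/
@[reducible] def cact (w : V) : MulAction (Sst (u := u) (v := v) hact w) (Cp G X u v w) where
  smul g x := ⟨g.1 • x.1, (Rch.smul hact g.1 x.2).trans ((mem_Sst hact).1 g.2)⟩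
  one_smul x := Subtype.ext (one_smul G x.1)
  mul_smul g h x := Subtype.ext (mul_smul g.1 h.1 x.1)

theorem mem_Orb_smul (g : G) {x y : V} (h : s(g • x, g • y) ∈ Orb G u v) : s(x, y) ∈ Orb G u v := by
  obtain ⟨k, hk⟩ := h
  refine ⟨g⁻¹ * k, ?_⟩
  rw [Sym2.eq_iff] at hk ⊢
  rcases hk with ⟨h1, h2⟩ | ⟨h1, h2⟩
  · left
    rw [mul_smul, mul_smul, eq_inv_smul_iff, eq_inv_smul_iff]
    exact ⟨h1, h2⟩
  · right
    rw [mul_smul, mul_smul, eq_inv_smul_iff, eq_inv_smul_iff]
    exact ⟨h1, h2⟩

theorem comp_TD (h : TD G X) (w : V) :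
    @TD (Sst (u := u) (v := v) h.act w) _ _ (cact h.act w) (cg G X u v w) := by
  letI := cact (u := u) (v := v) h.act w
  refine ⟨cg_tree h.tree w, ?_, ?_, ?_, ?_⟩
  · intro g x y hxy
    rw [cg_adj] at hxy ⊢
    exact ⟨h.act g.1 _ _ hxy.1, fun h' => hxy.2 (mem_Orb_smul g.1 h')⟩
  · rintro g x y hxy ⟨h1, h2⟩
    rw [cg_adj] at hxy
    exact h.noinv g.1 _ _ hxy.1 ⟨congrArg Subtype.val h1, congrArg Subtype.val h2⟩
  · intro g x y hxy h1 h2
    rw [cg_adj] at hxy
    exact Subtype.ext (h.edge g.1 _ _ hxy.1 (congrArg Subtype.val h1) (congrArg Subtype.val h2))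
  · intro x
    have hst : ∀ g : G, g • x.1 = x.1 → g ∈ Sst (u := u) (v := v) h.act w := by
      intro g hg
      rw [mem_Sst]
      have h1 : Rch G X u v (g • x.1) (g • w) := Rch.smul h.act g x.2
      rw [hg] at h1
      exact h1.symm.trans x.2
    let e : MulAction.stabilizer G x.1 ≃*
        @MulAction.stabilizer (Sst (u := u) (v := v) h.act w) (Cp G X u v w) _ (cact h.act w) x :=
      { toFun := fun g => ⟨⟨g.1, hst g.1 g.2⟩, Subtype.ext g.2⟩
        invFun := fun g => ⟨g.1.1, congrArg Subtype.val (MulAction.mem_stabilizer_iff.1 g.2)⟩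
        left_inv := fun _ => rfl
        right_inv := fun _ => rfl
        map_mul' := fun _ _ => rfl }
    exact IsFP.equiv e (h.vert x.1)

/-- representatives of the edges of a component -/
theorem comp_reps (h : TD G X) (huv : X.Adj u v) (w : V) (s : Finset (V × V)) (hs : Reps G X s) :
    ∃ s' : Finset (Cp G X u v w × Cp G X u v w), s'.card < s.card ∧
      @Reps (Sst (u := u) (v := v) h.act w) _ _ (cact h.act w) (cg G X u v w) s' := by
  classical
  let w' : Cp G X u v w := ⟨w, Rch.refl X u v w⟩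
  let c : V × V → Cp G X u v w × Cp G X u v w := fun p =>
    if hp : ∃ g : G, Rch G X u v (g • p.1) w ∧ Rch G X u v (g • p.2) w then
      (⟨hp.choose • p.1, hp.choose_spec.1⟩, ⟨hp.choose • p.2, hp.choose_spec.2⟩) else (w', w')
  have hc : ∀ p : V × V, (∃ g : G, Rch G X u v (g • p.1) w ∧ Rch G X u v (g • p.2) w) →
      ∃ g : G, (c p).1.1 = g • p.1 ∧ (c p).2.1 = g • p.2 := by
    intro p hp
    refine ⟨hp.choose, ?_, ?_⟩
    · show (dite _ _ _ : Cp G X u v w × Cp G X u v w).1.1 = _
      rw [dif_pos hp]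
    · show (dite _ _ _ : Cp G X u v w × Cp G X u v w).2.1 = _
      rw [dif_pos hp]
  obtain ⟨g0, p0, hp0, hg0⟩ := hs u v huv
  have hp0' : s(p0.1, p0.2) ∈ Orb G u v := by
    apply mem_Orb_smul g0
    refine ⟨1, ?_⟩
    rw [one_smul, one_smul]
    rcases hg0 with ⟨h1, h2⟩ | ⟨h1, h2⟩
    · rw [h1, h2]
    · rw [h1, h2]
      exact Sym2.eq_swap
  refine ⟨(s.filter fun p => s(p.1, p.2) ∉ Orb G u v).image c, ?_, ?_⟩
  · refine lt_of_le_of_lt Finset.card_image_le ?_
    apply Finset.card_lt_card
    refine ⟨Finset.filter_subset _ _, fun hsub => ?_⟩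
    exact (Finset.mem_filter.1 (hsub hp0)).2 hp0'
  · letI := cact (u := u) (v := v) h.act w
    intro x y hxy
    rw [cg_adj] at hxy
    obtain ⟨g, p, hp, hg⟩ := hs x.1 y.1 hxy.1
    have hpO : s(p.1, p.2) ∉ Orb G u v := by
      intro hpO
      apply hxy.2
      obtain ⟨k, hk⟩ := hpO
      refine ⟨g * k, ?_⟩
      have hk' : s(g • p.1, g • p.2) = s((g * k) • u, (g * k) • v) := by
        have h1 := congrArg (Sym2.map (g • ·)) hk
        rw [Sym2.map_mk, Sym2.map_mk] at h1
        rw [mul_smul, mul_smul]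
        exact h1
      rw [← hk']
      rcases hg with ⟨h1, h2⟩ | ⟨h1, h2⟩
      · rw [h1, h2]
      · rw [h1, h2]
        exact Sym2.eq_swap
    have hex : ∃ g : G, Rch G X u v (g • p.1) w ∧ Rch G X u v (g • p.2) w := by
      refine ⟨g, ?_⟩
      rcases hg with ⟨h1, h2⟩ | ⟨h1, h2⟩
      · rw [h1, h2]
        exact ⟨x.2, y.2⟩
      · rw [h1, h2]
        exact ⟨y.2, x.2⟩
    obtain ⟨k, hk1, hk2⟩ := hc p hex
    have e1 : ∀ q : V, (g * k⁻¹) • k • q = g • q := fun q => by rw [mul_smul, inv_smul_smul]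
    have hmem : g * k⁻¹ ∈ Sst (u := u) (v := v) h.act w := by
      rw [mem_Sst]
      have h1 : Rch G X u v ((g * k⁻¹) • (c p).1.1) ((g * k⁻¹) • w) := Rch.smul h.act _ (c p).1.2
      rw [hk1, e1] at h1
      refine h1.symm.trans ?_
      rcases hg with ⟨h1, h2⟩ | ⟨h1, h2⟩
      · rw [h1]
        exact x.2
      · rw [h1]
        exact y.2
    refine ⟨⟨g * k⁻¹, hmem⟩, c p, Finset.mem_image_of_mem c (Finset.mem_filter.2 ⟨hp, hpO⟩), ?_⟩
    rcases hg with ⟨h1, h2⟩ | ⟨h1, h2⟩
    · left
      constructor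
      · apply Subtype.ext
        show (g * k⁻¹) • (c p).1.1 = x.1
        rw [hk1, e1, h1]
      · apply Subtype.ext
        show (g * k⁻¹) • (c p).2.1 = y.1
        rw [hk2, e1, h2]
    · right
      constructor
      · apply Subtype.ext
        show (g * k⁻¹) • (c p).1.1 = y.1
        rw [hk1, e1, h1]
      · apply Subtype.ext
        show (g * k⁻¹) • (c p).2.1 = x.1
        rw [hk2, e1, h2]

end

/-- **a group which acts on a tree without inversions, with trivial edge stabilisers and finitely many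
orbits of edges, whose vertex stabilisers are free products of finitely many cyclic groups, is such a
free product** -/
theorem fp_of_tree : ∀ (k : ℕ) (G V : Type) [Group G] [MulAction G V] (X : SimpleGraph V)
    (s : Finset (V × V)), s.card ≤ k → TD G X → Reps G X s → IsFP G := by
  intro k
  induction k with
  | zero =>
    intro G V _ _ X s hk h hs
    have hs0 : s = ∅ := Finset.card_eq_zero.1 (Nat.le_zero.1 hk)
    have hno : ∀ x y, ¬ X.Adj x y := by
      intro x y hxy
      obtain ⟨g, p, hp, -⟩ := hs x y hxy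
      rw [hs0] at hp
      exact absurd hp (Finset.notMem_empty _)
    exact fp_of_no_edge h hno
  | succ k ih =>
    intro G V _ _ X s hk h hs
    by_cases hno : ∀ x y, ¬ X.Adj x y
    · exact fp_of_no_edge h hno
    push Not at hno
    obtain ⟨u, v, huv⟩ := hno
    have hbot : SC G u v = ⊥ := by
      rw [eq_bot_iff]
      intro g hg
      rw [Subgroup.mem_bot]
      exact h.edge g u v huv hg.1 hg.2
    have hside : ∀ w, IsFP (Sst (u := u) (v := v) h.act w) := by
      intro w
      obtain ⟨s', hs', hr⟩ := comp_reps (u := u) (v := v) h huv w s hs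
      exact @ih _ _ _ (cact h.act w) _ s' (by omega) (comp_TD h w) hr
    have hinv := fun g : G => h.noinv g u v huv
    rcases amalg_or_hnn (u := u) (v := v) h.act with hnr | ⟨t, ht⟩
    · have hAm := p_up.1 G V X u v h.act h.tree huv hinv hnr
      refine p_am p_cl G _ _ _ hAm (hside u) ?_
      have : (SC G u v).subgroupOf (Sst (u := u) (v := v) h.act v) = ⊥ := by
        rw [hbot]
        exact Subgroup.bot_subgroupOf _
      rw [this]
      exact (p_FF p_TC p_CF).2 _ (hside v)
    · have hH := p_up.2 G V X u v h.act h.tree huv hinv t ht ⊥ (by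
        intro c
        rw [hbot, Subgroup.mem_bot, Subgroup.mem_bot, conj_eq_one_iff]
        constructor
        · rintro rfl
          exact ⟨Subgroup.one_mem _, rfl⟩
        · exact fun h => h.2)
      exact hn_bot p_cl (p_FF p_TC p_CF) (p_hn p_cl) hH (hside u) rfl

end Pool.Agent.ToF
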