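import Mathlib

/-!
# MP_305fdd_al, torsion room, block F2: the gap of the traces

`gap`: let `Γ` be a discrete subgroup of `SL(2, ℝ)` for which the conclusion of the packing argument
holds.  Then the numbers `tr(γ) ^ 2 - 4`, `γ ∈ Γ`, different from `0` are bounded away from `0`.
-/

set_option autoImplicit false

namespace Pool.Agent.ToF.GapX

open Matrix

/-- discrete subgroups -/
def Disc (Γ : Subgroup (SpecialLinearGroup (Fin 2) ℝ)) : Prop :=
  ∃ ε : ℝ, 0 < ε ∧ ∀ γ ∈ Γ,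
    (∀ i j, ‖(γ : Matrix (Fin 2) (Fin 2) ℝ) i j - (1 : Matrix (Fin 2) (Fin 2) ℝ) i j‖ < ε) → γ = 1

/-- the conclusion of the packing argument -/
def Pak (Γ : Subgroup (SpecialLinearGroup (Fin 2) ℝ)) : Prop :=
  ∀ δ : ℝ, 0 < δ → ∃ C : ℝ, ∀ g : SpecialLinearGroup (Fin 2) ℝ,
    (∃ γ ∈ Γ, ∀ i j, |(γ * g).1 i j| ≤ C) ∨
    (∃ γ ∈ Γ, γ ≠ 1 ∧ γ ≠ -1 ∧ ∀ i j, |(g⁻¹ * γ * g).1 i j - (1 : Matrix (Fin 2) (Fin 2) ℝ) i j| < δ)

/-! ### Bounds for the entries -/

/-- bound for the entries -/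
def Bd (M : Matrix (Fin 2) (Fin 2) ℝ) (b : ℝ) : Prop := ∀ i j, |M i j| ≤ b

theorem Bd.nonneg {M : Matrix (Fin 2) (Fin 2) ℝ} {b : ℝ} (h : Bd M b) : 0 ≤ b :=
  (abs_nonneg _).trans (h 0 0)

theorem Bd.mono {M : Matrix (Fin 2) (Fin 2) ℝ} {b c : ℝ} (h : Bd M b) (hbc : b ≤ c) : Bd M c :=
  fun i j => (h i j).trans hbc

theorem Bd.mul {M N : Matrix (Fin 2) (Fin 2) ℝ} {b c : ℝ} (h : Bd M b) (h' : Bd N c) :
    Bd (M * N) (2 * (b * c)) := by
  intro i j
  rw [Matrix.mul_apply, Fin.sum_univ_two]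
  refine (abs_add_le _ _).trans ?_
  rw [abs_mul, abs_mul]
  have h1 := mul_le_mul (h i 0) (h' 0 j) (abs_nonneg _) h.nonneg
  have h2 := mul_le_mul (h i 1) (h' 1 j) (abs_nonneg _) h.nonneg
  linarith

theorem Bd.sub {M N : Matrix (Fin 2) (Fin 2) ℝ} {b c : ℝ} (h : Bd M b) (h' : Bd N c) :
    Bd (M - N) (b + c) := by
  intro i j
  rw [Matrix.sub_apply]
  exact (abs_sub _ _).trans (add_le_add (h i j) (h' i j))

theorem Bd.add {M N : Matrix (Fin 2) (Fin 2) ℝ} {b c : ℝ} (h : Bd M b) (h' : Bd N c) :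
    Bd (M + N) (b + c) := by
  intro i j
  rw [Matrix.add_apply]
  exact (abs_add_le _ _).trans (add_le_add (h i j) (h' i j))

theorem bd_one : Bd (1 : Matrix (Fin 2) (Fin 2) ℝ) 1 := by
  intro i j
  rw [Matrix.one_apply]
  split_ifs <;> norm_num

theorem inv_00 (g : SpecialLinearGroup (Fin 2) ℝ) : (g⁻¹).1 0 0 = g.1 1 1 := by
  have h3 : (g⁻¹).1 = g.1.adjugate := rfl
  rw [h3, Matrix.adjugate_fin_two]
  rfl

theorem inv_01 (g : SpecialLinearGroup (Fin 2) ℝ) : (g⁻¹).1 0 1 = -g.1 0 1 := by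
  have h3 : (g⁻¹).1 = g.1.adjugate := rfl
  rw [h3, Matrix.adjugate_fin_two]
  rfl

theorem inv_10 (g : SpecialLinearGroup (Fin 2) ℝ) : (g⁻¹).1 1 0 = -g.1 1 0 := by
  have h3 : (g⁻¹).1 = g.1.adjugate := rfl
  rw [h3, Matrix.adjugate_fin_two]
  rfl

theorem inv_11 (g : SpecialLinearGroup (Fin 2) ℝ) : (g⁻¹).1 1 1 = g.1 0 0 := by
  have h3 : (g⁻¹).1 = g.1.adjugate := rfl
  rw [h3, Matrix.adjugate_fin_two]
  rfl

theorem bd_inv {g : SpecialLinearGroup (Fin 2) ℝ} {b : ℝ} (h : Bd g.1 b) : Bd (g⁻¹).1 b := by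
  intro i j
  fin_cases i <;> fin_cases j
  · change |(g⁻¹).1 0 0| ≤ b
    rw [inv_00]
    exact h 1 1
  · change |(g⁻¹).1 0 1| ≤ b
    rw [inv_01, abs_neg]
    exact h 0 1
  · change |(g⁻¹).1 1 0| ≤ b
    rw [inv_10, abs_neg]
    exact h 1 0
  · change |(g⁻¹).1 1 1| ≤ b
    rw [inv_11]
    exact h 0 0

theorem bd_inv_one {g : SpecialLinearGroup (Fin 2) ℝ} {b : ℝ} (h : Bd (g.1 - 1) b) :
    Bd ((g⁻¹).1 - 1) b := by
  intro i j
  have e00 := h 0 0
  have e01 := h 0 1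
  have e10 := h 1 0
  have e11 := h 1 1
  rw [Matrix.sub_apply] at e00 e01 e10 e11 ⊢
  rw [Matrix.one_apply_eq] at e00 e11
  rw [Matrix.one_apply_ne (show (0 : Fin 2) ≠ 1 by decide), sub_zero] at e01
  rw [Matrix.one_apply_ne (show (1 : Fin 2) ≠ 0 by decide), sub_zero] at e10
  fin_cases i <;> fin_cases j
  · change |(g⁻¹).1 0 0 - (1 : Matrix (Fin 2) (Fin 2) ℝ) 0 0| ≤ b
    rw [inv_00, Matrix.one_apply_eq]
    exact e11
  · change |(g⁻¹).1 0 1 - (1 : Matrix (Fin 2) (Fin 2) ℝ) 0 1| ≤ b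
    rw [inv_01, Matrix.one_apply_ne (show (0 : Fin 2) ≠ 1 by decide), sub_zero, abs_neg]
    exact e01
  · change |(g⁻¹).1 1 0 - (1 : Matrix (Fin 2) (Fin 2) ℝ) 1 0| ≤ b
    rw [inv_10, Matrix.one_apply_ne (show (1 : Fin 2) ≠ 0 by decide), sub_zero, abs_neg]
    exact e10
  · change |(g⁻¹).1 1 1 - (1 : Matrix (Fin 2) (Fin 2) ℝ) 1 1| ≤ b
    rw [inv_11, Matrix.one_apply_eq]
    exact e00

/-- the contraction of the commutator -/
theorem bd_comm {A B : SpecialLinearGroup (Fin 2) ℝ} {b : ℝ} (hA : Bd (A.1 - 1) (1 / 64))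
    (hB : Bd (B.1 - 1) b) (hb : b ≤ 1 / 2) : Bd ((A * B * A⁻¹ * B⁻¹).1 - 1) (b / 2) := by
  have hb0 := hB.nonneg
  have h1 : (A * B * A⁻¹ * B⁻¹).1 - 1 =
      ((A.1 - 1) * (B.1 - 1) - (B.1 - 1) * (A.1 - 1)) * ((A⁻¹).1 * (B⁻¹).1) := by
    have e1 : (A.1 - 1) * (B.1 - 1) - (B.1 - 1) * (A.1 - 1) = A.1 * B.1 - B.1 * A.1 := by
      noncomm_ring
    have e2 : B.1 * A.1 * ((A⁻¹).1 * (B⁻¹).1) = 1 := by
      have e3 : B * A * (A⁻¹ * B⁻¹) = 1 := by group
      exact congrArg Subtype.val e3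
    rw [e1, sub_mul, e2]
    change A.1 * B.1 * (A⁻¹).1 * (B⁻¹).1 - 1 = _
    rw [mul_assoc (A.1 * B.1)]
  rw [h1]
  have hA' : Bd (A⁻¹).1 (65 / 64) := by
    have h2 := (bd_inv_one hA).add bd_one
    rw [sub_add_cancel] at h2
    exact h2.mono (by norm_num)
  have hB' : Bd (B⁻¹).1 (3 / 2) := by
    have h2 := (bd_inv_one hB).add bd_one
    rw [sub_add_cancel] at h2
    exact h2.mono (by linarith)
  refine (((hA.mul hB).sub (hB.mul hA)).mul (hA'.mul hB')).mono ?_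
  nlinarith

/-! ### The form of commuting elements -/

theorem comm_form {M N : Matrix (Fin 2) (Fin 2) ℝ} (hM : ∀ x : ℝ, M ≠ x • 1)
    (h : N * M = M * N) : ∃ x y : ℝ, N = x • 1 + y • M := by
  have e : ∀ i j, (N * M) i j = (M * N) i j := fun i j => by rw [h]
  have e00 := e 0 0
  have e01 := e 0 1
  have e10 := e 1 0
  simp only [Matrix.mul_apply, Fin.sum_univ_two] at e00 e01 e10
  have key : ∀ x y : ℝ, N 0 0 = x + y * M 0 0 → N 0 1 = y * M 0 1 → N 1 0 = y * M 1 0 →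
      N 1 1 = x + y * M 1 1 → ∃ x y : ℝ, N = x • 1 + y • M := by
    intro x y h00 h01 h10 h11
    refine ⟨x, y, ?_⟩
    ext i j
    fin_cases i <;> fin_cases j
    · simpa using h00
    · simpa using h01
    · simpa using h10
    · simpa using h11
  by_cases hb : M 0 1 = 0
  · by_cases hc : M 1 0 = 0
    · have hne : M 0 0 - M 1 1 ≠ 0 := by
        intro h0
        apply hM (M 0 0)
        ext i j
        fin_cases i <;> fin_cases j
        · simp
        · simpa using hb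
        · simpa using hc
        · simp
          linarith
      have h1 : N 0 1 = 0 := by
        rw [hb] at e01
        have h2 : N 0 1 * (M 0 0 - M 1 1) = 0 := by linear_combination -e01
        exact (mul_eq_zero.1 h2).resolve_right hne
      have h2 : N 1 0 = 0 := by
        rw [hc] at e10
        have h2 : N 1 0 * (M 0 0 - M 1 1) = 0 := by linear_combination e10
        exact (mul_eq_zero.1 h2).resolve_right hne
      refine key (N 0 0 - (N 0 0 - N 1 1) / (M 0 0 - M 1 1) * M 0 0)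
        ((N 0 0 - N 1 1) / (M 0 0 - M 1 1)) (by ring) (by rw [h1, hb, mul_zero])
        (by rw [h2, hc, mul_zero]) ?_
      field_simp
      ring
    · refine key (N 0 0 - N 1 0 / M 1 0 * M 0 0) (N 1 0 / M 1 0) (by ring) ?_
        (by field_simp) ?_
      · field_simp
        linear_combination e00
      · field_simp
        linear_combination e10
  · refine key (N 0 0 - N 0 1 / M 0 1 * M 0 0) (N 0 1 / M 0 1) (by ring) (by field_simp) ?_ ?_
    · field_simp
      linear_combination -e00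
    · field_simp
      linear_combination -e01

/-- `tr ^ 2 - 4` -/
def dis (γ : SpecialLinearGroup (Fin 2) ℝ) : ℝ := γ.1.trace ^ 2 - 4

theorem not_scalar {γ : SpecialLinearGroup (Fin 2) ℝ} (h : dis γ ≠ 0) (x : ℝ) :
    γ.1 ≠ x • (1 : Matrix (Fin 2) (Fin 2) ℝ) := by
  intro h0
  apply h
  have hd := γ.2
  rw [h0, Matrix.det_fin_two] at hd
  simp at hd
  rw [dis, h0, Matrix.trace_fin_two]
  simp
  linear_combination 4 * hd

theorem dis_form {γ η : SpecialLinearGroup (Fin 2) ℝ} {x y : ℝ}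
    (h : η.1 = x • (1 : Matrix (Fin 2) (Fin 2) ℝ) + y • γ.1) : dis η = y ^ 2 * dis γ := by
  have h1 := γ.2
  have h2 := η.2
  have e00 : η.1 0 0 = x + y * γ.1 0 0 := by rw [h]; simp
  have e01 : η.1 0 1 = y * γ.1 0 1 := by rw [h]; simp
  have e10 : η.1 1 0 = y * γ.1 1 0 := by rw [h]; simp
  have e11 : η.1 1 1 = x + y * γ.1 1 1 := by rw [h]; simp
  rw [Matrix.det_fin_two] at h1 h2
  rw [e00, e01, e10, e11] at h2
  rw [dis, dis, Matrix.trace_fin_two, Matrix.trace_fin_two, e00, e11]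
  linear_combination 4 * h2 - 4 * y ^ 2 * h1

theorem dis_ne {γ η : SpecialLinearGroup (Fin 2) ℝ} {x y : ℝ} (h1 : η ≠ 1) (h2 : η ≠ -1)
    (h : η.1 = x • (1 : Matrix (Fin 2) (Fin 2) ℝ) + y • γ.1) : y ≠ 0 := by
  rintro rfl
  rw [zero_smul, add_zero] at h
  have hd := η.2
  rw [h, Matrix.det_fin_two] at hd
  simp at hd
  have h3 : (x - 1) * (x + 1) = 0 := by linear_combination hd
  rcases mul_eq_zero.1 h3 with h4 | h4
  · apply h1
    apply Subtype.ext
    rw [h, sub_eq_zero.1 h4, one_smul]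
    rfl
  · apply h2
    apply Subtype.ext
    rw [h, eq_neg_of_add_eq_zero_left h4, neg_smul, one_smul]
    rfl

/-- commuting with the commutator -/
theorem comm_of_comm {γ η : SpecialLinearGroup (Fin 2) ℝ} (hγ : dis γ ≠ 0)
    (hη : η.1.trace ≠ 0) (h : Commute γ (γ * η * γ⁻¹ * η⁻¹)) : Commute γ η := by
  set ζ := η * γ⁻¹ * η⁻¹ with hζ
  have h1 : γ * η * γ⁻¹ * η⁻¹ = γ * ζ := by rw [hζ]; group
  rw [h1] at h
  have h2 : Commute γ ζ := by
    have h3 : γ * (γ * ζ) = γ * ζ * γ := h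
    have h4 : γ * (γ * ζ) = γ * (ζ * γ) := by rw [h3, mul_assoc]
    exact mul_left_cancel h4
  obtain ⟨x, y, hxy⟩ := comm_form (not_scalar hγ) (congrArg Subtype.val h2.eq.symm)
  have htr : ζ.1.trace = γ.1.trace := by
    have h3 : ζ.1 = η.1 * (γ⁻¹).1 * (η⁻¹).1 := rfl
    have h4 : (η⁻¹).1 * η.1 = 1 := congrArg Subtype.val (inv_mul_cancel η)
    rw [h3, Matrix.trace_mul_comm, ← mul_assoc, h4, one_mul, Matrix.trace_fin_two, inv_00, inv_11,
      Matrix.trace_fin_two, add_comm]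
  have h3 := dis_form hxy
  have h4 : dis ζ = dis γ := by rw [dis, dis, htr]
  rw [h4] at h3
  have h5 : (y - 1) * (y + 1) = 0 := by
    have h6 : dis γ * ((y - 1) * (y + 1)) = 0 := by linear_combination -h3
    exact (mul_eq_zero.1 h6).resolve_left hγ
  have e00 : ζ.1 0 0 = x + y * γ.1 0 0 := by rw [hxy]; simp
  have e11 : ζ.1 1 1 = x + y * γ.1 1 1 := by rw [hxy]; simp
  rw [Matrix.trace_fin_two, Matrix.trace_fin_two, e00, e11] at htr
  rcases mul_eq_zero.1 h5 with h6 | h6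
  · exfalso
    have hy : y = 1 := sub_eq_zero.1 h6
    have hx : x = 0 := by
      rw [hy] at htr
      linarith
    rw [hx, hy, zero_smul, zero_add, one_smul] at hxy
    have h7 : ζ = γ := Subtype.ext hxy
    have h8 : η * γ⁻¹ = γ * η := by
      rw [← h7, hζ, inv_mul_cancel_right]
      rw [← hζ, h7]
    have h9 : η.1 * (γ⁻¹).1 = γ.1 * η.1 := congrArg Subtype.val h8
    have e : ∀ i j, (η.1 * (γ⁻¹).1) i j = (γ.1 * η.1) i j := fun i j => by rw [h9]
    have f00 := e 0 0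
    have f01 := e 0 1
    have f10 := e 1 0
    have f11 := e 1 1
    simp only [Matrix.mul_apply, Fin.sum_univ_two, inv_00, inv_01, inv_10, inv_11] at f00 f01 f10 f11
    rw [Matrix.trace_fin_two] at hη
    apply not_scalar hγ (γ.1 0 0)
    ext i j
    fin_cases i <;> fin_cases j
    · simp
    · have h10 : γ.1 0 1 * (η.1 0 0 + η.1 1 1) = 0 := by linear_combination -f01
      simpa using (mul_eq_zero.1 h10).resolve_right hη
    · have h10 : γ.1 1 0 * (η.1 0 0 + η.1 1 1) = 0 := by linear_combination -f10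
      simpa using (mul_eq_zero.1 h10).resolve_right hη
    · have h10 : (γ.1 1 1 - γ.1 0 0) * (η.1 0 0 + η.1 1 1) = 0 := by
        linear_combination f00 - f11
      have h11 := (mul_eq_zero.1 h10).resolve_right hη
      simp
      linarith
  · have hy : y = -1 := eq_neg_of_add_eq_zero_left h6
    have h7 : ζ = γ⁻¹ := by
      apply Subtype.ext
      rw [hy] at htr e00 e11
      have hx : x = γ.1 0 0 + γ.1 1 1 := by linarith
      rw [hxy, hy, hx]
      ext i j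
      fin_cases i <;> fin_cases j
      · change _ = (γ⁻¹).1 0 0
        rw [inv_00]
        simp
      · change _ = (γ⁻¹).1 0 1
        rw [inv_01]
        simp
      · change _ = (γ⁻¹).1 1 0
        rw [inv_10]
        simp
      · change _ = (γ⁻¹).1 1 1
        rw [inv_11]
        simp
    have h8 : η * γ⁻¹ = γ⁻¹ * η := by
      rw [← h7, hζ]
      rw [inv_mul_cancel_right, ← hζ, h7]
    have h9 : Commute η γ⁻¹ := h8
    exact (Commute.inv_right_iff.1 h9).symm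

/-! ### Finiteness -/

/-- bounded parts of discrete groups are finite -/
theorem fin_bdd {Γ : Subgroup (SpecialLinearGroup (Fin 2) ℝ)} (hd : Disc Γ) (K : ℝ) :
    {γ : SpecialLinearGroup (Fin 2) ℝ | γ ∈ Γ ∧ Bd γ.1 K}.Finite := by
  obtain ⟨ε, hε, h⟩ := hd
  set L : ℝ := |K| + 1 with hL
  have hL0 : 0 < L := by positivity
  have hKL : K ≤ L := (le_abs_self K).trans (by linarith)
  set η : ℝ := ε / (2 * L) with hη
  have hη0 : 0 < η := by positivity
  let f : SpecialLinearGroup (Fin 2) ℝ → (Fin 2 → Fin 2 → ℤ) := fun γ i j => ⌊γ.1 i j / η⌋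
  let T : Set (Fin 2 → Fin 2 → ℤ) := {t | ∀ i j, t i j ∈ Set.Icc ⌊-L / η⌋ ⌊L / η⌋}
  have hT : T.Finite :=
    Set.Finite.pi' (t := fun _ => {h : Fin 2 → ℤ | ∀ j, h j ∈ Set.Icc ⌊-L / η⌋ ⌊L / η⌋})
      fun _ => Set.Finite.pi' fun _ => Set.finite_Icc _ _
  refine Set.Finite.of_finite_image (f := f) (hT.subset ?_) ?_
  · rintro _ ⟨γ, ⟨-, hb⟩, rfl⟩ i j
    have h1 := abs_le.1 ((hb i j).trans hKL)
    refine ⟨Int.floor_le_floor ?_, Int.floor_le_floor ?_⟩
    · exact div_le_div_of_nonneg_right h1.1 hη0.le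
    · exact div_le_div_of_nonneg_right h1.2 hη0.le
  · rintro γ ⟨hγ, hb⟩ γ' ⟨hγ', -⟩ he
    have h1 : ∀ i j, |γ'.1 i j - γ.1 i j| < η := by
      intro i j
      have h2 : ⌊γ.1 i j / η⌋ = ⌊γ'.1 i j / η⌋ := congrFun (congrFun he i) j
      have h3 := Int.abs_sub_lt_one_of_floor_eq_floor h2
      rw [← sub_div, abs_div, abs_of_pos hη0, div_lt_one hη0, abs_sub_comm] at h3
      exact h3
    have h2 : γ⁻¹ * γ' = 1 := by
      refine h _ (Γ.mul_mem (Γ.inv_mem hγ) hγ') fun i j => ?_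
      have h3 : (γ⁻¹ * γ').1 i j - (1 : Matrix (Fin 2) (Fin 2) ℝ) i j =
          ((γ⁻¹).1 * (γ'.1 - γ.1)) i j := by
        have h4 : (γ⁻¹).1 * γ.1 = 1 := congrArg Subtype.val (inv_mul_cancel γ)
        have h5 : (γ⁻¹).1 * (γ'.1 - γ.1) = (γ⁻¹ * γ').1 - 1 := by
          rw [mul_sub, h4]
          rfl
        rw [h5, Matrix.sub_apply]
      change ‖(γ⁻¹ * γ').1 i j - (1 : Matrix (Fin 2) (Fin 2) ℝ) i j‖ < ε
      rw [h3, Real.norm_eq_abs, Matrix.mul_apply, Fin.sum_univ_two]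
      have hb' := bd_inv (Bd.mono hb hKL)
      refine (abs_add_le _ _).trans_lt ?_
      rw [abs_mul, abs_mul, Matrix.sub_apply, Matrix.sub_apply]
      have h6 : |(γ⁻¹).1 i 0| * |γ'.1 0 j - γ.1 0 j| ≤ L * |γ'.1 0 j - γ.1 0 j| :=
        mul_le_mul_of_nonneg_right (hb' i 0) (abs_nonneg _)
      have h7 : |(γ⁻¹).1 i 1| * |γ'.1 1 j - γ.1 1 j| ≤ L * |γ'.1 1 j - γ.1 1 j| :=
        mul_le_mul_of_nonneg_right (hb' i 1) (abs_nonneg _)
      have h8 : L * |γ'.1 0 j - γ.1 0 j| < L * η := mul_lt_mul_of_pos_left (h1 0 j) hL0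
      have h9 : L * |γ'.1 1 j - γ.1 1 j| < L * η := mul_lt_mul_of_pos_left (h1 1 j) hL0
      have h10 : L * η + L * η = ε := by
        rw [hη]
        field_simp
        ring
      linarith
    have h3 : γ' = γ := by
      have := congrArg (γ * ·) h2
      simpa using this
    exact h3.symm

/-- positive functions on finite sets are bounded below -/
theorem exists_low {α : Type} {S : Set α} (hS : S.Finite) (f : α → ℝ) (hf : ∀ x ∈ S, 0 < f x) :
    ∃ τ : ℝ, 0 < τ ∧ ∀ x ∈ S, τ ≤ f x := by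
  rcases S.eq_empty_or_nonempty with h | h
  · exact ⟨1, one_pos, fun x hx => by rw [h] at hx; exact hx.elim⟩
  · obtain ⟨x, hx, hm⟩ := Set.exists_min_image S f hS h
    exact ⟨f x, hf x hx, hm⟩

/-! ### The normal form -/

theorem exists_nf {M : SpecialLinearGroup (Fin 2) ℝ} (hM : ∀ x : ℝ, M.1 ≠ x • 1) {e₀ : ℝ}
    (he₀ : 0 < e₀) : ∃ (g A : SpecialLinearGroup (Fin 2) ℝ) (e : ℝ), |e| = e₀ ∧ M * g = g * A ∧
      A.1 = !![1, e; (M.1.trace - 2) / e, M.1.trace - 1] := by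
  have hq : ∃ u v : ℝ, M.1 0 1 * v ^ 2 + (M.1 0 0 - M.1 1 1) * (u * v) - M.1 1 0 * u ^ 2 ≠ 0 := by
    by_contra hcon
    push Not at hcon
    have h1 := hcon 1 0
    have h2 := hcon 0 1
    have h3 := hcon 1 1
    have hc : M.1 1 0 = 0 := by linarith
    have hb : M.1 0 1 = 0 := by linarith
    have hd : M.1 0 0 = M.1 1 1 := by linarith
    apply hM (M.1 0 0)
    ext i j
    fin_cases i <;> fin_cases j
    · simp
    · simpa using hb
    · simpa using hc
    · simpa using hd.symm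
  obtain ⟨u, v, hq⟩ := hq
  set q := M.1 0 1 * v ^ 2 + (M.1 0 0 - M.1 1 1) * (u * v) - M.1 1 0 * u ^ 2 with hqd
  obtain ⟨e, he, heq⟩ : ∃ e : ℝ, |e| = e₀ ∧ 0 < e / q := by
    rcases lt_or_gt_of_ne hq with h | h
    · exact ⟨-e₀, by rw [abs_neg, abs_of_pos he₀], div_pos_of_neg_of_neg (by linarith) h⟩
    · exact ⟨e₀, abs_of_pos he₀, div_pos he₀ h⟩
  have he0 : e ≠ 0 := by
    rintro rfl
    rw [abs_zero] at he
    exact he₀.ne he
  set l := Real.sqrt (e / q) with hl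
  have hl2 : l ^ 2 = e / q := Real.sq_sqrt heq.le
  have hdet := M.2
  rw [Matrix.det_fin_two] at hdet
  set t := M.1.trace with ht
  have ht' : M.1 0 0 + M.1 1 1 = t := by rw [ht, Matrix.trace_fin_two]
  have hkey : M.1 0 1 * (l * v) ^ 2 + (M.1 0 0 - M.1 1 1) * ((l * u) * (l * v)) -
      M.1 1 0 * (l * u) ^ 2 = e := by
    have h1 : l ^ 2 * q = e := by
      rw [hl2]
      field_simp
    rw [← h1, hqd]
    ring
  set x := l * u with hx
  set y := l * v with hy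
  let g : SpecialLinearGroup (Fin 2) ℝ :=
    ⟨!![(M.1 0 0 * x + M.1 0 1 * y - (t - 1) * x) / e, x;
        (M.1 1 0 * x + M.1 1 1 * y - (t - 1) * y) / e, y], by
      rw [Matrix.det_fin_two_of]
      field_simp
      linear_combination hkey⟩
  let A : SpecialLinearGroup (Fin 2) ℝ := ⟨!![1, e; (t - 2) / e, t - 1], by
    rw [Matrix.det_fin_two_of]
    field_simp
    ring⟩
  refine ⟨g, A, e, he, ?_, rfl⟩
  apply Subtype.ext
  change M.1 * g.1 = g.1 * A.1
  ext i j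
  rw [Matrix.mul_apply, Matrix.mul_apply, Fin.sum_univ_two, Fin.sum_univ_two]
  fin_cases i <;> fin_cases j
  · change M.1 0 0 * ((M.1 0 0 * x + M.1 0 1 * y - (t - 1) * x) / e) +
      M.1 0 1 * ((M.1 1 0 * x + M.1 1 1 * y - (t - 1) * y) / e) =
      (M.1 0 0 * x + M.1 0 1 * y - (t - 1) * x) / e * 1 + x * ((t - 2) / e)
    field_simp
    rw [← ht']
    linear_combination -x * hdet
  · change M.1 0 0 * x + M.1 0 1 * y =
      (M.1 0 0 * x + M.1 0 1 * y - (t - 1) * x) / e * e + x * (t - 1)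
    field_simp
    ring
  · change M.1 1 0 * ((M.1 0 0 * x + M.1 0 1 * y - (t - 1) * x) / e) +
      M.1 1 1 * ((M.1 1 0 * x + M.1 1 1 * y - (t - 1) * y) / e) =
      (M.1 1 0 * x + M.1 1 1 * y - (t - 1) * y) / e * 1 + y * ((t - 2) / e)
    field_simp
    rw [← ht']
    linear_combination -y * hdet
  · change M.1 1 0 * x + M.1 1 1 * y =
      (M.1 1 0 * x + M.1 1 1 * y - (t - 1) * y) / e * e + y * (t - 1)
    field_simp
    ring


/-! ### The gap -/

theorem trace_conj (g A : SpecialLinearGroup (Fin 2) ℝ) : (g * A * g⁻¹).1.trace = A.1.trace := by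
  have h1 : (g * A * g⁻¹).1 = g.1 * A.1 * (g⁻¹).1 := rfl
  have h2 : (g⁻¹).1 * g.1 = 1 := congrArg Subtype.val (inv_mul_cancel g)
  rw [h1, Matrix.trace_mul_comm, ← mul_assoc, h2, one_mul]

/-- a sign -/
theorem exists_sign (γ : SpecialLinearGroup (Fin 2) ℝ) : ∃ M : SpecialLinearGroup (Fin 2) ℝ,
    (M = γ ∨ M = -γ) ∧ 0 ≤ M.1.trace := by
  rcases le_total 0 γ.1.trace with h | h
  · exact ⟨γ, Or.inl rfl, h⟩
  · refine ⟨-γ, Or.inr rfl, ?_⟩
    have h1 : (-γ).1 = -γ.1 := rfl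
    rw [h1, Matrix.trace_neg]
    linarith

theorem comm_sign {M γ : SpecialLinearGroup (Fin 2) ℝ} (h : M = γ ∨ M = -γ)
    (η : SpecialLinearGroup (Fin 2) ℝ) : M * η * M⁻¹ * η⁻¹ = γ * η * γ⁻¹ * η⁻¹ := by
  rcases h with rfl | rfl
  · rfl
  · have h1 : (-γ)⁻¹ = -γ⁻¹ := by
      rw [inv_eq_iff_mul_eq_one]
      rw [neg_mul_neg, mul_inv_cancel]
    rw [h1, neg_mul, neg_mul_neg]

theorem commute_sign {M γ : SpecialLinearGroup (Fin 2) ℝ} (h : M = γ ∨ M = -γ)
    {η : SpecialLinearGroup (Fin 2) ℝ} (hc : Commute γ η) : Commute M η := by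
  rcases h with rfl | rfl
  · exact hc
  · change -γ * η = η * -γ
    rw [neg_mul, mul_neg, hc.eq]

/-- the iterated commutators -/
def itc (γ η : SpecialLinearGroup (Fin 2) ℝ) : ℕ → SpecialLinearGroup (Fin 2) ℝ
  | 0 => η
  | n + 1 => γ * itc γ η n * γ⁻¹ * (itc γ η n)⁻¹

theorem itc_mem {Γ : Subgroup (SpecialLinearGroup (Fin 2) ℝ)} {γ η : SpecialLinearGroup (Fin 2) ℝ}
    (hγ : γ ∈ Γ) (hη : η ∈ Γ) (n : ℕ) : itc γ η n ∈ Γ := by
  induction n with
  | zero => exact hη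
  | succ n ih => exact Γ.mul_mem (Γ.mul_mem (Γ.mul_mem hγ ih) (Γ.inv_mem hγ)) (Γ.inv_mem ih)

/-- small elements commute -/
theorem comm_small {Γ : Subgroup (SpecialLinearGroup (Fin 2) ℝ)} (hd : Disc Γ)
    {γ η g A M : SpecialLinearGroup (Fin 2) ℝ} (hγ : γ ∈ Γ) (hη : η ∈ Γ) (hdis : dis γ ≠ 0)
    (hM : M = γ ∨ M = -γ) (hMg : M * g = g * A) (hA : Bd (A.1 - 1) (1 / 64))
    (hB : Bd ((g⁻¹ * η * g).1 - 1) (1 / 128)) : Commute γ η := by
  obtain ⟨ε, hε, hdisc⟩ := hd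
  have hMA : M = g * A * g⁻¹ := by rw [← hMg, mul_inv_cancel_right]
  -- the contraction
  have hb : ∀ n, Bd ((g⁻¹ * itc γ η n * g).1 - 1) (1 / 128 * (1 / 2) ^ n) := by
    intro n
    induction n with
    | zero =>
      rw [pow_zero, mul_one]
      exact hB
    | succ n ih =>
      have h1 : g⁻¹ * itc γ η (n + 1) * g = A * (g⁻¹ * itc γ η n * g) * A⁻¹ *
          (g⁻¹ * itc γ η n * g)⁻¹ := by
        change g⁻¹ * (γ * itc γ η n * γ⁻¹ * (itc γ η n)⁻¹) * g = _
        rw [← comm_sign hM, hMA]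
        group
      rw [h1]
      have h2 : (1 / 2 : ℝ) ^ n ≤ 1 := pow_le_one₀ (by norm_num) (by norm_num)
      refine (bd_comm hA ih (by linarith)).mono (le_of_eq ?_)
      rw [pow_succ]
      ring
  -- the sequence ends
  obtain ⟨G, hG⟩ : ∃ G, Bd g.1 G := by
    refine ⟨∑ i, ∑ j, |g.1 i j|, fun i j => ?_⟩
    refine (Finset.single_le_sum (f := fun j => |g.1 i j|) (fun _ _ => abs_nonneg _)
      (Finset.mem_univ j)).trans ?_
    exact Finset.single_le_sum (f := fun i => ∑ j, |g.1 i j|)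
      (fun _ _ => Finset.sum_nonneg fun _ _ => abs_nonneg _) (Finset.mem_univ i)
  have hG0 := hG.nonneg
  obtain ⟨K, hK⟩ : ∃ K : ℕ, (1 / 2 : ℝ) ^ K < ε / (4 * (G * G) + 1) :=
    exists_pow_lt_of_lt_one (by positivity) (by norm_num)
  have hend : itc γ η K = 1 := by
    refine hdisc _ (itc_mem hγ hη K) fun i j => ?_
    have h1 : (itc γ η K).1 - 1 = g.1 * ((g⁻¹ * itc γ η K * g).1 - 1) * (g⁻¹).1 := by
      have h2 : g.1 * (g⁻¹).1 = 1 := congrArg Subtype.val (mul_inv_cancel g)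
      have h3 : g.1 * (g⁻¹ * itc γ η K * g).1 * (g⁻¹).1 = (itc γ η K).1 := by
        have h4 : g * (g⁻¹ * itc γ η K * g) * g⁻¹ = itc γ η K := by group
        exact congrArg Subtype.val h4
      rw [mul_sub, sub_mul, h3, mul_one, h2]
    have h2 := ((hG.mul (hb K)).mul (bd_inv hG)) i j
    rw [← h1, Matrix.sub_apply] at h2
    rw [Real.norm_eq_abs]
    refine h2.trans_lt ?_
    rw [lt_div_iff₀ (by positivity)] at hK
    have h3 : (0 : ℝ) < (1 / 2) ^ K := by positivity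
    nlinarith [mul_nonneg hG0 hG0]
  -- back
  have hback : ∀ m, m ≤ K → Commute γ (itc γ η (K - m)) := by
    intro m
    induction m with
    | zero =>
      intro _
      rw [Nat.sub_zero, hend]
      exact Commute.one_right γ
    | succ m ih =>
      intro hm
      have h1 := ih (by omega)
      have h2 : K - m = (K - (m + 1)) + 1 := by omega
      rw [h2] at h1
      refine comm_of_comm hdis ?_ h1
      have h3 := hb (K - (m + 1))
      set B := g⁻¹ * itc γ η (K - (m + 1)) * g with hBdef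
      have h4 : (itc γ η (K - (m + 1))).1.trace = B.1.trace := by
        have h5 : itc γ η (K - (m + 1)) = g * B * g⁻¹ := by rw [hBdef]; group
        rw [h5, trace_conj]
      have h5 : (1 / 2 : ℝ) ^ (K - (m + 1)) ≤ 1 := pow_le_one₀ (by norm_num) (by norm_num)
      have h6 := abs_le.1 (h3 0 0)
      have h7 := abs_le.1 (h3 1 1)
      rw [Matrix.sub_apply, Matrix.one_apply_eq] at h6 h7
      rw [h4, Matrix.trace_fin_two]
      intro h8
      linarith [h6.1, h7.1]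
  have h1 := hback K le_rfl
  rw [Nat.sub_self] at h1
  exact h1

/-- THE GAP OF THE TRACES -/
theorem gap {Γ : Subgroup (SpecialLinearGroup (Fin 2) ℝ)} (hd : Disc Γ) (hp : Pak Γ) :
    ∃ τ : ℝ, 0 < τ ∧ ∀ γ ∈ Γ, dis γ = 0 ∨ τ ≤ |dis γ| := by
  obtain ⟨C, hC⟩ := hp (1 / 128) (by norm_num)
  set K : ℝ := 2 * (2 * (C * 2) * C) with hK
  obtain ⟨τ, hτ, hlow⟩ := exists_low (S := {γ | (γ ∈ Γ ∧ Bd γ.1 K) ∧ dis γ ≠ 0})
    ((fin_bdd hd K).subset fun γ h => h.1) (fun γ => |dis γ|) (fun γ h => abs_pos.2 h.2)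
  refine ⟨min τ (1 / 4096), by positivity, fun γ₀ hγ₀ => ?_⟩
  by_contra hcon
  push Not at hcon
  obtain ⟨hdis₀, hlt₀⟩ := hcon
  -- the minimal element of the centraliser
  let S : Set (SpecialLinearGroup (Fin 2) ℝ) :=
    {η | η ∈ Γ ∧ Commute γ₀ η ∧ η ≠ 1 ∧ η ≠ -1 ∧ |dis η| ≤ |dis γ₀|}
  have hSne : γ₀ ∈ S := by
    refine ⟨hγ₀, Commute.refl _, ?_, ?_, le_rfl⟩
    · rintro rfl
      apply not_scalar hdis₀ 1
      rw [one_smul]
      rfl
    · rintro rfl
      apply not_scalar hdis₀ (-1)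
      rw [neg_smul, one_smul]
      rfl
  have hSfin : S.Finite := by
    obtain ⟨K₀, hK₀⟩ : ∃ K₀, Bd γ₀.1 K₀ := by
      refine ⟨∑ i, ∑ j, |γ₀.1 i j|, fun i j => ?_⟩
      refine (Finset.single_le_sum (f := fun j => |γ₀.1 i j|) (fun _ _ => abs_nonneg _)
        (Finset.mem_univ j)).trans ?_
      exact Finset.single_le_sum (f := fun i => ∑ j, |γ₀.1 i j|)
        (fun _ _ => Finset.sum_nonneg fun _ _ => abs_nonneg _) (Finset.mem_univ i)
    have hK₀0 := hK₀.nonneg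
    refine (fin_bdd hd (2 + 3 * K₀ + K₀)).subset ?_
    rintro η ⟨h1, h2, h3, h4, h5⟩
    refine ⟨h1, ?_⟩
    obtain ⟨x, y, hxy⟩ := comm_form (not_scalar hdis₀) (congrArg Subtype.val h2.eq.symm)
    have h6 := dis_form hxy
    have h7 : y ^ 2 ≤ 1 := by
      rw [h6, abs_mul, abs_of_nonneg (sq_nonneg y)] at h5
      have h8 : 0 < |dis γ₀| := abs_pos.2 hdis₀
      by_contra h9
      push Not at h9
      nlinarith
    have hy : |y| ≤ 1 := by
      rw [← sq_le_one_iff_abs_le_one]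
      exact h7
    -- the trace of `η` is bounded
    have hdisη : dis η ≤ 5 := by
      have h8 := (le_abs_self (dis η)).trans (h5.trans hlt₀.le)
      have h9 : min τ (1 / 4096 : ℝ) ≤ 1 / 4096 := min_le_right _ _
      linarith
    have htr : |η.1.trace| ≤ 3 := by
      rw [dis] at hdisη
      refine abs_le.2 (abs_le_of_sq_le_sq' ?_ (by norm_num))
      norm_num
      linarith
    have htrγ : |γ₀.1.trace| ≤ 2 * K₀ := by
      rw [Matrix.trace_fin_two]
      refine (abs_add_le _ _).trans ?_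
      linarith [hK₀ 0 0, hK₀ 1 1]
    have hx : |x| ≤ 2 + 2 * K₀ := by
      have e00 : η.1 0 0 = x + y * γ₀.1 0 0 := by rw [hxy]; simp
      have e11 : η.1 1 1 = x + y * γ₀.1 1 1 := by rw [hxy]; simp
      have h8 : 2 * x = η.1.trace - y * γ₀.1.trace := by
        rw [Matrix.trace_fin_two, Matrix.trace_fin_two, e00, e11]
        ring
      have h9 : |2 * x| ≤ 3 + 1 * (2 * K₀) := by
        rw [h8]
        refine (abs_sub _ _).trans (add_le_add htr ?_)
        rw [abs_mul]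
        exact mul_le_mul hy htrγ (abs_nonneg _) zero_le_one
      rw [abs_mul, abs_of_pos (by norm_num : (0 : ℝ) < 2)] at h9
      linarith
    intro i j
    rw [hxy, Matrix.add_apply, Matrix.smul_apply, Matrix.smul_apply, smul_eq_mul, smul_eq_mul]
    refine (abs_add_le _ _).trans ?_
    rw [abs_mul, abs_mul]
    have h8 : |x| * |(1 : Matrix (Fin 2) (Fin 2) ℝ) i j| ≤ |x| * 1 :=
      mul_le_mul_of_nonneg_left (bd_one i j) (abs_nonneg _)
    have h9 : |y| * |γ₀.1 i j| ≤ 1 * K₀ := mul_le_mul hy (hK₀ i j) (abs_nonneg _) zero_le_one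
    linarith
  obtain ⟨γ, hγS, hmin⟩ := Set.exists_min_image S (fun η => |dis η|) hSfin ⟨γ₀, hSne⟩
  obtain ⟨hγ, hcomm, hγ1, hγ2, hγ3⟩ := hγS
  have hdis : dis γ ≠ 0 := by
    obtain ⟨x, y, hxy⟩ := comm_form (not_scalar hdis₀) (congrArg Subtype.val hcomm.eq.symm)
    rw [dis_form hxy]
    exact mul_ne_zero (pow_ne_zero 2 (dis_ne hγ1 hγ2 hxy)) hdis₀
  have hlt : |dis γ| < min τ (1 / 4096) := lt_of_le_of_lt hγ3 hlt₀
  have hmin' : ∀ η ∈ Γ, Commute γ η → η ≠ 1 → η ≠ -1 → |dis γ| ≤ |dis η| := by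
    intro η hη hc h1 h2
    have hc' : Commute γ₀ η := by
      obtain ⟨x, y, hxy⟩ := comm_form (not_scalar hdis) (congrArg Subtype.val hcomm.eq)
      obtain ⟨x', y', hxy'⟩ := comm_form (not_scalar hdis) (congrArg Subtype.val hc.eq.symm)
      apply Subtype.ext
      change γ₀.1 * η.1 = η.1 * γ₀.1
      rw [hxy, hxy']
      simp only [add_mul, mul_add, Matrix.smul_mul, Matrix.mul_smul, one_mul, mul_one]
      module
    rcases le_or_gt (|dis η|) (|dis γ₀|) with h3 | h3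
    · exact hmin η ⟨hη, hc', h1, h2, h3⟩
    · exact hγ3.trans h3.le
  obtain ⟨M, hM, hMtr⟩ := exists_sign γ
  have hdisM : dis M = dis γ := by
    rcases hM with rfl | rfl
    · rfl
    · rw [dis, dis]
      have h1 : (-γ).1 = -γ.1 := rfl
      rw [h1, Matrix.trace_neg]
      ring
  obtain ⟨g, A, e, he, hMg, hA⟩ := exists_nf (not_scalar (hdisM ▸ hdis)) (e₀ := 1 / 64) (by norm_num)
  have he0 : e ≠ 0 := by
    rintro rfl
    rw [abs_zero] at he
    norm_num at he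
  have hs : |M.1.trace - 2| ≤ 1 / 4096 := by
    have h1 : |dis M| < 1 / 4096 := by
      rw [hdisM]
      exact hlt.trans_le (min_le_right _ _)
    rw [dis] at h1
    have h2 : M.1.trace ^ 2 - 4 = (M.1.trace - 2) * (M.1.trace + 2) := by ring
    rw [h2, abs_mul, abs_of_nonneg (by linarith : (0 : ℝ) ≤ M.1.trace + 2)] at h1
    nlinarith [abs_nonneg (M.1.trace - 2)]
  have hσ : |(M.1.trace - 2) / e| ≤ 1 / 64 := by
    rw [abs_div, he, div_le_iff₀ (by norm_num)]
    linarith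
  have hAb : Bd (A.1 - 1) (1 / 64) := by
    intro i j
    rw [Matrix.sub_apply, hA]
    fin_cases i <;> fin_cases j
    · simp
    · simpa using he.le
    · simpa using hσ
    · change |(M.1.trace - 1) - (1 : Matrix (Fin 2) (Fin 2) ℝ) 1 1| ≤ 1 / 64
      rw [Matrix.one_apply_eq]
      have h1 : M.1.trace - 1 - 1 = M.1.trace - 2 := by ring
      rw [h1]
      linarith
  rcases hC g with ⟨η, hη, hb⟩ | ⟨η, hη, h1, h2, hb⟩
  · -- the bounded case
    have hA2 : Bd A.1 2 := by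
      have h1 := hAb.add bd_one
      rw [sub_add_cancel] at h1
      exact h1.mono (by norm_num)
    have h1 : Bd (η * M * η⁻¹).1 K := by
      have h2 : η * M * η⁻¹ = (η * g) * A * (η * g)⁻¹ := by
        have hMA : M = g * A * g⁻¹ := by rw [← hMg, mul_inv_cancel_right]
        rw [hMA]
        group
      rw [h2]
      exact ((Bd.mul (M := (η * g).1) hb hA2).mul (bd_inv hb))
    have h2 : Bd (η * γ * η⁻¹).1 K := by
      rcases hM with rfl | rfl
      · exact h1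
      · intro i j
        have h3 := h1 i j
        have h4 : η * -γ * η⁻¹ = -(η * γ * η⁻¹) := by rw [mul_neg, neg_mul]
        rw [h4] at h3
        have h5 : (-(η * γ * η⁻¹)).1 i j = -(η * γ * η⁻¹).1 i j := rfl
        rw [h5, abs_neg] at h3
        exact h3
    have h3 : dis (η * γ * η⁻¹) = dis γ := by rw [dis, dis, trace_conj]
    have h4 := hlow (η * γ * η⁻¹) ⟨⟨Γ.mul_mem (Γ.mul_mem hη hγ) (Γ.inv_mem hη), h2⟩, by
      rw [h3]
      exact hdis⟩
    have h5 : τ ≤ |dis (η * γ * η⁻¹)| := h4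
    rw [h3] at h5
    exact absurd (hlt.trans_le (min_le_left _ _)) (not_lt.2 h5)
  · -- the case of a small element
    have hB : Bd ((g⁻¹ * η * g).1 - 1) (1 / 128) := fun i j => by
      rw [Matrix.sub_apply]
      exact (hb i j).le
    have hc := comm_small hd hγ hη hdis hM hMg hAb hB
    obtain ⟨x, y, hxy⟩ := comm_form (not_scalar (hdisM ▸ hdis))
      (congrArg Subtype.val (commute_sign hM hc).eq.symm)
    have h3 : dis η = y ^ 2 * dis M := dis_form hxy
    have h4 : |y| < 1 := by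
      have h5 : (g⁻¹ * η * g).1 0 1 = y * e := by
        have h6 : (g⁻¹ * η * g).1 = x • (1 : Matrix (Fin 2) (Fin 2) ℝ) + y • A.1 := by
          have h7 : (g⁻¹ * η * g).1 = (g⁻¹).1 * η.1 * g.1 := rfl
          have h8 : (g⁻¹).1 * g.1 = 1 := congrArg Subtype.val (inv_mul_cancel g)
          have h9 : (g⁻¹).1 * M.1 * g.1 = A.1 := by
            have h10 : g⁻¹ * M * g = A := by rw [mul_assoc, hMg, inv_mul_cancel_left]
            exact congrArg Subtype.val h10
          rw [h7, hxy, mul_add, add_mul, Matrix.mul_smul, Matrix.smul_mul, mul_one, h8,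
            Matrix.mul_smul, Matrix.smul_mul, h9]
        rw [h6, hA]
        simp
      have h6 := hb 0 1
      rw [h5, Matrix.one_apply_ne (show (0 : Fin 2) ≠ 1 by decide), sub_zero, abs_mul, he] at h6
      linarith
    have h5 := hmin' η hη hc h1 h2
    rw [h3, hdisM, abs_mul, abs_of_nonneg (sq_nonneg y)] at h5
    have h6 : 0 < |dis γ| := abs_pos.2 hdis
    have h7 : y ^ 2 < 1 := by
      rw [sq_lt_one_iff_abs_lt_one]
      exact h4
    nlinarith

end Pool.Agent.ToF.GapX
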