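import Pool.Agent.Lib.MP_305fdd_al.To.F.Defs
import Pool.Agent.Lib.MP_305fdd_al.To.F.GapA

/-!
# MP_305fdd_al, torsion room, block F2: the gap of the traces, final form
-/

set_option autoImplicit false

namespace Pool.Agent.ToF

open Matrix Pool.Agent.ToN

/-- THE GAP OF THE TRACES -/
theorem gap {Γ : Subgroup SLR} (hd : Dsc Γ) (hp : Pck Γ) : Gap Γ := by
  have hd' : GapX.Disc Γ := by
    obtain ⟨ε, hε, h⟩ := hd
    exact ⟨ε, hε, fun γ hγ h1 => h γ hγ fun i j => by
      have h2 := h1 i j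
      rw [Real.norm_eq_abs] at h2
      exact h2⟩
  obtain ⟨τ, hτ, h⟩ := GapX.gap hd' hp
  refine ⟨min (τ / 5) 1, by positivity, fun γ hγ => ?_⟩
  have e : GapX.dis γ = (|γ.1.trace| - 2) * (|γ.1.trace| + 2) := by
    rw [GapX.dis]
    linear_combination -(sq_abs γ.1.trace)
  have h0 := abs_nonneg γ.1.trace
  rcases h γ hγ with h1 | h1
  · left
    rw [e] at h1
    rcases mul_eq_zero.1 h1 with h2 | h2
    · linarith
    · linarith
  · right
    rw [e, abs_mul, abs_of_nonneg (by linarith : (0 : ℝ) ≤ |γ.1.trace| + 2)] at h1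
    by_contra h2
    push Not at h2
    have h3 := h2.trans_le (min_le_left _ _)
    have h4 := h2.trans_le (min_le_right _ _)
    have h5 : |γ.1.trace| < 3 := by
      have := (abs_lt.1 h4).2
      linarith
    nlinarith [abs_nonneg (|γ.1.trace| - 2)]

end Pool.Agent.ToF
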