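import Pool.Agent.Lib.MP_305fdd_al.To.F.Orb

/-!
# MP_305fdd_al, torsion room, block F4c: the action on the tree of the perfect forms

`orb`: the action of the image of `Γ` in `PSL_2(ℝ)` preserves the adjacency, only the identity fixes
both ends of an edge, the stabilisers of the vertices are cyclic, there are finitely many orbits of
edges.
-/

set_option autoImplicit false

namespace Pool.Agent.ToF

open Matrix Pool.Agent.ToN

/-! ### estimates for forms -/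

theorem ds_nm {Y : Qf} (x : V2) : ds Y * nm x ≤ (Y 0 + Y 2) * ev Y x := by
  have e : (Y 0 + Y 2) * ev Y x - ds Y * nm x =
      (Y 0 * x 0 + Y 1 * x 1) ^ 2 + (Y 1 * x 0 + Y 2 * x 1) ^ 2 := by
    unfold ds nm ev
    ring
  nlinarith [sq_nonneg (Y 0 * x 0 + Y 1 * x 1), sq_nonneg (Y 1 * x 0 + Y 2 * x 1)]

theorem gram {Y : Qf} (v w : V2) : ds Y * dt v w ^ 2 ≤ ev Y v * ev Y w := by
  have e : ev Y v * ev Y w - ds Y * dt v w ^ 2 =
      (Y 0 * (v 0 * w 0) + Y 1 * (v 0 * w 1 + v 1 * w 0) + Y 2 * (v 1 * w 1)) ^ 2 := by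
    unfold ds dt ev
    ring
  nlinarith [sq_nonneg (Y 0 * (v 0 * w 0) + Y 1 * (v 0 * w 1 + v 1 * w 0) + Y 2 * (v 1 * w 1))]

theorem ev_nonneg {Y : Qf} (h : Ps Y) (x : V2) : 0 ≤ ev Y x := by
  by_cases hx : x = 0
  · rw [hx]
    unfold ev
    simp
  · exact (ev_pos h hx).le

theorem ev_comb {Y : Qf} (h : Ps Y) (a b : ℝ) (v w : V2) :
    ev Y (a • v + b • w) ≤ 2 * (a ^ 2 * ev Y v + b ^ 2 * ev Y w) := by
  have e : 2 * (a ^ 2 * ev Y v + b ^ 2 * ev Y w) - ev Y (a • v + b • w) = ev Y (a • v - b • w) := by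
    unfold ev
    simp only [Pi.add_apply, Pi.sub_apply, Pi.smul_apply, smul_eq_mul]
    ring
  have := ev_nonneg h (a • v - b • w)
  linarith

theorem ev_e0 (Y : Qf) : ev Y ![1, 0] = Y 0 := by
  unfold ev
  simp

theorem ev_e1 (Y : Qf) : ev Y ![0, 1] = Y 2 := by
  unfold ev
  simp

theorem nmn (v : V2) : 0 ≤ nm v := by
  unfold nm
  positivity

/-- Cholesky decomposition -/
theorem exists_chol {Y : Qf} (h : Ps Y) : ∃ g : SLR, ∀ x, ev Y x = √(ds Y) * nm (ac g⁻¹ x) := by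
  have hs : 0 < √(ds Y) := Real.sqrt_pos.2 h.2
  have hs2 : √(ds Y) * √(ds Y) = ds Y := Real.mul_self_sqrt h.2.le
  have hY0 := h.1
  have hds : ds Y = Y 0 * Y 2 - Y 1 ^ 2 := rfl
  generalize √(ds Y) = s at *
  have hp2 : 0 < Y 0 / s := by positivity
  have hp : 0 < √(Y 0 / s) := Real.sqrt_pos.2 hp2
  have hpp : √(Y 0 / s) * √(Y 0 / s) = Y 0 / s := Real.mul_self_sqrt hp2.le
  generalize √(Y 0 / s) = p at *
  let P : SLR := mkS p (Y 1 / (s * p)) 0 (1 / p) (by field_simp; ring)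
  refine ⟨P⁻¹, fun x => ?_⟩
  rw [inv_inv]
  unfold nm ev
  rw [ac0, ac1]
  simp only [P, mkS00, mkS01, mkS10, mkS11]
  have e0 : s * p ^ 2 = Y 0 := by
    rw [pow_two, hpp]
    field_simp
  have e2 : s * ((Y 1 / (s * p)) ^ 2 + (1 / p) ^ 2) = Y 2 := by
    have h1 : s * ((Y 1 / (s * p)) ^ 2 + (1 / p) ^ 2) = (Y 1 ^ 2 + s * s) / (s * p ^ 2) := by
      field_simp
    rw [h1, e0, hs2, hds]
    field_simp
    ring
  have e1 : s * (p * (Y 1 / (s * p))) = Y 1 := by field_simp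
  linear_combination (-(x 0 ^ 2)) * e0 - (x 1 ^ 2) * e2 - 2 * (x 0 * x 1) * e1

/-! ### finitely many bounded perfect forms -/

section

variable {U : Set V2}

theorem CU.dsc (h : CU U) : ∃ c : ℝ, 0 < c ∧ ∀ Y : Qf, Ad U Y → c ≤ ds Y := by
  obtain ⟨c, hc, h1⟩ := h.deg
  refine ⟨c, hc, fun Y hY => ?_⟩
  by_contra hn
  push Not at hn
  obtain ⟨u, hu, hu'⟩ := h1 Y hY.1 hn
  have := hY.2 u hu
  linarith

theorem fin_vx (h : CU U) (B : ℝ) : {Y : Vx U | Y.1 0 ≤ B ∧ Y.1 2 ≤ B}.Finite := by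
  obtain ⟨c, hc, hds⟩ := h.dsc
  have hF := h.fin (2 * B / c)
  refine Set.Finite.of_injOn (f := fun Y : Vx U => Mv U Y.1) ?_ ?_ hF.finite_subsets
  · rintro Y ⟨h0, h2⟩
    rintro u ⟨hu, hu'⟩
    refine ⟨hu, ?_⟩
    have h3 := ds_nm (Y := Y.1) u
    have h4 := hds Y.1 Y.2.1
    have h5 := nmn u
    rw [hu', mul_one] at h3
    rw [le_div_iff₀ hc]
    nlinarith
  · rintro Y - Y' - hYY
    obtain ⟨-, u, hu, v, hv, w, hw, huv, hvw, huw⟩ := Y.2
    have hu' : u ∈ Mv U Y'.1 := by rw [← show Mv U Y.1 = Mv U Y'.1 from hYY]; exact hu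
    have hv' : v ∈ Mv U Y'.1 := by rw [← show Mv U Y.1 = Mv U Y'.1 from hYY]; exact hv
    have hw' : w ∈ Mv U Y'.1 := by rw [← show Mv U Y.1 = Mv U Y'.1 from hYY]; exact hw
    exact Subtype.ext (qfx3 huv hvw huw (hu.2.trans hu'.2.symm) (hv.2.trans hv'.2.symm)
      (hw.2.trans hw'.2.symm))

/-- a form is bounded in terms of two minimal vectors -/
theorem bd_of_two {Y : Qf} (hY : Ps Y) {v w : V2} (hv : ev Y v = 1) (hw : ev Y w = 1)
    (hd : 1 ≤ |dt v w|) : Y 0 ≤ 2 * (nm v + nm w) ∧ Y 2 ≤ 2 * (nm v + nm w) := by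
  have hd0 : dt v w ≠ 0 := by
    intro h0
    rw [h0, abs_zero] at hd
    linarith
  have hd2 : 1 ≤ dt v w ^ 2 := by
    rw [← sq_abs]
    nlinarith
  have key : ∀ x : V2, dt v w ^ 2 * ev Y x ≤ 2 * (dt x w ^ 2 + dt v x ^ 2) := by
    intro x
    have h1 := ev_comb hY (dt x w) (dt v x) v w
    rw [hv, hw] at h1
    have e : dt x w • v + dt v x • w = dt v w • x := by
      apply v2_ext
      · simp only [Pi.add_apply, Pi.smul_apply, smul_eq_mul, dt]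
        ring
      · simp only [Pi.add_apply, Pi.smul_apply, smul_eq_mul, dt]
        ring
    rw [e] at h1
    have e2 : ev Y (dt v w • x) = dt v w ^ 2 * ev Y x := by
      unfold ev
      simp only [Pi.smul_apply, smul_eq_mul]
      ring
    rw [e2] at h1
    linarith
  have hn0 := sq_nonneg (v 0)
  have hn1 := sq_nonneg (v 1)
  have hm0 := sq_nonneg (w 0)
  have hm1 := sq_nonneg (w 1)
  constructor
  · have h1 := key ![1, 0]
    rw [ev_e0] at h1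
    have e1 : dt ![1, 0] w ^ 2 + dt v ![1, 0] ^ 2 = w 1 ^ 2 + v 1 ^ 2 := by
      unfold dt
      simp
    rw [e1] at h1
    unfold nm
    nlinarith [hY.1]
  · have h1 := key ![0, 1]
    rw [ev_e1] at h1
    have e1 : dt ![0, 1] w ^ 2 + dt v ![0, 1] ^ 2 = w 0 ^ 2 + v 0 ^ 2 := by
      unfold dt
      simp
    rw [e1] at h1
    unfold nm
    nlinarith [hY.two]

theorem fin_nbr (h : CU U) (Y : Vx U) : {Y' : Vx U | (Tr U).Adj Y Y'}.Finite := by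
  have hds := Y.2.1.1.2
  set R : ℝ := (Y.1 0 + Y.1 2) / ds Y.1 with hR
  refine (fin_vx h (4 * R)).subset ?_
  rintro Y' ⟨-, v, hv, w, hw, hv', hw', hvw⟩
  have hb : ∀ u ∈ Mv U Y.1, nm u ≤ R := by
    intro u hu
    rw [hR, le_div_iff₀ hds]
    have h3 := ds_nm (Y := Y.1) u
    rw [hu.2, mul_one] at h3
    linarith
  have h1 := bd_of_two Y'.2.1.1 hv'.2 hw'.2 (h.sep v hv.1 w hw.1 hvw)
  have h2 := hb v hv
  have h3 := hb w hw
  exact ⟨by linarith [h1.1], by linarith [h1.2]⟩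

/-- every perfect form is bounded modulo `Γ` -/
theorem exists_bd {Γ : Subgroup SLR} (h : CU U)
    (hc : ∃ C : ℝ, ∀ g : SLR, (∃ γ ∈ Γ, Bd C (γ * g)) ∨ ∃ u ∈ U, nm (ac g⁻¹ u) < 1) :
    ∃ B : ℝ, ∀ Y : Vx U, ∃ γ ∈ Γ, pull γ⁻¹ Y.1 0 ≤ B ∧ pull γ⁻¹ Y.1 2 ≤ B := by
  obtain ⟨C, hC⟩ := hc
  refine ⟨2 * C ^ 2, fun Y => ?_⟩
  obtain ⟨g, hg⟩ := exists_chol Y.2.1.1
  obtain ⟨hA, u, hu, v, hv, w, hw, huv, hvw, huw⟩ := Y.2
  have hds := hA.1.2
  have hs : 0 < √(ds Y.1) := Real.sqrt_pos.2 hds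
  have hs1 : √(ds Y.1) ≤ 1 := by
    rw [Real.sqrt_le_one]
    have h1 := gram (Y := Y.1) u v
    rw [hu.2, hv.2] at h1
    have h2 := h.sep u hu.1 v hv.1 huv
    have h3 : 1 ≤ dt u v ^ 2 := by
      rw [← sq_abs]
      nlinarith
    nlinarith
  rcases hC g with ⟨γ, hγ, hb⟩ | ⟨x, hx, hx'⟩
  · refine ⟨γ, hγ, ?_⟩
    have key : ∀ x : V2, (∀ k, |x k| ≤ 1) → x 0 * x 1 = 0 → ev (pull γ⁻¹ Y.1) x ≤ 2 * C ^ 2 := by
      intro x hx1 hx2
      rw [ev_pull, hg, ← ac_mul, ← _root_.mul_inv_rev]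
      have hb' := hb.inv
      generalize (γ * g)⁻¹ = M at hb'
      have h0 : nm (ac M x) ≤ 2 * C ^ 2 := by
        unfold nm
        rw [ac0, ac1]
        have a0 : ∀ i j, M.1 i j ^ 2 ≤ C ^ 2 := fun i j => by
          rw [← sq_abs]
          have := hb' i j
          nlinarith [abs_nonneg (M.1 i j)]
        have b0 : x 0 ^ 2 ≤ 1 := by
          have := hx1 0
          rw [← sq_abs]
          nlinarith [abs_nonneg (x 0)]
        have b1 : x 1 ^ 2 ≤ 1 := by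
          have := hx1 1
          rw [← sq_abs]
          nlinarith [abs_nonneg (x 1)]
        rcases mul_eq_zero.1 hx2 with hz | hz
        · rw [hz]
          have c1 := a0 0 1
          have c2 := a0 1 1
          have d1 : M.1 0 1 ^ 2 * x 1 ^ 2 ≤ C ^ 2 * 1 :=
            mul_le_mul c1 b1 (sq_nonneg _) (sq_nonneg _)
          have d2 : M.1 1 1 ^ 2 * x 1 ^ 2 ≤ C ^ 2 * 1 :=
            mul_le_mul c2 b1 (sq_nonneg _) (sq_nonneg _)
          nlinarith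
        · rw [hz]
          have c1 := a0 0 0
          have c2 := a0 1 0
          have d1 : M.1 0 0 ^ 2 * x 0 ^ 2 ≤ C ^ 2 * 1 :=
            mul_le_mul c1 b0 (sq_nonneg _) (sq_nonneg _)
          have d2 : M.1 1 0 ^ 2 * x 0 ^ 2 ≤ C ^ 2 * 1 :=
            mul_le_mul c2 b0 (sq_nonneg _) (sq_nonneg _)
          nlinarith
      have h1 := nmn (ac M x)
      nlinarith
    constructor
    · rw [← ev_e0 (pull γ⁻¹ Y.1)]
      refine key _ (fun k => ?_) (by simp)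
      fin_cases k <;> simp
    · rw [← ev_e1 (pull γ⁻¹ Y.1)]
      refine key _ (fun k => ?_) (by simp)
      fin_cases k <;> simp
  · exfalso
    have h1 := hA.2 x hx
    rw [hg] at h1
    have h2 := nmn (ac g⁻¹ x)
    nlinarith

/-! ### the theorem -/

/-- **the action on the tree of the perfect forms** -/
theorem orb {Γ : Subgroup SLR} (hd : Dsc Γ) (h : CU U) (hU : ∀ γ ∈ Γ, ∀ v ∈ U, ac γ v ∈ U)
    (hc : ∃ C : ℝ, ∀ g : SLR, (∃ γ ∈ Γ, Bd C (γ * g)) ∨ ∃ u ∈ U, nm (ac g⁻¹ u) < 1) :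
    ∃ _ : MulAction (IG Γ) (Vx U),
      (∀ (g : IG Γ) (x y : Vx U), (Tr U).Adj x y → (Tr U).Adj (g • x) (g • y)) ∧
      (∀ (g : IG Γ) (x y : Vx U), (Tr U).Adj x y → g • x = x → g • y = y → g = 1) ∧
      (∀ x : Vx U, IsCyclic (MulAction.stabilizer (IG Γ) x)) ∧
      ∃ s : Finset (Vx U × Vx U), ∀ x y, (Tr U).Adj x y → ∃ (g : IG Γ) (p : Vx U × Vx U), p ∈ s ∧
        ((g • p.1 = x ∧ g • p.2 = y) ∨ (g • p.1 = y ∧ g • p.2 = x)) := by
  let _ := vact Γ U hU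
  have hsm : ∀ (g : IG Γ) (γ : SLR), pr γ = g.1 → ∀ Y : Vx U, (g • Y).1 = pull γ⁻¹ Y.1 := by
    intro g γ hγ Y
    show hP g.1 Y.1 = _
    rw [← hγ, hP_pr]
  have hadj : ∀ (g : IG Γ) (x y : Vx U), (Tr U).Adj x y → (Tr U).Adj (g • x) (g • y) := by
    rintro g x y ⟨hxy, v, hv, w, hw, hv', hw', hvw⟩
    obtain ⟨γ, hγ, hg⟩ := g.rep
    refine ⟨fun h0 => hxy ?_, ac γ v, ?_, ac γ w, ?_, ?_, ?_, by rwa [dt_ac]⟩
    · have := congrArg (g⁻¹ • ·) h0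
      simpa using this
    all_goals
      rw [hsm g γ hg]
      have h1 : ∀ v ∈ U, ac (γ⁻¹)⁻¹ v ∈ U := fun v hv => by
        rw [inv_inv]
        exact hU _ hγ v hv
      have h2 := fun (Z : Qf) (u : V2) (hu : u ∈ Mv U Z) => mv_pull (A := γ⁻¹) h1 hu
      rw [inv_inv] at h2
      exact h2 _ _ (by assumption)
  refine ⟨inferInstance, hadj, ?_, ?_, ?_⟩
  · rintro g x y ⟨hxy, v, hv, w, hw, hv', hw', hvw⟩ hx hy
    obtain ⟨γ, hγ, hg⟩ := g.rep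
    have h1 : pull γ⁻¹ x.1 = x.1 := by rw [← hsm g γ hg, hx]
    have h2 : pull γ⁻¹ y.1 = y.1 := by rw [← hsm g γ hg, hy]
    have h3 := fix_two x.2.1.1 y.2.1.1 h1 h2 (fun h0 => hxy (Subtype.ext h0))
      (hv.2.trans hv'.2.symm) (h.nz v hv.1)
    have h4 : pr γ = 1 := by
      have := (pr_eq_iff _ _).2 h3
      rw [map_inv, map_one, inv_eq_one] at this
      exact this
    apply Subtype.ext
    rw [← hg, h4]
    rfl
  · intro Y
    have := stb_cyclic (Γ := Γ) hd Y.2.1.1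
    have hf : ∀ A : stb Γ Y.1, (⟨pr A.1, Subgroup.mem_map_of_mem _ A.2.1⟩ : IG Γ) • Y = Y := by
      intro A
      apply Subtype.ext
      rw [hsm _ A.1 rfl]
      exact (inv_mem A.2 : A.1⁻¹ ∈ stb Γ Y.1).2
    let f : stb Γ Y.1 →* MulAction.stabilizer (IG Γ) Y :=
      { toFun := fun A => ⟨⟨pr A.1, Subgroup.mem_map_of_mem _ A.2.1⟩, hf A⟩
        map_one' := rfl
        map_mul' := fun A B => rfl }
    refine isCyclic_of_surjective f ?_
    rintro ⟨g, hg⟩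
    obtain ⟨γ, hγ, hg'⟩ := g.rep
    have h1 : γ⁻¹ ∈ stb Γ Y.1 := by
      refine ⟨Γ.inv_mem hγ, ?_⟩
      rw [← hsm g γ hg', MulAction.mem_stabilizer_iff.1 hg]
    refine ⟨⟨γ, by simpa using (stb Γ Y.1).inv_mem h1⟩, ?_⟩
    apply Subtype.ext
    apply Subtype.ext
    exact hg'
  · obtain ⟨B, hB⟩ := exists_bd h hc
    have hS := fin_vx h B
    have hT : {p : Vx U × Vx U | (p.1.1 0 ≤ B ∧ p.1.1 2 ≤ B) ∧ (Tr U).Adj p.1 p.2}.Finite := by
      have h1 : {p : Vx U × Vx U | (p.1.1 0 ≤ B ∧ p.1.1 2 ≤ B) ∧ (Tr U).Adj p.1 p.2} ⊆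
          ⋃ Y ∈ {Y : Vx U | Y.1 0 ≤ B ∧ Y.1 2 ≤ B}, (fun Y' => (Y, Y')) '' {Y' | (Tr U).Adj Y Y'} := by
        rintro ⟨p, q⟩ ⟨hp, hpq⟩
        rw [Set.mem_iUnion₂]
        exact ⟨p, hp, q, hpq, rfl⟩
      exact (hS.biUnion fun Y _ => (fin_nbr h Y).image _).subset h1
    refine ⟨hT.toFinset, fun x y hxy => ?_⟩
    obtain ⟨γ, hγ, h0, h2⟩ := hB x
    let g : IG Γ := ⟨pr γ, Subgroup.mem_map_of_mem _ hγ⟩
    have hgx : (g • x).1 = pull γ⁻¹ x.1 := hsm g γ rfl x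
    refine ⟨g⁻¹, (g • x, g • y), ?_, Or.inl ⟨inv_smul_smul g x, inv_smul_smul g y⟩⟩
    rw [Set.Finite.mem_toFinset]
    refine ⟨⟨?_, ?_⟩, hadj g x y hxy⟩
    · show (g • x).1 0 ≤ B
      rw [hgx]
      exact h0
    · show (g • x).1 2 ≤ B
      rw [hgx]
      exact h2

end

end Pool.Agent.ToF
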