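import Pool.Agent.Lib.MP_305fdd_al.To.F.Defs

/-!
# MP_305fdd_al, torsion room, block F3: the parabolic vectors of a discrete subgroup of `SL_2(ℝ)`

`UU Γ` is the set of the vectors `v` such that `x ↦ x + det(v, x) v` generates the transvections of
`Γ` with direction `v`. Shimizu's lemma, finiteness, and `CU (UU Γ)`.
-/

set_option autoImplicit false

namespace Pool.Agent.ToF

open Matrix Pool.Agent.ToN

variable {Γ : Subgroup SLR}

/-! ### finiteness of the bounded parts of `Γ` -/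

theorem near_of_close {A B : SLR} {C η : ℝ} (hC : 0 < C) (hA : Bd C A)
    (h : ∀ i j, |B.1 i j - A.1 i j| < η) : Near (2 * C * η) (A⁻¹ * B) := by
  have i00 : (A⁻¹).1 0 0 = A.1 1 1 := by rw [inv1, Matrix.adjugate_fin_two]; rfl
  have i01 : (A⁻¹).1 0 1 = -A.1 0 1 := by rw [inv1, Matrix.adjugate_fin_two]; rfl
  have i10 : (A⁻¹).1 1 0 = -A.1 1 0 := by rw [inv1, Matrix.adjugate_fin_two]; rfl
  have i11 : (A⁻¹).1 1 1 = A.1 0 0 := by rw [inv1, Matrix.adjugate_fin_two]; rfl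
  have o01 : (1 : Matrix (Fin 2) (Fin 2) ℝ) 0 1 = 0 := Matrix.one_apply_ne (by decide)
  have o10 : (1 : Matrix (Fin 2) (Fin 2) ℝ) 1 0 = 0 := Matrix.one_apply_ne (by decide)
  have o00 : (1 : Matrix (Fin 2) (Fin 2) ℝ) 0 0 = 1 := Matrix.one_apply_eq _
  have o11 : (1 : Matrix (Fin 2) (Fin 2) ℝ) 1 1 = 1 := Matrix.one_apply_eq _
  have hdet := slr_det A
  have key : ∀ p q x y : ℝ, |p| ≤ C → |q| ≤ C → |x| < η → |y| < η →
      |p * x + q * y| < 2 * C * η := by
    intro p q x y hp hq hx hy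
    have h1 : |p * x| < C * η := by
      rw [abs_mul]
      calc |p| * |x| ≤ C * |x| := mul_le_mul_of_nonneg_right hp (abs_nonneg _)
        _ < C * η := mul_lt_mul_of_pos_left hx hC
    have h2 : |q * y| < C * η := by
      rw [abs_mul]
      calc |q| * |y| ≤ C * |y| := mul_le_mul_of_nonneg_right hq (abs_nonneg _)
        _ < C * η := mul_lt_mul_of_pos_left hy hC
    have h3 := abs_add_le (p * x) (q * y)
    linarith
  have a01 : |-A.1 0 1| ≤ C := by rw [abs_neg]; exact hA 0 1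
  have a10 : |-A.1 1 0| ≤ C := by rw [abs_neg]; exact hA 1 0
  intro i j
  fin_cases i <;> fin_cases j
  · change |(A⁻¹ * B).1 0 0 - (1 : Matrix (Fin 2) (Fin 2) ℝ) 0 0| < _
    rw [mul00, i00, i01, o00]
    have e : A.1 1 1 * B.1 0 0 + -A.1 0 1 * B.1 1 0 - 1 =
        A.1 1 1 * (B.1 0 0 - A.1 0 0) + -A.1 0 1 * (B.1 1 0 - A.1 1 0) := by
      linear_combination hdet
    rw [e]
    exact key _ _ _ _ (hA 1 1) a01 (h 0 0) (h 1 0)
  · change |(A⁻¹ * B).1 0 1 - (1 : Matrix (Fin 2) (Fin 2) ℝ) 0 1| < _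
    rw [mul01, i00, i01, o01]
    have e : A.1 1 1 * B.1 0 1 + -A.1 0 1 * B.1 1 1 - 0 =
        A.1 1 1 * (B.1 0 1 - A.1 0 1) + -A.1 0 1 * (B.1 1 1 - A.1 1 1) := by
      ring
    rw [e]
    exact key _ _ _ _ (hA 1 1) a01 (h 0 1) (h 1 1)
  · change |(A⁻¹ * B).1 1 0 - (1 : Matrix (Fin 2) (Fin 2) ℝ) 1 0| < _
    rw [mul10, i10, i11, o10]
    have e : -A.1 1 0 * B.1 0 0 + A.1 0 0 * B.1 1 0 - 0 =
        -A.1 1 0 * (B.1 0 0 - A.1 0 0) + A.1 0 0 * (B.1 1 0 - A.1 1 0) := by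
      ring
    rw [e]
    exact key _ _ _ _ a10 (hA 0 0) (h 0 0) (h 1 0)
  · change |(A⁻¹ * B).1 1 1 - (1 : Matrix (Fin 2) (Fin 2) ℝ) 1 1| < _
    rw [mul11, i10, i11, o11]
    have e : -A.1 1 0 * B.1 0 1 + A.1 0 0 * B.1 1 1 - 1 =
        -A.1 1 0 * (B.1 0 1 - A.1 0 1) + A.1 0 0 * (B.1 1 1 - A.1 1 1) := by
      linear_combination hdet
    rw [e]
    exact key _ _ _ _ a10 (hA 0 0) (h 0 1) (h 1 1)

/-- a discrete group has finitely many elements with bounded entries -/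
theorem fin_bd (hd : Dsc Γ) (C : ℝ) : {γ | γ ∈ Γ ∧ Bd C γ}.Finite := by
  obtain ⟨ε, hε, h1⟩ := hd
  set D := max C 1 with hD
  have hD0 : 0 < D := lt_max_of_lt_right one_pos
  set K : ℝ := 2 * D / ε with hK
  have hK0 : 0 < K := by positivity
  let f : SLR → (Fin 2 → Fin 2 → ℤ) := fun γ i j => ⌊K * γ.1 i j⌋
  have ht : {x : Fin 2 → Fin 2 → ℤ | ∀ i, x i ∈ {y : Fin 2 → ℤ | ∀ j, y j ∈
      Set.Icc (-⌈K * D⌉ - 1) (⌈K * D⌉ + 1)}}.Finite :=
    Set.Finite.pi' fun _ => Set.Finite.pi' fun _ => Set.finite_Icc _ _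
  refine Set.Finite.of_injOn (f := f) ?_ ?_ ht
  · rintro γ ⟨-, hb⟩ i j
    have h2 : |γ.1 i j| ≤ D := (hb i j).trans (le_max_left _ _)
    rw [abs_le] at h2
    have h3 : K * γ.1 i j ≤ K * D := mul_le_mul_of_nonneg_left h2.2 hK0.le
    have h4 : -(K * D) ≤ K * γ.1 i j := by
      have := mul_le_mul_of_nonneg_left h2.1 hK0.le
      linarith
    refine Set.mem_Icc.2 ⟨?_, ?_⟩
    · change -⌈K * D⌉ - 1 ≤ ⌊K * γ.1 i j⌋
      apply Int.le_floor.2
      push_cast
      have := Int.le_ceil (K * D)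
      linarith
    · change ⌊K * γ.1 i j⌋ ≤ ⌈K * D⌉ + 1
      have h5 : (⌊K * γ.1 i j⌋ : ℝ) ≤ ⌈K * D⌉ :=
        (Int.floor_le _).trans (h3.trans (Int.le_ceil _))
      have h6 : ⌊K * γ.1 i j⌋ ≤ ⌈K * D⌉ := by exact_mod_cast h5
      omega
  · rintro A ⟨hA, hAb⟩ B ⟨hB, -⟩ hAB
    have hAb' : Bd D A := fun i j => (hAb i j).trans (le_max_left _ _)
    have h2 : ∀ i j, |B.1 i j - A.1 i j| < 1 / K := by
      intro i j
      have h3 : ⌊K * A.1 i j⌋ = ⌊K * B.1 i j⌋ := congrFun (congrFun hAB i) j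
      have h4 := Int.abs_sub_lt_one_of_floor_eq_floor h3
      have h5 : K * A.1 i j - K * B.1 i j = -(K * (B.1 i j - A.1 i j)) := by ring
      rw [h5, abs_neg, abs_mul, abs_of_pos hK0] at h4
      rw [lt_div_iff₀ hK0]
      linarith
    have h3 := near_of_close hD0 hAb' h2
    have h4 : 2 * D * (1 / K) = ε := by
      rw [hK]
      field_simp
    rw [h4] at h3
    have h5 := h1 _ (Γ.mul_mem (Γ.inv_mem hA) hB) h3
    exact inv_mul_eq_one.1 h5

/-! ### transvections -/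

theorem tv00 (c : ℝ) (v : V2) : (tv c v).1 0 0 = 1 - c * (v 0 * v 1) := rfl
theorem tv01 (c : ℝ) (v : V2) : (tv c v).1 0 1 = c * (v 0 * v 0) := rfl
theorem tv10 (c : ℝ) (v : V2) : (tv c v).1 1 0 = -(c * (v 1 * v 1)) := rfl
theorem tv11 (c : ℝ) (v : V2) : (tv c v).1 1 1 = 1 + c * (v 0 * v 1) := rfl

theorem tv_ext {c d : ℝ} {v w : V2} (h1 : c * (v 0 * v 1) = d * (w 0 * w 1))
    (h2 : c * (v 0 * v 0) = d * (w 0 * w 0)) (h3 : c * (v 1 * v 1) = d * (w 1 * w 1)) :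
    tv c v = tv d w := by
  apply slr_ext
  · rw [tv00, tv00, h1]
  · rw [tv01, tv01, h2]
  · rw [tv10, tv10, h3]
  · rw [tv11, tv11, h1]

theorem tv_smul (c a : ℝ) (v : V2) : tv c (a • v) = tv (c * a ^ 2) v := by
  apply tv_ext <;> simp only [Pi.smul_apply, smul_eq_mul] <;> ring

theorem tv_neg (c : ℝ) (v : V2) : tv c (-v) = tv c v := by
  apply tv_ext <;> simp only [Pi.neg_apply] <;> ring

theorem tv_zero_left (v : V2) : tv 0 v = 1 := by
  apply slr_ext
  · rw [tv00, one1]; simp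
  · rw [tv01, one1]; simp
  · rw [tv10, one1]; simp
  · rw [tv11, one1]; simp

theorem tv_zero_right (c : ℝ) : tv c 0 = 1 := by
  apply slr_ext
  · rw [tv00, one1]; simp
  · rw [tv01, one1]; simp
  · rw [tv10, one1]; simp
  · rw [tv11, one1]; simp

theorem tv_add (c d : ℝ) (v : V2) : tv (c + d) v = tv c v * tv d v := by
  apply slr_ext
  · rw [mul00]; simp only [tv00, tv01, tv10]; ring
  · rw [mul01]; simp only [tv00, tv01, tv11]; ring
  · rw [mul10]; simp only [tv00, tv10, tv11]; ring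
  · rw [mul11]; simp only [tv01, tv10, tv11]; ring

theorem tv_inv (c : ℝ) (v : V2) : tv (-c) v = (tv c v)⁻¹ := by
  rw [eq_comm, inv_eq_iff_mul_eq_one, ← tv_add, add_neg_cancel, tv_zero_left]

/-- two vectors with the same transvection -/
theorem eq_of_tv_one {v w : V2} (h : tv 1 v = tv 1 w) : w = v ∨ w = -v := by
  have h0 : v 0 * v 0 = w 0 * w 0 := by
    have := congrArg (fun A : SLR => A.1 0 1) h
    simp only [tv01] at this
    linarith
  have h1 : v 1 * v 1 = w 1 * w 1 := by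
    have := congrArg (fun A : SLR => A.1 1 0) h
    simp only [tv10] at this
    linarith
  have h2 : v 0 * v 1 = w 0 * w 1 := by
    have := congrArg (fun A : SLR => A.1 1 1) h
    simp only [tv11] at this
    linarith
  rcases mul_self_eq_mul_self_iff.1 h0 with e | e
  · by_cases hz : w 0 = 0
    · rcases mul_self_eq_mul_self_iff.1 h1 with e' | e'
      · exact Or.inl (v2_ext e.symm e'.symm)
      · refine Or.inr (v2_ext ?_ ?_)
        · rw [Pi.neg_apply, e, hz, neg_zero]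
        · rw [Pi.neg_apply, e', neg_neg]
    · rw [e] at h2
      exact Or.inl (v2_ext e.symm (mul_left_cancel₀ hz h2).symm)
  · by_cases hz : w 0 = 0
    · rcases mul_self_eq_mul_self_iff.1 h1 with e' | e'
      · refine Or.inl (v2_ext ?_ e'.symm)
        rw [e, hz, neg_zero]
      · refine Or.inr (v2_ext ?_ ?_)
        · rw [Pi.neg_apply, e, neg_neg]
        · rw [Pi.neg_apply, e', neg_neg]
    · rw [e] at h2
      have h3 : w 0 * w 1 = w 0 * (-v 1) := by linarith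
      refine Or.inr (v2_ext ?_ ?_)
      · rw [Pi.neg_apply, e, neg_neg]
      · rw [Pi.neg_apply]
        exact mul_left_cancel₀ hz h3

/-! ### the set `UU Γ` -/

theorem tv_mem {v : V2} (hv : v ∈ UU Γ) (n : ℤ) : tv n v ∈ Γ := (hv n).2 ⟨n, rfl⟩

theorem tv_one_mem {v : V2} (hv : v ∈ UU Γ) : tv 1 v ∈ Γ := (hv 1).2 ⟨1, by norm_num⟩

theorem neg_UU {v : V2} (hv : v ∈ UU Γ) : -v ∈ UU Γ := by
  intro c
  rw [tv_neg]
  exact hv c

theorem ac_UU {γ : SLR} (hγ : γ ∈ Γ) {v : V2} (hv : v ∈ UU Γ) : ac γ v ∈ UU Γ := by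
  intro c
  rw [← tv_conj, ← hv c]
  constructor
  · intro h
    have := Γ.mul_mem (Γ.mul_mem (Γ.inv_mem hγ) h) hγ
    have e : γ⁻¹ * (γ * tv c v * γ⁻¹) * γ = tv c v := by group
    rwa [e] at this
  · intro h
    exact Γ.mul_mem (Γ.mul_mem hγ h) (Γ.inv_mem hγ)

theorem nz_UU {v : V2} (hv : v ∈ UU Γ) : v ≠ 0 := by
  rintro rfl
  obtain ⟨n, hn⟩ := (hv (1 / 2)).1 (by rw [tv_zero_right]; exact Γ.one_mem)
  have h1 : (1 : ℝ) = ((2 * n : ℤ) : ℝ) := by
    push_cast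
    linarith
  have h2 : (1 : ℤ) = 2 * n := by exact_mod_cast h1
  omega

/-- parallel vectors -/
theorem smul_of_dt {v w : V2} (hv : v ≠ 0) (h : dt v w = 0) : ∃ a : ℝ, w = a • v := by
  unfold dt at h
  by_cases h0 : v 0 = 0
  · have h1 : v 1 ≠ 0 := by
      intro h1
      exact hv (v2_ext h0 h1)
    refine ⟨w 1 / v 1, v2_ext ?_ ?_⟩
    · simp only [Pi.smul_apply, smul_eq_mul]
      rw [h0, zero_mul, zero_sub, neg_eq_zero] at h
      rw [h0, mul_zero]
      exact (mul_eq_zero.1 h).resolve_left h1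
    · simp only [Pi.smul_apply, smul_eq_mul]
      rw [div_mul_cancel₀ _ h1]
  · refine ⟨w 0 / v 0, v2_ext ?_ ?_⟩
    · simp only [Pi.smul_apply, smul_eq_mul]
      rw [div_mul_cancel₀ _ h0]
    · simp only [Pi.smul_apply, smul_eq_mul]
      field_simp
      linarith

theorem par_UU {v w : V2} (hv : v ∈ UU Γ) (hw : w ∈ UU Γ) (h : dt v w = 0) : w = v ∨ w = -v := by
  obtain ⟨a, rfl⟩ := smul_of_dt (nz_UU hv) h
  have ha : a ≠ 0 := by
    rintro rfl
    exact nz_UU hw (zero_smul _ _)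
  have key : ∀ c : ℝ, (∃ n : ℤ, c = n) ↔ ∃ n : ℤ, c * a ^ 2 = n := by
    intro c
    rw [← hw c, ← hv (c * a ^ 2), tv_smul]
  obtain ⟨m, hm⟩ := (key 1).1 ⟨1, by norm_num⟩
  obtain ⟨k, hk⟩ := (key (a ^ 2)⁻¹).2 ⟨1, by rw [inv_mul_cancel₀ (by positivity)]; norm_num⟩
  rw [one_mul] at hm
  have hmk : m * k = 1 := by
    have h1 : ((m * k : ℤ) : ℝ) = 1 := by
      push_cast
      rw [← hm, ← hk, mul_inv_cancel₀ (by positivity)]
    exact_mod_cast h1
  have hm1 : m = 1 := by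
    have hpos : 0 < m := by
      have : (0 : ℝ) < m := by rw [← hm]; positivity
      exact_mod_cast this
    rcases Int.mul_eq_one_iff_eq_one_or_neg_one.1 hmk with h2 | h2
    · exact h2.1
    · omega
  rw [hm1, Int.cast_one] at hm
  have hm' : (a - 1) * (a + 1) = 0 := by linear_combination hm
  rcases mul_eq_zero.1 hm' with h2' | h2'
  · have h2 : a = 1 := by linarith
    exact Or.inl (by rw [h2, one_smul])
  · have h2 : a = -1 := by linarith
    exact Or.inr (by rw [h2, neg_one_smul])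

theorem nm_nn (v : V2) : 0 ≤ nm v := by
  unfold nm
  positivity

theorem fin_UU (hd : Dsc Γ) (R : ℝ) : {v | v ∈ UU Γ ∧ nm v ≤ R}.Finite := by
  have h1 := fin_bd hd (1 + R)
  refine Set.Finite.subset (Set.Finite.preimage' (f := fun v : V2 => tv 1 v) h1 ?_) ?_
  · intro γ _
    rcases Set.eq_empty_or_nonempty ((fun v : V2 => tv 1 v) ⁻¹' {γ}) with h2 | ⟨v, hv⟩
    · rw [h2]
      exact Set.finite_empty
    · refine Set.Finite.subset (Set.toFinite {v, -v}) ?_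
      intro w hw
      have hv' : tv 1 v = γ := hv
      have hw' : tv 1 w = γ := hw
      exact eq_of_tv_one (hv'.trans hw'.symm)
  · rintro v ⟨hv, hR⟩
    refine ⟨tv_one_mem hv, ?_⟩
    unfold nm at hR
    have a0 : 0 ≤ v 0 ^ 2 := sq_nonneg _
    have a1 : 0 ≤ v 1 ^ 2 := sq_nonneg _
    have p1 : v 0 * v 1 ≤ R := by nlinarith [sq_nonneg (v 0 - v 1), sq_nonneg (v 0 + v 1)]
    have p2 : -R ≤ v 0 * v 1 := by nlinarith [sq_nonneg (v 0 - v 1), sq_nonneg (v 0 + v 1)]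
    have q0 : v 0 * v 0 ≤ R := by nlinarith
    have q1 : v 1 * v 1 ≤ R := by nlinarith
    have r0 : 0 ≤ v 0 * v 0 := mul_self_nonneg _
    have r1 : 0 ≤ v 1 * v 1 := mul_self_nonneg _
    intro i j
    fin_cases i <;> fin_cases j
    · change |(tv 1 v).1 0 0| ≤ _
      rw [tv00, abs_le]
      constructor <;> linarith
    · change |(tv 1 v).1 0 1| ≤ _
      rw [tv01, abs_le]
      constructor <;> linarith
    · change |(tv 1 v).1 1 0| ≤ _
      rw [tv10, abs_le]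
      constructor <;> linarith
    · change |(tv 1 v).1 1 1| ≤ _
      rw [tv11, abs_le]
      constructor <;> linarith

/-! ### Shimizu's lemma -/

/-- the iteration -/
noncomputable def shw (v w : V2) : ℕ → V2
  | 0 => w
  | k + 1 => ac (tv 1 (shw v w k)) v

theorem shw_UU {v w : V2} (hv : v ∈ UU Γ) (hw : w ∈ UU Γ) (k : ℕ) : shw v w k ∈ UU Γ := by
  induction k with
  | zero => exact hw
  | succ k ih => exact ac_UU (tv_one_mem ih) hv

theorem shw_dt (v w : V2) (k : ℕ) : dt v (shw v w (k + 1)) = -(dt v (shw v w k)) ^ 2 := by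
  change dt v (ac (tv 1 (shw v w k)) v) = _
  rw [tv_ac]
  simp only [dt, Pi.add_apply, Pi.smul_apply, smul_eq_mul]
  ring

theorem shw_succ (v w : V2) (k : ℕ) (i : Fin 2) :
    shw v w (k + 1) i = v i - dt v (shw v w k) * shw v w k i := by
  change ac (tv 1 (shw v w k)) v i = _
  rw [tv_ac]
  simp only [dt, Pi.add_apply, Pi.smul_apply, smul_eq_mul]
  ring

theorem shimizu (hd : Dsc Γ) {v w : V2} (hv : v ∈ UU Γ) (hw : w ∈ UU Γ) (h : dt v w ≠ 0) :
    1 ≤ |dt v w| := by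
  by_contra hlt
  push Not at hlt
  set q : ℕ → ℝ := fun k => |dt v (shw v w k)| with hq
  have q0 : q 0 = |dt v w| := rfl
  have qs : ∀ k, q (k + 1) = q k ^ 2 := by
    intro k
    simp only [hq]
    rw [shw_dt, abs_neg, abs_pow]
  have qpos : ∀ k, 0 < q k := by
    intro k
    induction k with
    | zero => rw [q0]; exact abs_pos.2 h
    | succ k ih => rw [qs]; positivity
  have qle : ∀ k, q k ≤ q 0 := by
    intro k
    induction k with
    | zero => exact le_rfl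
    | succ k ih =>
      rw [qs]
      have h1 : q k < 1 := ih.trans_lt hlt
      have h2 := qpos k
      nlinarith
  have qanti : StrictAnti q := by
    apply strictAnti_nat_of_succ_lt
    intro k
    rw [qs]
    have h1 : q k < 1 := (qle k).trans_lt hlt
    have h2 := qpos k
    nlinarith
  have hinj : Function.Injective (shw v w) := by
    intro k l hkl
    apply qanti.injective
    simp only [hq]
    rw [hkl]
  set M : ℝ := (|v 0| + |v 1|) / (1 - q 0) + (|w 0| + |w 1|) with hM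
  have hq1 : 0 < 1 - q 0 := by
    rw [q0]
    linarith
  have hM0 : 0 ≤ M := by positivity
  have hMv : |v 0| + |v 1| ≤ M * (1 - q 0) := by
    rw [hM, add_mul, div_mul_cancel₀ _ hq1.ne']
    have : 0 ≤ (|w 0| + |w 1|) * (1 - q 0) := by positivity
    linarith
  have hMv' : ∀ i, |v i| ≤ M * (1 - q 0) := by
    intro i
    have a0 := abs_nonneg (v 0)
    have a1 := abs_nonneg (v 1)
    fin_cases i
    · change |v 0| ≤ _
      linarith
    · change |v 1| ≤ _
      linarith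
  have hb : ∀ k i, |shw v w k i| ≤ M := by
    intro k
    induction k with
    | zero =>
      intro i
      change |w i| ≤ M
      have a0 := abs_nonneg (w 0)
      have a1 := abs_nonneg (w 1)
      have a2 : 0 ≤ (|v 0| + |v 1|) / (1 - q 0) := by positivity
      fin_cases i
      · change |w 0| ≤ _
        linarith
      · change |w 1| ≤ _
        linarith
    | succ k ih =>
      intro i
      rw [shw_succ]
      have h1 := abs_sub (v i) (dt v (shw v w k) * shw v w k i)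
      rw [abs_mul] at h1
      have h2 : |dt v (shw v w k)| * |shw v w k i| ≤ q 0 * M :=
        mul_le_mul (qle k) (ih i) (abs_nonneg _) (qpos 0).le
      have h3 := hMv' i
      nlinarith
  have hfin := fin_UU hd (M ^ 2 + M ^ 2)
  apply Set.infinite_of_injective_forall_mem hinj (s := {v | v ∈ UU Γ ∧ nm v ≤ M ^ 2 + M ^ 2})
    (fun k => ⟨shw_UU hv hw k, ?_⟩) hfin
  unfold nm
  have h0 := sq_le_sq' (neg_le_of_abs_le (hb k 0)) (le_of_abs_le (hb k 0))
  have h1 := sq_le_sq' (neg_le_of_abs_le (hb k 1)) (le_of_abs_le (hb k 1))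
  linarith

/-! ### parabolic elements give vectors -/

theorem exists_tv {γ : SLR} (ht : γ.1.trace = 2) (h1 : γ ≠ 1) :
    ∃ (c : ℝ) (v : V2), v ≠ 0 ∧ c ≠ 0 ∧ γ = tv c v := by
  have hdet := slr_det γ
  rw [tr_eq] at ht
  by_cases hb : γ.1 0 1 = 0
  · have ha : γ.1 0 0 = 1 := by
      rw [hb, zero_mul, sub_zero] at hdet
      have h2 : γ.1 1 1 = 2 - γ.1 0 0 := by linarith
      rw [h2] at hdet
      have h3 : (γ.1 0 0 - 1) ^ 2 = 0 := by linear_combination -hdet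
      have h4 := pow_eq_zero_iff (two_ne_zero) |>.1 h3
      linarith
    have hdd : γ.1 1 1 = 1 := by linarith
    have hc : γ.1 1 0 ≠ 0 := by
      intro hc
      apply h1
      apply slr_ext
      · rw [ha, one1]; simp
      · rw [hb, one1]; simp
      · rw [hc, one1]; simp
      · rw [hdd, one1]; simp
    refine ⟨-γ.1 1 0, ![0, 1], ?_, neg_ne_zero.2 hc, ?_⟩
    · intro h
      have := congrFun h 1
      simp at this
    · apply slr_ext
      · rw [tv00, ha]; simp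
      · rw [tv01, hb]; simp
      · rw [tv10]; simp
      · rw [tv11, hdd]; simp
  · refine ⟨γ.1 0 1, ![1, (1 - γ.1 0 0) / γ.1 0 1], ?_, hb, ?_⟩
    · intro h
      have := congrFun h 0
      simp at this
    · apply slr_ext
      · rw [tv00]
        simp only [Matrix.cons_val_zero, Matrix.cons_val_one]
        field_simp
        ring
      · rw [tv01]
        simp
      · rw [tv10]
        simp only [Matrix.cons_val_zero, Matrix.cons_val_one]
        field_simp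
        have h2 : γ.1 1 1 = 2 - γ.1 0 0 := by linarith
        rw [h2] at hdet
        linear_combination -hdet
      · rw [tv11]
        simp only [Matrix.cons_val_zero, Matrix.cons_val_one]
        field_simp
        linear_combination ht

/-- the group of the `c` with `tv c v ∈ Γ` -/
def cG (Γ : Subgroup SLR) (v : V2) : AddSubgroup ℝ where
  carrier := {c | tv c v ∈ Γ}
  zero_mem' := by
    change tv 0 v ∈ Γ
    rw [tv_zero_left]
    exact Γ.one_mem
  add_mem' := by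
    intro a b ha hb
    change tv (a + b) v ∈ Γ
    rw [tv_add]
    exact Γ.mul_mem ha hb
  neg_mem' := by
    intro a ha
    change tv (-a) v ∈ Γ
    rw [tv_inv]
    exact Γ.inv_mem ha

theorem mem_cG {v : V2} {c : ℝ} : c ∈ cG Γ v ↔ tv c v ∈ Γ := Iff.rfl

theorem cG_disc (hd : Dsc Γ) {v : V2} (hv : v ≠ 0) :
    ∃ a : ℝ, 0 < a ∧ Disjoint (cG Γ v : Set ℝ) (Set.Ioo 0 a) := by
  obtain ⟨ε, hε, h1⟩ := hd
  have hn : 0 < nm v := by
    unfold nm
    by_contra hc
    apply hv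
    have a0 := sq_nonneg (v 0)
    have a1 := sq_nonneg (v 1)
    apply v2_ext
    · exact pow_eq_zero_iff two_ne_zero |>.1 (by linarith : v 0 ^ 2 = 0)
    · exact pow_eq_zero_iff two_ne_zero |>.1 (by linarith : v 1 ^ 2 = 0)
  refine ⟨ε / nm v, by positivity, ?_⟩
  rw [Set.disjoint_left]
  rintro c hc ⟨hc0, hcε⟩
  rw [lt_div_iff₀ hn] at hcε
  have o01 : (1 : Matrix (Fin 2) (Fin 2) ℝ) 0 1 = 0 := Matrix.one_apply_ne (by decide)
  have o10 : (1 : Matrix (Fin 2) (Fin 2) ℝ) 1 0 = 0 := Matrix.one_apply_ne (by decide)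
  have o00 : (1 : Matrix (Fin 2) (Fin 2) ℝ) 0 0 = 1 := Matrix.one_apply_eq _
  have o11 : (1 : Matrix (Fin 2) (Fin 2) ℝ) 1 1 = 1 := Matrix.one_apply_eq _
  have b0 : c * (v 0 * v 0) ≤ c * nm v := by
    apply mul_le_mul_of_nonneg_left _ hc0.le
    unfold nm
    nlinarith [sq_nonneg (v 1)]
  have b1 : c * (v 1 * v 1) ≤ c * nm v := by
    apply mul_le_mul_of_nonneg_left _ hc0.le
    unfold nm
    nlinarith [sq_nonneg (v 0)]
  have b2 : c * (v 0 * v 1) ≤ c * nm v := by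
    apply mul_le_mul_of_nonneg_left _ hc0.le
    unfold nm
    nlinarith [sq_nonneg (v 0 - v 1), sq_nonneg (v 0 + v 1)]
  have b3 : -(c * nm v) ≤ c * (v 0 * v 1) := by
    have : c * (-nm v) ≤ c * (v 0 * v 1) := by
      apply mul_le_mul_of_nonneg_left _ hc0.le
      unfold nm
      nlinarith [sq_nonneg (v 0 - v 1), sq_nonneg (v 0 + v 1)]
    linarith
  have c0 : 0 ≤ c * (v 0 * v 0) := mul_nonneg hc0.le (mul_self_nonneg _)
  have c1 : 0 ≤ c * (v 1 * v 1) := mul_nonneg hc0.le (mul_self_nonneg _)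
  have h2 : tv c v = 1 := by
    apply h1 _ hc
    intro i j
    fin_cases i <;> fin_cases j
    · change |(tv c v).1 0 0 - (1 : Matrix (Fin 2) (Fin 2) ℝ) 0 0| < ε
      rw [tv00, o00, abs_lt]
      constructor <;> linarith
    · change |(tv c v).1 0 1 - (1 : Matrix (Fin 2) (Fin 2) ℝ) 0 1| < ε
      rw [tv01, o01, abs_lt]
      constructor <;> linarith
    · change |(tv c v).1 1 0 - (1 : Matrix (Fin 2) (Fin 2) ℝ) 1 0| < ε
      rw [tv10, o10, abs_lt]
      constructor <;> linarith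
    · change |(tv c v).1 1 1 - (1 : Matrix (Fin 2) (Fin 2) ℝ) 1 1| < ε
      rw [tv11, o11, abs_lt]
      constructor <;> linarith
  apply hv
  have e0 : c * (v 0 * v 0) = 0 := by
    rw [← tv01, h2, one1, o01]
  have e1 : c * (v 1 * v 1) = 0 := by
    have := congrArg (fun A : SLR => A.1 1 0) h2
    simp only [tv10, one1, o10] at this
    linarith
  apply v2_ext
  · exact mul_self_eq_zero.1 ((mul_eq_zero.1 e0).resolve_left hc0.ne')
  · exact mul_self_eq_zero.1 ((mul_eq_zero.1 e1).resolve_left hc0.ne')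

theorem exists_UU (hd : Dsc Γ) {γ : SLR} (hγ : γ ∈ Γ) (ht : γ.1.trace = 2) (h1 : γ ≠ 1) :
    ∃ v ∈ UU Γ, ∃ n : ℤ, n ≠ 0 ∧ γ = tv n v := by
  obtain ⟨c, v, hv, hc, rfl⟩ := exists_tv ht h1
  obtain ⟨a, ha, hdis⟩ := cG_disc hd hv
  obtain ⟨b, hb⟩ := AddSubgroup.cyclic_of_isolated_zero ha hdis
  have hmem : ∀ x : ℝ, tv x v ∈ Γ ↔ ∃ n : ℤ, n • b = x := by
    intro x
    rw [← mem_cG, hb, AddSubgroup.mem_closure_singleton]
  have hb0 : b ≠ 0 := by
    rintro rfl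
    obtain ⟨n, hn⟩ := (hmem c).1 hγ
    rw [smul_zero] at hn
    exact hc hn.symm
  have hbp : 0 < |b| := abs_pos.2 hb0
  have hs : √|b| ^ 2 = |b| := Real.sq_sqrt hbp.le
  have hsgn : ∀ x : ℝ, (∃ n : ℤ, n • b = x * |b|) ↔ ∃ n : ℤ, x = n := by
    intro x
    rcases abs_choice b with e | e
    · rw [e]
      constructor
      · rintro ⟨n, hn⟩
        rw [zsmul_eq_mul] at hn
        exact ⟨n, (mul_right_cancel₀ hb0 hn).symm⟩
      · rintro ⟨n, rfl⟩
        exact ⟨n, by rw [zsmul_eq_mul]⟩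
    · rw [e]
      constructor
      · rintro ⟨n, hn⟩
        rw [zsmul_eq_mul] at hn
        refine ⟨-n, ?_⟩
        have : (n : ℝ) * b = -x * b := by linarith
        have := mul_right_cancel₀ hb0 this
        push_cast
        linarith
      · rintro ⟨n, rfl⟩
        refine ⟨-n, ?_⟩
        rw [zsmul_eq_mul]
        push_cast
        ring
  refine ⟨√|b| • v, ?_, ?_⟩
  · intro x
    rw [tv_smul, hs, hmem, hsgn]
  · obtain ⟨n, hn⟩ := (hsgn (c / |b|)).1 (by
      rw [div_mul_cancel₀ _ hbp.ne']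
      exact (hmem c).1 hγ)
    have hn' : c = n * |b| := by
      rw [← hn, div_mul_cancel₀ _ hbp.ne']
    refine ⟨n, ?_, ?_⟩
    · rintro rfl
      apply hc
      rw [hn']
      simp
    · rw [tv_smul, hs, ← hn']

/-! ### the cusps -/

theorem cusp (hd : Dsc Γ) (_hm : -1 ∈ Γ) (hp : Pck Γ) (hg : Gap Γ) :
    ∃ C : ℝ, ∀ g : SLR, (∃ γ ∈ Γ, Bd C (γ * g)) ∨ ∃ u ∈ UU Γ, nm (ac g⁻¹ u) < 1 := by
  obtain ⟨τ, hτ, hgap⟩ := hg
  set δ : ℝ := min (τ / 2) (1 / 2) with hδ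
  have hδ0 : 0 < δ := lt_min (by positivity) (by norm_num)
  have hδ1 : 2 * δ ≤ τ := by linarith [min_le_left (τ / 2) (1 / 2 : ℝ)]
  have hδ2 : 2 * δ ≤ 1 := by linarith [min_le_right (τ / 2) (1 / 2 : ℝ)]
  obtain ⟨C, hC⟩ := hp δ hδ0
  refine ⟨C, fun g => ?_⟩
  rcases hC g with h | ⟨γ, hγ, hγ1, -, hn⟩
  · exact Or.inl h
  · right
    have o01 : (1 : Matrix (Fin 2) (Fin 2) ℝ) 0 1 = 0 := Matrix.one_apply_ne (by decide)
    have o10 : (1 : Matrix (Fin 2) (Fin 2) ℝ) 1 0 = 0 := Matrix.one_apply_ne (by decide)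
    have o00 : (1 : Matrix (Fin 2) (Fin 2) ℝ) 0 0 = 1 := Matrix.one_apply_eq _
    have o11 : (1 : Matrix (Fin 2) (Fin 2) ℝ) 1 1 = 1 := Matrix.one_apply_eq _
    have htr : γ.1.trace = (g⁻¹ * γ * g).1.trace := by
      have := tr_conj' g⁻¹ γ
      rw [inv_inv] at this
      exact this.symm
    have n00 := hn 0 0
    have n01 := hn 0 1
    have n10 := hn 1 0
    have n11 := hn 1 1
    rw [o00, abs_lt] at n00
    rw [o11, abs_lt] at n11
    rw [o01, sub_zero] at n01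
    rw [o10, sub_zero] at n10
    have ht : γ.1.trace = 2 := by
      rw [tr_eq (g⁻¹ * γ * g)] at htr
      have hpos : 0 < γ.1.trace := by linarith
      rcases hgap γ hγ with h2 | h2
      · rwa [abs_of_pos hpos] at h2
      · exfalso
        rw [abs_of_pos hpos] at h2
        have h3 : |γ.1.trace - 2| < 2 * δ := by
          rw [abs_lt]
          constructor <;> linarith
        linarith
    obtain ⟨v, hv, n, hn0, hγv⟩ := exists_UU hd hγ ht hγ1
    refine ⟨v, hv, ?_⟩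
    have hconj : g⁻¹ * γ * g = tv n (ac g⁻¹ v) := by
      rw [hγv, ← tv_conj, inv_inv]
    rw [hconj] at n01 n10
    rw [tv01] at n01
    rw [tv10, abs_neg] at n10
    have hn1 : (1 : ℝ) ≤ |(n : ℝ)| := by
      have := Int.one_le_abs hn0
      exact_mod_cast this
    rw [abs_mul, abs_of_nonneg (mul_self_nonneg (ac g⁻¹ v 0))] at n01
    rw [abs_mul, abs_of_nonneg (mul_self_nonneg (ac g⁻¹ v 1))] at n10
    have m0 := mul_self_nonneg (ac g⁻¹ v 0)
    have m1 := mul_self_nonneg (ac g⁻¹ v 1)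
    unfold nm
    nlinarith

/-! ### Cholesky -/

theorem chol {Y : Qf} (hY : Ps Y) : ∃ g : SLR, ∀ x, ev Y x = √(ds Y) * nm (ac g⁻¹ x) := by
  obtain ⟨h0, h1⟩ := hY
  set s := √(ds Y) with hs
  have hs0 : 0 < s := Real.sqrt_pos.2 h1
  have hs2 : s ^ 2 = ds Y := Real.sq_sqrt h1.le
  set r := √(Y 0 / s) with hr
  have hr0 : 0 < r := Real.sqrt_pos.2 (by positivity)
  have hr2 : r ^ 2 = Y 0 / s := Real.sq_sqrt (by positivity)
  let h : SLR := mkS r (r * (Y 1 / Y 0)) 0 (1 / r) (by field_simp; ring)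
  refine ⟨h⁻¹, fun x => ?_⟩
  rw [inv_inv]
  unfold nm
  rw [ac0, ac1]
  have e : (r * x 0 + r * (Y 1 / Y 0) * x 1) ^ 2 + (0 * x 0 + 1 / r * x 1) ^ 2 =
      r ^ 2 * (x 0 + Y 1 / Y 0 * x 1) ^ 2 + 1 / r ^ 2 * x 1 ^ 2 := by
    field_simp
    ring
  change ev Y x = s * ((r * x 0 + r * (Y 1 / Y 0) * x 1) ^ 2 + (0 * x 0 + 1 / r * x 1) ^ 2)
  rw [e, hr2]
  unfold ev
  unfold ds at hs2
  have h0' := h0.ne'
  field_simp
  linear_combination (-(x 1) ^ 2) * hs2

/-! ### `CU (UU Γ)` -/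

theorem nm_ac_inv_le {h : SLR} {C : ℝ} (hC : Bd C h) (u : V2) :
    nm (ac h⁻¹ u) ≤ 4 * C ^ 2 * nm u := by
  have i00 : (h⁻¹).1 0 0 = h.1 1 1 := by rw [inv1, Matrix.adjugate_fin_two]; rfl
  have i01 : (h⁻¹).1 0 1 = -h.1 0 1 := by rw [inv1, Matrix.adjugate_fin_two]; rfl
  have i10 : (h⁻¹).1 1 0 = -h.1 1 0 := by rw [inv1, Matrix.adjugate_fin_two]; rfl
  have i11 : (h⁻¹).1 1 1 = h.1 0 0 := by rw [inv1, Matrix.adjugate_fin_two]; rfl
  have hb : ∀ i j, h.1 i j ^ 2 ≤ C ^ 2 := fun i j =>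
    sq_le_sq' (neg_le_of_abs_le (hC i j)) (le_of_abs_le (hC i j))
  have b00 := hb 0 0
  have b01 := hb 0 1
  have b10 := hb 1 0
  have b11 := hb 1 1
  unfold nm
  rw [ac0, ac1, i00, i01, i10, i11]
  have key : ∀ p q x y : ℝ, p ^ 2 ≤ C ^ 2 → q ^ 2 ≤ C ^ 2 →
      (p * x + q * y) ^ 2 ≤ 2 * C ^ 2 * (x ^ 2 + y ^ 2) := by
    intro p q x y hp hq
    have e1 : (p * x + q * y) ^ 2 ≤ 2 * (p ^ 2 * x ^ 2) + 2 * (q ^ 2 * y ^ 2) := by
      nlinarith [sq_nonneg (p * x - q * y)]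
    have e2 : p ^ 2 * x ^ 2 ≤ C ^ 2 * x ^ 2 := mul_le_mul_of_nonneg_right hp (sq_nonneg _)
    have e3 : q ^ 2 * y ^ 2 ≤ C ^ 2 * y ^ 2 := mul_le_mul_of_nonneg_right hq (sq_nonneg _)
    linarith
  have k1 := key (h.1 1 1) (-h.1 0 1) (u 0) (u 1) b11 (by rw [neg_sq]; exact b01)
  have k2 := key (-h.1 1 0) (h.1 0 0) (u 0) (u 1) (by rw [neg_sq]; exact b10) b00
  linarith

theorem CU_of (hd : Dsc Γ) (hm : -1 ∈ Γ) (hp : Pck Γ) (hg : Gap Γ) (hne : (UU Γ).Nonempty) :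
    CU (UU Γ) where
  nz := fun _ hv => nz_UU hv
  neg := fun _ hv => neg_UU hv
  par := fun _ hv _ hw h => par_UU hv hw h
  sep := fun _ hv _ hw h => shimizu hd hv hw h
  fin := fin_UU hd
  deg := by
    obtain ⟨C, hC⟩ := cusp hd hm hp hg
    obtain ⟨u₀, hu₀⟩ := hne
    set K : ℝ := 4 * C ^ 2 * nm u₀ with hK
    have hK0 : 0 ≤ K := by
      have := nm_nn u₀
      positivity
    refine ⟨(1 / (K + 1)) ^ 2, by positivity, fun Y hY hds => ?_⟩
    obtain ⟨g, hgY⟩ := chol hY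
    have hs0 : 0 < √(ds Y) := Real.sqrt_pos.2 hY.2
    have hs1 : √(ds Y) < 1 / (K + 1) := by
      rw [Real.sqrt_lt' (by positivity)]
      exact hds
    have hs2 : √(ds Y) * (K + 1) < 1 := by
      rwa [lt_div_iff₀ (by positivity)] at hs1
    rcases hC g with ⟨γ, hγ, hb⟩ | ⟨u, hu, hnm⟩
    · refine ⟨ac γ⁻¹ u₀, ac_UU (Γ.inv_mem hγ) hu₀, ?_⟩
      rw [hgY, ← ac_mul, ← _root_.mul_inv_rev]
      have h1 := nm_ac_inv_le hb u₀
      have h2 : √(ds Y) * nm (ac (γ * g)⁻¹ u₀) ≤ √(ds Y) * K :=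
        mul_le_mul_of_nonneg_left h1 hs0.le
      nlinarith
    · refine ⟨u, hu, ?_⟩
      rw [hgY]
      have h2 : √(ds Y) * nm (ac g⁻¹ u) < √(ds Y) * 1 := mul_lt_mul_of_pos_left hnm hs0
      nlinarith

theorem ne_of (hd : Dsc Γ) (hm : -1 ∈ Γ) (hp : Pck Γ) (hg : Gap Γ)
    (h : ∀ C : ℝ, ∃ g : SLR, ∀ γ ∈ Γ, ¬ Bd C (γ * g)) : (UU Γ).Nonempty := by
  obtain ⟨C, hC⟩ := cusp hd hm hp hg
  obtain ⟨g, hg'⟩ := h C
  rcases hC g with ⟨γ, hγ, hb⟩ | ⟨u, hu, -⟩
  · exact absurd hb (hg' γ hγ)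
  · exact ⟨u, hu⟩

end Pool.Agent.ToF
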