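import Pool.Agent.Lib.MP_305fdd_al.To.F.Lit
import Pool.Agent.Lib.MP_305fdd_al.To.F.Gap
import Pool.Agent.Lib.MP_305fdd_al.To.F.Par
import Pool.Agent.Lib.MP_305fdd_al.To.F.Conn
import Pool.Agent.Lib.MP_305fdd_al.To.F.Bridge
import Pool.Agent.Lib.MP_305fdd_al.To.F.OrbFin
import Pool.Agent.Lib.MP_305fdd_al.To.F.F5
import Pool.Agent.Lib.MP_305fdd_al.VF.Main
import Pool.Agent.Lib.MP_305fdd_al.Fr.Asm.Rigid

/-!
# MP_305fdd_al, torsion room, block F: lattices which are not cocompact

`p_FP`: the image in `PSL(2, ℝ)` of a discrete subgroup of `SL(2, ℝ)` with the packing property which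
is not cocompact is a free product of finitely many cyclic groups.
-/

set_option autoImplicit false

namespace Pool.Agent.ToF

open Matrix MeasureTheory Pool.Agent.ToN Pool.Agent.MP_305fdd_al Pool.Agent.Lib.MP_305fdd_al

/-- THE GRAPH OF THE PERFECT FORMS IS A TREE -/
theorem CU.tree {U : Set V2} (h : CU U) : (Tr U).IsTree := ⟨h.connected, bridge h⟩

/-- **NON-COCOMPACT LATTICES ARE FREE PRODUCTS OF CYCLIC GROUPS** -/
theorem p_FP : S_FP := by
  intro Γ hd hm hp hn
  have hg := gap hd hp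
  obtain ⟨_, h1, h2, h3, h4⟩ := orb hd (CU_of hd hm hp hg (ne_of hd hm hp hg hn))
    (fun γ hγ v hv => ac_UU hγ hv) (cusp hd hm hp hg)
  exact free_prod_of_tree (CU_of hd hm hp hg (ne_of hd hm hp hg hn)).tree h1 h2 h3 h4

/-- free products of cyclic groups are profinitely rigid -/
theorem p_FR : S_FR := fun n m =>
  Pool.Agent.VF.rigid_coprodI (fun r _ => Pool.Agent.FrAsm.rigid r)
    (fun i : Fin n => Multiplicative (ZMod (m i))) (fun _ => inferInstance) (MulEquiv.refl _)

end Pool.Agent.ToF
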