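import Pool.Agent.Lib.MP_305fdd_al.To.F.Act

/-!
# MP_305fdd_al, torsion room, block F4c: stabilisers and orbits
-/

set_option autoImplicit false

namespace Pool.Agent.ToF

open Matrix Pool.Agent.ToN

/-! ### matrices which fix a form -/

/-- the two linear equations -/
theorem fix_eq {A : SLR} {Y : Qf} (h : pull A Y = Y) :
    Y 0 * A.1 0 1 + Y 2 * A.1 1 0 = 0 ∧ Y 2 * (A.1 0 0 - A.1 1 1) = 2 * Y 1 * A.1 0 1 := by
  have hA := slr_det A
  have h0 := congrFun h 0
  have h1 := congrFun h 1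
  have h2 := congrFun h 2
  unfold pull at h0 h1 h2
  simp only [ac0, ac1, ev, Matrix.cons_val_zero, Matrix.cons_val_one, Matrix.cons_val] at h0 h1 h2
  generalize A.1 0 0 = a at *
  generalize A.1 0 1 = b at *
  generalize A.1 1 0 = c at *
  generalize A.1 1 1 = e at *
  constructor
  · linear_combination e * h1 - c * h2 - (Y 0 * b + Y 1 * e) * hA
  · linear_combination b * h1 - a * h2 + (Y 1 * b + Y 2 * e) * hA

/-- a matrix which fixes two forms that are equal at some vector is `± 1` -/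
theorem fix_two {A : SLR} {Y Y' : Qf} (hY : Ps Y) (hY' : Ps Y') (h : pull A Y = Y)
    (h' : pull A Y' = Y') (hne : Y ≠ Y') {v : V2} (hv : ev Y v = ev Y' v) (hv0 : v ≠ 0) :
    PM A 1 := by
  obtain ⟨h1, h2⟩ := fix_eq h
  obtain ⟨h1', h2'⟩ := fix_eq h'
  have hA := slr_det A
  have hp := hY.two
  have hp' := hY'.two
  by_cases hb : A.1 0 1 = 0
  · rw [hb] at h1 h2
    have hc : A.1 1 0 = 0 := by
      have : Y 2 * A.1 1 0 = 0 := by linarith
      exact (mul_eq_zero.1 this).resolve_left hp.ne'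
    have ha : A.1 0 0 = A.1 1 1 := by
      have : Y 2 * (A.1 0 0 - A.1 1 1) = 0 := by rw [h2]; ring
      exact sub_eq_zero.1 ((mul_eq_zero.1 this).resolve_left hp.ne')
    rw [hb, hc, ← ha] at hA
    have h3 : (A.1 0 0 - 1) * (A.1 0 0 + 1) = 0 := by linarith
    rcases mul_eq_zero.1 h3 with h4 | h4
    · left
      have h5 : A.1 0 0 = 1 := by linarith
      have : A = 1 := slr_ext (by rw [h5]; rfl) (by rw [hb]; rfl) (by rw [hc]; rfl)
        (by rw [← ha, h5]; rfl)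
      rw [this]
    · right
      have h5 : A.1 0 0 = -1 := by linarith
      ext i j
      fin_cases i <;> fin_cases j
      · show A.1 0 0 = -((1 : Matrix (Fin 2) (Fin 2) ℝ) 0 0)
        rw [h5, Matrix.one_apply_eq]
      · show A.1 0 1 = -((1 : Matrix (Fin 2) (Fin 2) ℝ) 0 1)
        rw [hb, Matrix.one_apply_ne (by decide), neg_zero]
      · show A.1 1 0 = -((1 : Matrix (Fin 2) (Fin 2) ℝ) 1 0)
        rw [hc, Matrix.one_apply_ne (by decide), neg_zero]
      · show A.1 1 1 = -((1 : Matrix (Fin 2) (Fin 2) ℝ) 1 1)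
        rw [← ha, h5, Matrix.one_apply_eq]
  · exfalso
    -- the forms are proportional
    have k0 : Y 0 * Y' 2 = Y' 0 * Y 2 := by
      have : A.1 0 1 * (Y 0 * Y' 2 - Y' 0 * Y 2) = 0 := by
        linear_combination Y' 2 * h1 - Y 2 * h1'
      exact sub_eq_zero.1 ((mul_eq_zero.1 this).resolve_left hb)
    have k1 : Y 1 * Y' 2 = Y' 1 * Y 2 := by
      have : A.1 0 1 * (Y 1 * Y' 2 - Y' 1 * Y 2) = 0 := by
        linear_combination (-(1 : ℝ) / 2) * (Y' 2 * h2 - Y 2 * h2')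
      exact sub_eq_zero.1 ((mul_eq_zero.1 this).resolve_left hb)
    have k2 : Y' 2 * ev Y v = Y 2 * ev Y' v := by
      unfold ev
      linear_combination v 0 ^ 2 * k0 + 2 * (v 0 * v 1) * k1
    have hev := ev_pos hY hv0
    rw [← hv] at k2
    have k3 : Y' 2 = Y 2 := mul_right_cancel₀ hev.ne' k2
    apply hne
    funext i
    fin_cases i
    · show Y 0 = Y' 0
      rw [k3] at k0
      exact mul_right_cancel₀ hp.ne' k0
    · show Y 1 = Y' 1
      rw [k3] at k1
      exact mul_right_cancel₀ hp.ne' k1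
    · exact k3.symm

/-! ### bounded subsets of a discrete group are finite -/

theorem Bd.inv {C : ℝ} {A : SLR} (h : Bd C A) : Bd C A⁻¹ := by
  intro i j
  rw [inv1, Matrix.adjugate_fin_two]
  fin_cases i <;> fin_cases j <;> simp <;> exact h _ _

theorem finBd {Γ : Subgroup SLR} (hd : Dsc Γ) (C : ℝ) : {γ : SLR | γ ∈ Γ ∧ Bd C γ}.Finite := by
  obtain ⟨ε, hε, h⟩ := hd
  by_cases hC : C < 0
  · convert Set.finite_empty
    ext γ
    simp only [Set.mem_empty_iff_false, iff_false]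
    rintro ⟨-, h2⟩
    have := h2 0 0
    have := abs_nonneg (γ.1 0 0)
    linarith
  push Not at hC
  set δ : ℝ := ε / (2 * C + 1) with hδ
  have hδ0 : 0 < δ := by positivity
  have hinj : Set.InjOn (fun γ : SLR => fun i j => ⌊γ.1 i j / δ⌋) {γ : SLR | γ ∈ Γ ∧ Bd C γ} := by
    rintro α ⟨hα, hα'⟩ β ⟨hβ, hβ'⟩ hab
    have h1 : ∀ i j, |β.1 i j - α.1 i j| < δ := by
      intro i j
      have h2 : ⌊α.1 i j / δ⌋ = ⌊β.1 i j / δ⌋ := congrFun (congrFun hab i) j
      have h3 := Int.abs_sub_lt_one_of_floor_eq_floor h2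
      rw [← sub_div, abs_div, abs_of_pos hδ0, div_lt_one hδ0, abs_sub_comm] at h3
      exact h3
    have h4 := h (α⁻¹ * β) (Γ.mul_mem (Γ.inv_mem hα) hβ) (by
      intro i j
      have e : (α⁻¹ * β).1 i j - (1 : Matrix (Fin 2) (Fin 2) ℝ) i j =
          (α⁻¹).1 i 0 * (β.1 0 j - α.1 0 j) + (α⁻¹).1 i 1 * (β.1 1 j - α.1 1 j) := by
        have e1 : (1 : Matrix (Fin 2) (Fin 2) ℝ) i j = (α⁻¹ * α).1 i j := by
          rw [inv_mul_cancel]
          rfl
        rw [e1, mul1, mul1, Matrix.mul_apply, Matrix.mul_apply, Fin.sum_univ_two,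
          Fin.sum_univ_two]
        ring
      rw [e]
      have hi := hα'.inv
      have b0 := hi i 0
      have b1 := hi i 1
      have c0 := h1 0 j
      have c1 := h1 1 j
      calc |(α⁻¹).1 i 0 * (β.1 0 j - α.1 0 j) + (α⁻¹).1 i 1 * (β.1 1 j - α.1 1 j)|
          ≤ |(α⁻¹).1 i 0 * (β.1 0 j - α.1 0 j)| + |(α⁻¹).1 i 1 * (β.1 1 j - α.1 1 j)| :=
            abs_add_le _ _
        _ ≤ C * δ + C * δ := by
            rw [abs_mul, abs_mul]
            exact add_le_add (mul_le_mul b0 c0.le (abs_nonneg _) hC)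
              (mul_le_mul b1 c1.le (abs_nonneg _) hC)
        _ < ε := by
            have : (2 * C + 1) * δ = ε := by
              rw [hδ]
              field_simp
            nlinarith)
    exact (inv_mul_eq_one.1 h4)
  refine Set.Finite.of_finite_image ?_ hinj
  have hfin : (Set.univ.pi fun _ : Fin 2 => Set.univ.pi fun _ : Fin 2 =>
      Set.Icc (⌊-C / δ⌋) (⌊C / δ⌋)).Finite :=
    Set.Finite.pi fun _ => Set.Finite.pi fun _ => Set.finite_Icc _ _
  apply hfin.subset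
  rintro _ ⟨γ, ⟨hγ, hγ'⟩, rfl⟩
  intro i _ j _
  have := abs_le.1 (hγ' i j)
  constructor
  · exact Int.floor_le_floor (div_le_div_of_nonneg_right this.1 hδ0.le)
  · exact Int.floor_le_floor (div_le_div_of_nonneg_right this.2 hδ0.le)

/-! ### the stabiliser of a form is cyclic -/

section

variable {Γ : Subgroup SLR} {Y : Qf}

/-- the stabiliser of a form in `Γ` -/
def stb (Γ : Subgroup SLR) (Y : Qf) : Subgroup SLR where
  carrier := {γ | γ ∈ Γ ∧ pull γ Y = Y}
  mul_mem' := by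
    rintro a b ⟨ha, ha'⟩ ⟨hb, hb'⟩
    refine ⟨Γ.mul_mem ha hb, ?_⟩
    rw [← pull_pull, ha', hb']
  one_mem' := ⟨Γ.one_mem, pull_one Y⟩
  inv_mem' := by
    rintro a ⟨ha, ha'⟩
    refine ⟨Γ.inv_mem ha, ?_⟩
    have := congrArg (pull a⁻¹) ha'
    rw [pull_pull, mul_inv_cancel, pull_one] at this
    exact this.symm

/-- the coordinates of an element of the stabiliser -/
theorem stb_coord (hY : Ps Y) {A : SLR} (h : pull A Y = Y) :
    ∃ x y : ℝ, A.1 0 0 = x + y * Y 1 ∧ A.1 0 1 = y * Y 2 ∧ A.1 1 0 = -(y * Y 0) ∧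
      A.1 1 1 = x - y * Y 1 ∧ x ^ 2 + ds Y * y ^ 2 = 1 := by
  obtain ⟨h1, h2⟩ := fix_eq h
  have hp := hY.two
  have hA := slr_det A
  have e01 : A.1 0 1 = A.1 0 1 / Y 2 * Y 2 := by field_simp
  have e10 : A.1 1 0 = -(A.1 0 1 / Y 2 * Y 0) := by
    field_simp
    linarith
  have e00 : A.1 0 0 = (A.1 0 0 + A.1 1 1) / 2 + A.1 0 1 / Y 2 * Y 1 := by
    field_simp
    linarith
  have e11 : A.1 1 1 = (A.1 0 0 + A.1 1 1) / 2 - A.1 0 1 / Y 2 * Y 1 := by
    field_simp
    linarith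
  refine ⟨(A.1 0 0 + A.1 1 1) / 2, A.1 0 1 / Y 2, e00, e01, e10, e11, ?_⟩
  generalize (A.1 0 0 + A.1 1 1) / 2 = x at *
  generalize A.1 0 1 / Y 2 = y at *
  rw [e00, e01, e10, e11] at hA
  unfold ds
  linarith

/-- the stabiliser embeds into the unit circle -/
noncomputable def stbC (hY : Ps Y) : stb Γ Y →* ℂ where
  toFun A := ⟨(A.1.1 0 0 + A.1.1 1 1) / 2, √(ds Y) * (A.1.1 0 1 / Y 2)⟩
  map_one' := by
    apply Complex.ext
    · show ((1 : Matrix (Fin 2) (Fin 2) ℝ) 0 0 + (1 : Matrix (Fin 2) (Fin 2) ℝ) 1 1) / 2 = 1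
      rw [Matrix.one_apply_eq, Matrix.one_apply_eq]
      norm_num
    · show √(ds Y) * ((1 : Matrix (Fin 2) (Fin 2) ℝ) 0 1 / Y 2) = 0
      rw [Matrix.one_apply_ne (by decide), zero_div, mul_zero]
  map_mul' A B := by
    obtain ⟨x, y, a00, a01, a10, a11, -⟩ := stb_coord hY A.2.2
    obtain ⟨x', y', b00, b01, b10, b11, -⟩ := stb_coord hY B.2.2
    have hp := hY.two
    have hs : √(ds Y) * √(ds Y) = ds Y := Real.mul_self_sqrt hY.2.le
    apply Complex.ext
    · show ((A.1 * B.1).1 0 0 + (A.1 * B.1).1 1 1) / 2 =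
        (A.1.1 0 0 + A.1.1 1 1) / 2 * ((B.1.1 0 0 + B.1.1 1 1) / 2) -
          √(ds Y) * (A.1.1 0 1 / Y 2) * (√(ds Y) * (B.1.1 0 1 / Y 2))
      rw [mul00, mul11, a00, a01, a10, a11, b00, b01, b10, b11, mul_div_cancel_right₀ _ hp.ne',
        mul_div_cancel_right₀ _ hp.ne']
      unfold ds at hs ⊢
      linear_combination y * y' * hs
    · show √(ds Y) * ((A.1 * B.1).1 0 1 / Y 2) =
        (A.1.1 0 0 + A.1.1 1 1) / 2 * (√(ds Y) * (B.1.1 0 1 / Y 2)) +
          √(ds Y) * (A.1.1 0 1 / Y 2) * ((B.1.1 0 0 + B.1.1 1 1) / 2)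
      have e : (A.1 * B.1).1 0 1 = (x * y' + y * x') * Y 2 := by
        rw [mul01, a00, a01, b01, b11]
        ring
      rw [e, a00, a01, a11, b00, b01, b11, mul_div_cancel_right₀ _ hp.ne',
        mul_div_cancel_right₀ _ hp.ne', mul_div_cancel_right₀ _ hp.ne']
      ring

theorem stbC_inj (hY : Ps Y) : Function.Injective (stbC (Γ := Γ) hY) := by
  intro A B h
  obtain ⟨x, y, a00, a01, a10, a11, -⟩ := stb_coord hY A.2.2
  obtain ⟨x', y', b00, b01, b10, b11, -⟩ := stb_coord hY B.2.2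
  have hp := hY.two
  have hs : 0 < √(ds Y) := Real.sqrt_pos.2 hY.2
  have h1 : (A.1.1 0 0 + A.1.1 1 1) / 2 = (B.1.1 0 0 + B.1.1 1 1) / 2 := congrArg Complex.re h
  have h2 : √(ds Y) * (A.1.1 0 1 / Y 2) = √(ds Y) * (B.1.1 0 1 / Y 2) := congrArg Complex.im h
  have h3 := mul_left_cancel₀ hs.ne' h2
  rw [a01, b01, mul_div_cancel_right₀ _ hp.ne', mul_div_cancel_right₀ _ hp.ne'] at h3
  rw [a00, a11, b00, b11] at h1
  have h4 : x = x' := by linarith
  apply Subtype.ext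
  apply slr_ext
  · rw [a00, b00, h3, h4]
  · rw [a01, b01, h3]
  · rw [a10, b10, h3]
  · rw [a11, b11, h3, h4]

theorem stb_finite (hd : Dsc Γ) (hY : Ps Y) : Finite (stb Γ Y) := by
  have hds := hY.2
  set K : ℝ := 1 + 1 / ds Y with hK
  have hK0 : 0 < K := by positivity
  set C : ℝ := 1 + K * (|Y 0| + |Y 1| + |Y 2|) with hC
  have h1 : {γ : SLR | γ ∈ stb Γ Y} ⊆ {γ : SLR | γ ∈ Γ ∧ Bd C γ} := by
    rintro A ⟨hA, hA'⟩
    refine ⟨hA, ?_⟩
    obtain ⟨x, y, a00, a01, a10, a11, hxy⟩ := stb_coord hY hA'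
    have hx : |x| ≤ 1 := by
      have : 0 ≤ ds Y * y ^ 2 := by positivity
      exact abs_le_one_iff_mul_self_le_one.2 (by nlinarith)
    have hy : |y| ≤ K := by
      have h2 : y ^ 2 ≤ 1 / ds Y := by
        rw [le_div_iff₀ hds]
        nlinarith [sq_nonneg x]
      have h3 : |y| ^ 2 ≤ 1 / ds Y := by rwa [sq_abs]
      have h4 : 0 < 1 / ds Y := by positivity
      have h5 := abs_nonneg y
      nlinarith
    have k0 := abs_nonneg (Y 0)
    have k1 := abs_nonneg (Y 1)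
    have k2 := abs_nonneg (Y 2)
    have m0 : |y| * |Y 0| ≤ K * |Y 0| := mul_le_mul_of_nonneg_right hy k0
    have m1 : |y| * |Y 1| ≤ K * |Y 1| := mul_le_mul_of_nonneg_right hy k1
    have m2 : |y| * |Y 2| ≤ K * |Y 2| := mul_le_mul_of_nonneg_right hy k2
    have n0 : 0 ≤ K * |Y 0| := by positivity
    have n1 : 0 ≤ K * |Y 1| := by positivity
    have n2 : 0 ≤ K * |Y 2| := by positivity
    have hC' : C = 1 + K * |Y 0| + K * |Y 1| + K * |Y 2| := by rw [hC]; ring
    intro i j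
    fin_cases i <;> fin_cases j
    · show |A.1 0 0| ≤ C
      rw [a00]
      have := abs_add_le x (y * Y 1)
      rw [abs_mul] at this
      linarith
    · show |A.1 0 1| ≤ C
      rw [a01, abs_mul]
      linarith
    · show |A.1 1 0| ≤ C
      rw [a10, abs_neg, abs_mul]
      linarith
    · show |A.1 1 1| ≤ C
      rw [a11]
      have := abs_sub x (y * Y 1)
      rw [abs_mul] at this
      linarith
  exact ((finBd hd C).subset h1).to_subtype

theorem stb_cyclic (hd : Dsc Γ) (hY : Ps Y) : IsCyclic (stb Γ Y) := by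
  have := stb_finite hd hY
  exact isCyclic_of_injective_ringHom (stbC hY) (stbC_inj hY)

end

end Pool.Agent.ToF
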