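import Pool.Agent.Lib.MP_305fdd_al.To.F.Main

/-! MP_305fdd_al, block F: see To/F/Main.lean. -/
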