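import Mathlib.MeasureTheory.Measure.Lebesgue.EqHaar
import Mathlib.MeasureTheory.Measure.Haar.OfBasis
import Mathlib.LinearAlgebra.Matrix.SpecialLinearGroup
import Mathlib.LinearAlgebra.Matrix.ToLin
import Mathlib.Topology.Algebra.Group.Matrix
import Mathlib.Topology.Compactness.Lindelof
import Mathlib.Tactic

/-!
# MP_305fdd_al, torsion room, block F: packing

A discrete subgroup of `SL(2, ℝ)` of finite covolume (in the sense of the volume of the cone over an
arbitrary set of representatives): an element `g` is bounded modulo `Γ` or `g⁻¹ Γ g` contains an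
element different from `1` and `-1` and close to `1`.
-/

set_option autoImplicit false

namespace Pool.Agent.ToFP

open MeasureTheory Matrix Set

/-- `SL(2, ℝ)` -/
abbrev SLF : Type := Matrix.SpecialLinearGroup (Fin 2) ℝ

/-- the space of matrices as a product of lines -/
abbrev VV : Type := Fin 2 → Fin 2 → ℝ

/-! ### left multiplication preserves the volume -/

/-- transposition -/
def tp : VV →ₗ[ℝ] VV where
  toFun M i j := M j i
  map_add' _ _ := rfl
  map_smul' _ _ := rfl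

theorem det_tp : LinearMap.det tp * LinearMap.det tp = 1 := by
  rw [← LinearMap.det_comp]
  have : tp ∘ₗ tp = LinearMap.id := by
    ext M
    rfl
  rw [this, LinearMap.det_id]

/-- the action of `γ` on each row -/
noncomputable def rw2 (γ : SLF) : VV →ₗ[ℝ] VV :=
  LinearMap.pi fun i => (Matrix.toLin' (γ : Matrix (Fin 2) (Fin 2) ℝ)).comp (LinearMap.proj i)

theorem det_rw2 (γ : SLF) : LinearMap.det (rw2 γ) = 1 := by
  rw [rw2, LinearMap.det_pi, Fin.prod_univ_two, LinearMap.det_toLin', γ.2, mul_one]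

/-- left multiplication by `γ` -/
noncomputable def lm (γ : SLF) : VV →ₗ[ℝ] VV := (tp.comp (rw2 γ)).comp tp

theorem lm_apply (γ : SLF) (M : VV) (i j : Fin 2) :
    lm γ M i j = γ.1 i 0 * M 0 j + γ.1 i 1 * M 1 j := by
  show (Matrix.toLin' (γ : Matrix (Fin 2) (Fin 2) ℝ)) (fun k => M k j) i = _
  rw [Matrix.toLin'_apply, Matrix.mulVec, dotProduct, Fin.sum_univ_two]

theorem det_lm (γ : SLF) : LinearMap.det (lm γ) = 1 := by
  rw [lm, LinearMap.det_comp, LinearMap.det_comp, det_rw2, mul_one, det_tp]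

theorem vol_lm (γ : SLF) (s : Set VV) : volume (lm γ '' s) = volume s := by
  rw [Measure.addHaar_image_linearMap, det_lm]
  simp

theorem lm_mul (γ δ : SLF) (M : VV) : lm (γ * δ) M = lm γ (lm δ M) := by
  funext i j
  simp only [lm_apply, Matrix.SpecialLinearGroup.coe_mul, Matrix.mul_apply, Fin.sum_univ_two]
  ring

theorem lm_one (M : VV) : lm 1 M = M := by
  funext i j
  rw [lm_apply]
  fin_cases i <;> simp

theorem lm_image (γ : SLF) (s : Set VV) : lm γ '' s = lm γ⁻¹ ⁻¹' s := by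
  ext M
  constructor
  · rintro ⟨N, hN, rfl⟩
    show lm γ⁻¹ (lm γ N) ∈ s
    rwa [← lm_mul, inv_mul_cancel, lm_one]
  · intro h
    exact ⟨lm γ⁻¹ M, h, by rw [← lm_mul, mul_inv_cancel, lm_one]⟩

theorem lm_measurable (γ : SLF) : Measurable (lm γ) :=
  (LinearMap.continuous_of_finiteDimensional (lm γ)).measurable

theorem lm_image_meas (γ : SLF) {s : Set VV} (hs : MeasurableSet s) :
    MeasurableSet (lm γ '' s) := by
  rw [lm_image]
  exact lm_measurable _ hs

/-! ### positive cones -/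

/-- the positive cone over a set of matrices -/
def coneP (S : Set SLF) : Set VV :=
  {M | ∃ f ∈ S, ∃ z : ℝ, 0 < z ∧ z ≤ 1 ∧ M = fun i j => z * f.1 i j}

theorem coneP_mono {S T : Set SLF} (h : S ⊆ T) : coneP S ⊆ coneP T := by
  rintro M ⟨f, hf, z, h1, h2, h3⟩
  exact ⟨f, h hf, z, h1, h2, h3⟩

theorem coneP_disj {S T : Set SLF} (h : Disjoint S T) : Disjoint (coneP S) (coneP T) := by
  rw [Set.disjoint_left]
  rintro M ⟨f, hf, z, h1, h2, h3⟩ ⟨f', hf', z', h1', h2', h3'⟩
  have hdf := f.2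
  have hdf' := f'.2
  rw [Matrix.det_fin_two] at hdf hdf'
  have e : ∀ i j, z * f.1 i j = z' * f'.1 i j := by
    intro i j
    have := congrFun (congrFun (h3.symm.trans h3') i) j
    exact this
  have hz : z ^ 2 = z' ^ 2 := by
    calc z ^ 2 = (z * f.1 0 0) * (z * f.1 1 1) - (z * f.1 0 1) * (z * f.1 1 0) := by
          linear_combination -z ^ 2 * hdf
      _ = (z' * f'.1 0 0) * (z' * f'.1 1 1) - (z' * f'.1 0 1) * (z' * f'.1 1 0) := by
          rw [e, e, e, e]
      _ = z' ^ 2 := by linear_combination z' ^ 2 * hdf'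
  have hzz : z = z' := by
    have : (z - z') * (z + z') = 0 := by linear_combination hz
    rcases mul_eq_zero.1 this with h | h
    · linarith
    · linarith
  have hff : f = f' := by
    apply Subtype.ext
    ext i j
    have := e i j
    rw [← hzz] at this
    exact mul_left_cancel₀ h1.ne' this
  rw [hff] at hf
  exact Set.disjoint_left.1 h hf hf'

theorem lm_coneP (γ : SLF) (S : Set SLF) : lm γ '' coneP S = coneP ((fun x => γ * x) '' S) := by
  have key : ∀ (δ f : SLF) (z : ℝ), lm δ (fun i j => z * f.1 i j)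
      = fun i j => z * (δ * f).1 i j := by
    intro δ f z
    funext i j
    simp only [lm_apply, Matrix.SpecialLinearGroup.coe_mul, Matrix.mul_apply, Fin.sum_univ_two]
    ring
  ext M
  constructor
  · rintro ⟨N, ⟨f, hf, z, h1, h2, rfl⟩, rfl⟩
    exact ⟨γ * f, ⟨f, hf, rfl⟩, z, h1, h2, key γ f z⟩
  · rintro ⟨_, ⟨f, hf, rfl⟩, z, h1, h2, rfl⟩
    exact ⟨_, ⟨f, hf, z, h1, h2, rfl⟩, key γ f z⟩

theorem coneP_iUnion {ι : Type*} (S : ι → Set SLF) : coneP (⋃ i, S i) = ⋃ i, coneP (S i) := by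
  ext M
  simp only [coneP, mem_ofPred_eq, mem_iUnion]
  constructor
  · rintro ⟨f, ⟨i, hf⟩, r⟩
    exact ⟨i, f, hf, r⟩
  · rintro ⟨i, f, hf, r⟩
    exact ⟨f, ⟨i, hf⟩, r⟩

/-- **a set which injects modulo `Γ` has at most the covolume** -/
theorem vol_le (Γ : Subgroup SLF) [Countable Γ] (F : Set SLF)
    (hF : ∀ g : SLF, ∃ γ ∈ Γ, ∃ f ∈ F, g = γ * f) (W : Set SLF) (hW : MeasurableSet (coneP W))
    (hd : ∀ γ ∈ Γ, γ ≠ 1 → ∀ w ∈ W, γ * w ∉ W) : volume (coneP W) ≤ volume (coneP F) := by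
  set B : Γ → Set VV := fun γ => lm (γ : SLF)⁻¹ '' coneP W with hB
  have hBm : ∀ γ, MeasurableSet (B γ) := fun γ => lm_image_meas _ hW
  have hBd : Pairwise (Function.onFun Disjoint B) := by
    intro γ δ hne
    show Disjoint (B γ) (B δ)
    rw [hB]
    simp only [lm_coneP]
    apply coneP_disj
    rw [Set.disjoint_left]
    rintro _ ⟨w, hw, rfl⟩ ⟨w', hw', h'⟩
    simp only at h'
    refine hd ((δ : SLF) * (γ : SLF)⁻¹) (Γ.mul_mem δ.2 (Γ.inv_mem γ.2)) ?_ w hw ?_
    · intro h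
      apply hne
      apply Subtype.ext
      exact (mul_inv_eq_one.1 h).symm
    · have : (δ : SLF) * (γ : SLF)⁻¹ * w = w' := by
        rw [mul_assoc, ← h', mul_inv_cancel_left]
      rw [this]
      exact hw'
  -- the cover
  have hcov : coneP W ⊆ ⋃ γ : Γ, lm (γ : SLF) '' (B γ ∩ coneP F) := by
    rintro M ⟨w, hw, z, h1, h2, rfl⟩
    obtain ⟨γ, hγ, f, hf, rfl⟩ := hF w
    rw [mem_iUnion]
    refine ⟨⟨γ, hγ⟩, fun i j => z * f.1 i j, ⟨?_, ⟨f, hf, z, h1, h2, rfl⟩⟩, ?_⟩
    · rw [hB]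
      simp only [lm_coneP]
      exact ⟨f, ⟨γ * f, hw, by simp⟩, z, h1, h2, rfl⟩
    · funext i j
      simp only [lm_apply, Matrix.SpecialLinearGroup.coe_mul, Matrix.mul_apply, Fin.sum_univ_two]
      ring
  calc volume (coneP W) ≤ volume (⋃ γ : Γ, lm (γ : SLF) '' (B γ ∩ coneP F)) := measure_mono hcov
    _ ≤ ∑' γ : Γ, volume (lm (γ : SLF) '' (B γ ∩ coneP F)) := measure_iUnion_le _
    _ = ∑' γ : Γ, (volume.restrict (coneP F)) (B γ) := by
        congr 1
        funext γ
        rw [vol_lm, Measure.restrict_apply (hBm γ)]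
    _ = (volume.restrict (coneP F)) (⋃ γ, B γ) := (measure_iUnion hBd hBm).symm
    _ ≤ (volume.restrict (coneP F)) univ := measure_mono (subset_univ _)
    _ = volume (coneP F) := Measure.restrict_apply_univ _

/-! ### neighbourhoods of one -/

/-- the matrices at distance less than `η` from `1` -/
def UU (η : ℝ) : Set SLF := {u | ∀ i j, |u.1 i j - (1 : Matrix (Fin 2) (Fin 2) ℝ) i j| < η}

/-- the determinant -/
def dd (M : VV) : ℝ := M 0 0 * M 1 1 - M 0 1 * M 1 0

theorem dd_cont : Continuous dd := by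
  unfold dd
  fun_prop

theorem coneP_UU (η : ℝ) : coneP (UU η) = {M | 0 < dd M ∧ dd M ≤ 1 ∧ ∀ i j,
    |M i j - Real.sqrt (dd M) * (1 : Matrix (Fin 2) (Fin 2) ℝ) i j| < η * Real.sqrt (dd M)} := by
  ext M
  constructor
  · rintro ⟨f, hf, z, h1, h2, rfl⟩
    have hdf := f.2
    rw [Matrix.det_fin_two] at hdf
    have hdd : dd (fun i j => z * f.1 i j) = z ^ 2 := by
      simp only [dd]
      linear_combination z ^ 2 * hdf
    have hs : Real.sqrt (dd (fun i j => z * f.1 i j)) = z := by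
      rw [hdd, Real.sqrt_sq h1.le]
    refine ⟨by rw [hdd]; positivity, by rw [hdd]; nlinarith, fun i j => ?_⟩
    rw [hs, ← mul_sub, abs_mul, abs_of_pos h1, mul_comm η z]
    exact mul_lt_mul_of_pos_left (hf i j) h1
  · rintro ⟨h1, h2, h3⟩
    set s := Real.sqrt (dd M) with hs
    have hs0 : 0 < s := Real.sqrt_pos.2 h1
    have hs2 : s ^ 2 = dd M := Real.sq_sqrt h1.le
    have hs1 : s ≤ 1 := by
      rw [hs]; exact Real.sqrt_le_one.2 h2
    refine ⟨⟨Matrix.of fun i j => s⁻¹ * M i j, ?_⟩, ?_, s, hs0, hs1, ?_⟩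
    · rw [Matrix.det_fin_two]
      simp only [Matrix.of_apply]
      have : s⁻¹ * M 0 0 * (s⁻¹ * M 1 1) - s⁻¹ * M 0 1 * (s⁻¹ * M 1 0) = (s ^ 2)⁻¹ * dd M := by
        rw [dd]; field_simp
      rw [this, hs2, inv_mul_cancel₀ h1.ne']
    · intro i j
      simp only [Matrix.of_apply]
      have e : s⁻¹ * M i j - (1 : Matrix (Fin 2) (Fin 2) ℝ) i j
          = s⁻¹ * (M i j - s * (1 : Matrix (Fin 2) (Fin 2) ℝ) i j) := by
        rw [mul_sub, inv_mul_cancel_left₀ hs0.ne']
      rw [e, abs_mul, abs_of_pos (inv_pos.2 hs0)]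
      calc s⁻¹ * |M i j - s * (1 : Matrix (Fin 2) (Fin 2) ℝ) i j| < s⁻¹ * (η * s) :=
            mul_lt_mul_of_pos_left (h3 i j) (inv_pos.2 hs0)
        _ = η := by field_simp
    · funext i j
      simp only [Matrix.of_apply]
      rw [mul_inv_cancel_left₀ hs0.ne']

theorem coneP_UU_meas (η : ℝ) : MeasurableSet (coneP (UU η)) := by
  rw [coneP_UU]
  have hc : Continuous fun M : VV => Real.sqrt (dd M) := Real.continuous_sqrt.comp dd_cont
  have h1 : MeasurableSet {M : VV | 0 < dd M} := (isOpen_lt continuous_const dd_cont).measurableSet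
  have h2 : MeasurableSet {M : VV | dd M ≤ 1} :=
    (isClosed_le dd_cont continuous_const).measurableSet
  have h3 : ∀ i j, MeasurableSet {M : VV |
      |M i j - Real.sqrt (dd M) * (1 : Matrix (Fin 2) (Fin 2) ℝ) i j| < η * Real.sqrt (dd M)} := by
    intro i j
    refine (isOpen_lt ?_ ?_).measurableSet
    · exact ((continuous_apply_apply i j).sub (hc.mul continuous_const)).abs
    · exact continuous_const.mul hc
  have : {M : VV | 0 < dd M ∧ dd M ≤ 1 ∧ ∀ i j,
      |M i j - Real.sqrt (dd M) * (1 : Matrix (Fin 2) (Fin 2) ℝ) i j| < η * Real.sqrt (dd M)}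
      = {M : VV | 0 < dd M} ∩ ({M : VV | dd M ≤ 1} ∩ ⋂ i, ⋂ j, {M : VV |
      |M i j - Real.sqrt (dd M) * (1 : Matrix (Fin 2) (Fin 2) ℝ) i j| < η * Real.sqrt (dd M)}) := by
    ext M
    simp
  rw [this]
  exact h1.inter (h2.inter (MeasurableSet.iInter fun i => MeasurableSet.iInter fun j => h3 i j))

theorem coneP_UU_pos {η : ℝ} (hη : 0 < η) : 0 < volume (coneP (UU η)) := by
  have hc : Continuous fun M : VV => Real.sqrt (dd M) := Real.continuous_sqrt.comp dd_cont
  set O : Set VV := {M : VV | 0 < dd M} ∩ ({M : VV | dd M < 1} ∩ ⋂ i, ⋂ j, {M : VV |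
      |M i j - Real.sqrt (dd M) * (1 : Matrix (Fin 2) (Fin 2) ℝ) i j| < η * Real.sqrt (dd M)})
    with hO
  have hOo : IsOpen O := by
    refine (isOpen_lt continuous_const dd_cont).inter ((isOpen_lt dd_cont continuous_const).inter ?_)
    refine isOpen_iInter_of_finite fun i => isOpen_iInter_of_finite fun j => isOpen_lt ?_ ?_
    · exact ((continuous_apply_apply i j).sub (hc.mul continuous_const)).abs
    · exact continuous_const.mul hc
  have hOn : O.Nonempty := by
    refine ⟨fun i j => (1 / 2) * (1 : Matrix (Fin 2) (Fin 2) ℝ) i j, ?_⟩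
    have hd : dd (fun i j => (1 / 2) * (1 : Matrix (Fin 2) (Fin 2) ℝ) i j) = (1 / 2) ^ 2 := by
      simp only [dd, Matrix.one_apply_eq]
      rw [Matrix.one_apply_ne (by decide)]
      ring
    have hs : Real.sqrt (dd (fun i j => (1 / 2) * (1 : Matrix (Fin 2) (Fin 2) ℝ) i j)) = 1 / 2 := by
      rw [hd, Real.sqrt_sq (by norm_num)]
    refine ⟨?_, ?_, ?_⟩
    · show 0 < dd _
      rw [hd]; norm_num
    · show dd _ < 1
      rw [hd]; norm_num
    · simp only [mem_iInter, mem_ofPred_eq]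
      intro i j
      rw [hs, sub_self, abs_zero]
      positivity
  refine (hOo.measure_pos volume hOn).trans_le (measure_mono ?_)
  rw [coneP_UU]
  rintro M ⟨h1, h2, h3⟩
  simp only [mem_iInter, mem_ofPred_eq] at h1 h2 h3
  exact ⟨h1, h2.le, h3⟩

/-- the sum of the absolute values of the entries -/
def nm (g : SLF) : ℝ := |g.1 0 0| + |g.1 0 1| + |g.1 1 0| + |g.1 1 1|

theorem nm_nonneg (g : SLF) : 0 ≤ nm g := by
  unfold nm; positivity

theorem le_nm (g : SLF) (i j : Fin 2) : |g.1 i j| ≤ nm g := by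
  have h0 := abs_nonneg (g.1 0 0)
  have h1 := abs_nonneg (g.1 0 1)
  have h2 := abs_nonneg (g.1 1 0)
  have h3 := abs_nonneg (g.1 1 1)
  unfold nm
  fin_cases i <;> fin_cases j <;> simp only [Fin.zero_eta, Fin.mk_one, Fin.isValue] <;> linarith

theorem nm_mul (g h : SLF) : nm (g * h) ≤ nm g * nm h := by
  have e : ∀ i j, |(g * h).1 i j| ≤ |g.1 i 0| * |h.1 0 j| + |g.1 i 1| * |h.1 1 j| := by
    intro i j
    rw [Matrix.SpecialLinearGroup.coe_mul, Matrix.mul_apply, Fin.sum_univ_two, ← abs_mul,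
      ← abs_mul]
    exact abs_add_le _ _
  have a0 := abs_nonneg (g.1 0 0)
  have a1 := abs_nonneg (g.1 0 1)
  have a2 := abs_nonneg (g.1 1 0)
  have a3 := abs_nonneg (g.1 1 1)
  have b0 := abs_nonneg (h.1 0 0)
  have b1 := abs_nonneg (h.1 0 1)
  have b2 := abs_nonneg (h.1 1 0)
  have b3 := abs_nonneg (h.1 1 1)
  have p1 := mul_nonneg a0 b2
  have p2 := mul_nonneg a0 b3
  have p3 := mul_nonneg a1 b0
  have p4 := mul_nonneg a1 b1
  have p5 := mul_nonneg a2 b2
  have p6 := mul_nonneg a2 b3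
  have p7 := mul_nonneg a3 b0
  have p8 := mul_nonneg a3 b1
  have := e 0 0
  have := e 0 1
  have := e 1 0
  have := e 1 1
  unfold nm
  nlinarith

theorem inv_entries (g : SLF) : (g⁻¹).1 0 0 = g.1 1 1 ∧ (g⁻¹).1 0 1 = -g.1 0 1 ∧
    (g⁻¹).1 1 0 = -g.1 1 0 ∧ (g⁻¹).1 1 1 = g.1 0 0 := by
  rw [Matrix.SpecialLinearGroup.coe_inv, Matrix.adjugate_fin_two]
  simp

theorem nm_inv (g : SLF) : nm g⁻¹ = nm g := by
  obtain ⟨h1, h2, h3, h4⟩ := inv_entries g
  unfold nm
  rw [h1, h2, h3, h4, abs_neg, abs_neg]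
  ring

theorem nm_UU {η : ℝ} (hη : η ≤ 1) {u : SLF} (hu : u ∈ UU η) : nm u ≤ 6 := by
  have h00 := hu 0 0
  have h01 := hu 0 1
  have h10 := hu 1 0
  have h11 := hu 1 1
  rw [Matrix.one_apply_eq] at h00 h11
  rw [Matrix.one_apply_ne (by decide), sub_zero] at h01 h10
  have k00 : |u.1 0 0| ≤ |u.1 0 0 - 1| + 1 := by
    have := abs_add_le (u.1 0 0 - 1) 1
    rwa [sub_add_cancel, abs_one] at this
  have k11 : |u.1 1 1| ≤ |u.1 1 1 - 1| + 1 := by
    have := abs_add_le (u.1 1 1 - 1) 1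
    rwa [sub_add_cancel, abs_one] at this
  unfold nm
  linarith

theorem UU_div {η δ : ℝ} (hη0 : 0 < η) (hη : η ≤ 1 / 2) (hδ : 4 * η ≤ δ) {u v : SLF}
    (hu : u ∈ UU η) (hv : v ∈ UU η) : u * v⁻¹ ∈ UU δ := by
  obtain ⟨i1, i2, i3, i4⟩ := inv_entries v
  have u00 := hu 0 0
  have u01 := hu 0 1
  have u10 := hu 1 0
  have u11 := hu 1 1
  have v00 := hv 0 0
  have v01 := hv 0 1
  have v10 := hv 1 0
  have v11 := hv 1 1
  rw [Matrix.one_apply_eq] at u00 u11 v00 v11
  rw [Matrix.one_apply_ne (by decide), sub_zero] at u01 u10 v01 v10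
  set a := u.1 0 0 - 1 with ha
  set b := u.1 0 1 with hb
  set c := u.1 1 0 with hc
  set d := u.1 1 1 - 1 with hd
  set a' := v.1 0 0 - 1 with ha'
  set b' := v.1 0 1 with hb'
  set c' := v.1 1 0 with hc'
  set d' := v.1 1 1 - 1 with hd'
  have key : ∀ x y p q r s : ℝ, |x| < η → |y| < η → |p| < η → |q| < η → |r| < η → |s| < η →
      |x + y + p * q + r * s| < δ := by
    intro x y p q r s hx hy hp hq hr hs
    have h1 : |p * q| ≤ η * (1 / 2) := by
      rw [abs_mul]
      exact mul_le_mul hp.le (hq.le.trans hη) (abs_nonneg _) hη0.le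
    have h2 : |r * s| ≤ η * (1 / 2) := by
      rw [abs_mul]
      exact mul_le_mul hr.le (hs.le.trans hη) (abs_nonneg _) hη0.le
    have h3 : |x + y + p * q + r * s| ≤ |x| + |y| + |p * q| + |r * s| := by
      have k1 := abs_add_le (x + y + p * q) (r * s)
      have k2 := abs_add_le (x + y) (p * q)
      have k3 := abs_add_le x y
      linarith
    linarith
  have e00 : (u * v⁻¹).1 0 0 - 1 = a + d' + a * d' + b * (-c') := by
    rw [Matrix.SpecialLinearGroup.coe_mul, Matrix.mul_apply, Fin.sum_univ_two, i1, i3, ha, hd', hb,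
      hc']
    ring
  have e01 : (u * v⁻¹).1 0 1 - 0 = b + -b' + a * (-b') + b * a' := by
    rw [Matrix.SpecialLinearGroup.coe_mul, Matrix.mul_apply, Fin.sum_univ_two, i2, i4, ha, ha', hb,
      hb']
    ring
  have e10 : (u * v⁻¹).1 1 0 - 0 = c + -c' + c * d' + d * (-c') := by
    rw [Matrix.SpecialLinearGroup.coe_mul, Matrix.mul_apply, Fin.sum_univ_two, i1, i3, hc, hc', hd,
      hd']
    ring
  have e11 : (u * v⁻¹).1 1 1 - 1 = d + a' + c * (-b') + d * a' := by
    rw [Matrix.SpecialLinearGroup.coe_mul, Matrix.mul_apply, Fin.sum_univ_two, i2, i4, hd, ha', hc,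
      hb']
    ring
  intro i j
  fin_cases i <;> fin_cases j <;> simp only [Fin.zero_eta, Fin.mk_one, Fin.isValue]
  · rw [Matrix.one_apply_eq, e00]
    exact key _ _ _ _ _ _ u00 v11 u00 v11 u01 (by rwa [abs_neg])
  · rw [Matrix.one_apply_ne (by decide), e01]
    exact key _ _ _ _ _ _ u01 (by rwa [abs_neg]) u00 (by rwa [abs_neg]) u01 v00
  · rw [Matrix.one_apply_ne (by decide), e10]
    exact key _ _ _ _ _ _ u10 (by rwa [abs_neg]) u10 v11 u11 (by rwa [abs_neg])
  · rw [Matrix.one_apply_eq, e11]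
    exact key _ _ _ _ _ _ u11 v00 u10 (by rwa [abs_neg]) u11 v00

/-! ### countability -/

theorem countable_of_disc (Γ : Subgroup SLF) (h : ∃ ε : ℝ, 0 < ε ∧ ∀ γ ∈ Γ,
    (∀ i j, ‖(γ : Matrix (Fin 2) (Fin 2) ℝ) i j - (1 : Matrix (Fin 2) (Fin 2) ℝ) i j‖ < ε) →
      γ = 1) : Countable Γ := by
  obtain ⟨ε, hε, h⟩ := h
  have h1 : IsOpen ({1} : Set Γ) := by
    have : ({1} : Set Γ) = ⋂ i, ⋂ j, {γ : Γ | ‖(γ : SLF).1 i j
        - (1 : Matrix (Fin 2) (Fin 2) ℝ) i j‖ < ε} := by
      ext γ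
      simp only [mem_singleton_iff, mem_iInter, mem_ofPred_eq]
      constructor
      · rintro rfl i j
        show ‖(1 : Matrix (Fin 2) (Fin 2) ℝ) i j - (1 : Matrix (Fin 2) (Fin 2) ℝ) i j‖ < ε
        rw [sub_self, norm_zero]
        exact hε
      · intro h2
        exact Subtype.ext (h γ γ.2 h2)
    rw [this]
    refine isOpen_iInter_of_finite fun i => isOpen_iInter_of_finite fun j => ?_
    refine isOpen_lt ?_ continuous_const
    have h0 : Continuous fun γ : SLF => (γ : Matrix (Fin 2) (Fin 2) ℝ) :=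
      (Matrix.SpecialLinearGroup.isClosedEmbedding_val (n := Fin 2) (R := ℝ)).continuous
    have h1 : Continuous fun γ : SLF => γ.1 i j := h0.matrix_elem i j
    have hc : Continuous fun γ : Γ => (γ : SLF).1 i j := h1.comp continuous_subtype_val
    exact (hc.sub continuous_const).norm
  have : DiscreteTopology Γ := discreteTopology_of_isOpen_singleton_one h1
  have : SecondCountableTopology SLF := by
    have : SecondCountableTopology (Matrix (Fin 2) (Fin 2) ℝ) :=
      inferInstanceAs (SecondCountableTopology (Fin 2 → Fin 2 → ℝ))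
    exact (Matrix.SpecialLinearGroup.isClosedEmbedding_val (n := Fin 2) (R := ℝ)
      ).isEmbedding.secondCountableTopology
  exact countable_of_Lindelof_of_discrete

/-! ### the packing theorem -/

/-- **packing**: for a discrete group of finite covolume, `g` is bounded modulo `Γ` or `g⁻¹ Γ g`
contains an element different from `1`, `-1` and close to `1` -/
theorem packing (Γ : Subgroup SLF)
    (hdisc : ∃ ε : ℝ, 0 < ε ∧ ∀ γ ∈ Γ,
      (∀ i j, ‖(γ : Matrix (Fin 2) (Fin 2) ℝ) i j - (1 : Matrix (Fin 2) (Fin 2) ℝ) i j‖ < ε) →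
        γ = 1)
    (F : Set SLF) (hF : ∀ g : SLF, ∃ γ ∈ Γ, ∃ f ∈ F, g = γ * f)
    (hvol : volume {M : Fin 2 → Fin 2 → ℝ | ∃ f ∈ F, ∃ z : ℝ, z ≠ 0 ∧ ‖z‖ ≤ 1 ∧
        M = fun i j => z * (f : Matrix (Fin 2) (Fin 2) ℝ) i j} < ⊤)
    (δ : ℝ) (hδ : 0 < δ) :
    ∃ C : ℝ, ∀ g : SLF, (∃ γ ∈ Γ, ∀ i j, |(γ * g).1 i j| ≤ C) ∨
      ∃ γ ∈ Γ, γ ≠ 1 ∧ γ ≠ -1 ∧
        ∀ i j, |(g⁻¹ * γ * g).1 i j - (1 : Matrix (Fin 2) (Fin 2) ℝ) i j| < δ := by
  classical
  have := countable_of_disc Γ hdisc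
  by_contra hcon
  push Not at hcon
  -- the size of the neighbourhood
  set η : ℝ := min (1 / 2) (δ / 4) with hη
  have hη0 : 0 < η := lt_min (by norm_num) (by linarith)
  have hη1 : η ≤ 1 / 2 := min_le_left _ _
  have hη2 : 4 * η ≤ δ := by have := min_le_right (1 / 2 : ℝ) (δ / 4); linarith
  -- the sequence
  obtain ⟨f, hf1, hf2⟩ := exists_seq_of_forall_finset_exists
    (fun g : SLF => ∀ γ ∈ Γ, γ ≠ 1 → γ ≠ -1 → ∃ i j,
      δ ≤ |(g⁻¹ * γ * g).1 i j - (1 : Matrix (Fin 2) (Fin 2) ℝ) i j|)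
    (fun x y : SLF => ∀ γ ∈ Γ, ∃ i j, 36 * nm x < |(γ * y).1 i j|)
    (by
      intro s _
      obtain ⟨g, hg1, hg2⟩ := hcon (∑ x ∈ s, 36 * nm x)
      refine ⟨g, hg2, fun x hx γ hγ => ?_⟩
      obtain ⟨i, j, hij⟩ := hg1 γ hγ
      refine ⟨i, j, lt_of_le_of_lt ?_ hij⟩
      exact Finset.single_le_sum (f := fun x => 36 * nm x)
        (fun y _ => mul_nonneg (by norm_num) (nm_nonneg y)) hx)
  -- translates of the neighbourhood do not meet
  have hmeet : ∀ m n : ℕ, m < n → ∀ γ ∈ Γ, ∀ u ∈ UU η, ∀ v ∈ UU η,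
      γ * (f n * u) ≠ f m * v := by
    intro m n hmn γ hγ u hu v hv he
    obtain ⟨i, j, hij⟩ := hf2 m n hmn γ hγ
    have e : γ * f n = f m * v * u⁻¹ := by
      rw [← he]; group
    have h1 : |(γ * f n).1 i j| ≤ 36 * nm (f m) := by
      rw [e]
      refine (le_nm _ i j).trans ?_
      have h2 := nm_mul (f m * v) u⁻¹
      have h3 := nm_mul (f m) v
      rw [nm_inv] at h2
      have h4 := nm_UU (by linarith) hu
      have h5 := nm_UU (by linarith) hv
      have h6 := nm_nonneg (f m)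
      have h7 := nm_nonneg u
      have h8 := nm_nonneg v
      calc nm (f m * v * u⁻¹) ≤ nm (f m * v) * nm u := h2
        _ ≤ (nm (f m) * nm v) * 6 := mul_le_mul h3 h4 h7 (mul_nonneg h6 h8)
        _ ≤ (nm (f m) * 6) * 6 :=
            mul_le_mul_of_nonneg_right (mul_le_mul_of_nonneg_left h5 h6) (by norm_num)
        _ = 36 * nm (f m) := by ring
    linarith
  set U : ℕ → Set SLF := fun n => (fun x => f n * x) '' UU η with hU
  have hUd : ∀ m n : ℕ, m ≠ n → Disjoint (U m) (U n) := by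
    have : ∀ m n : ℕ, m < n → Disjoint (U m) (U n) := by
      intro m n hmn
      rw [Set.disjoint_left]
      rintro _ ⟨v, hv, rfl⟩ ⟨u, hu, h⟩
      exact hmeet m n hmn 1 Γ.one_mem u hu v hv (by rw [one_mul]; exact h)
    intro m n hmn
    rcases lt_or_gt_of_ne hmn with h | h
    · exact this m n h
    · exact (this n m h).symm
  have hvolU : ∀ n, volume (coneP (U n)) = volume (coneP (UU η)) := by
    intro n
    rw [hU]
    simp only
    rw [← lm_coneP, vol_lm]
  have hUm : ∀ n, MeasurableSet (coneP (U n)) := by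
    intro n
    rw [hU]
    simp only
    rw [← lm_coneP]
    exact lm_image_meas _ (coneP_UU_meas η)
  have hle := vol_le Γ F hF (⋃ n, U n)
    (by rw [coneP_iUnion]; exact MeasurableSet.iUnion hUm)
    (by
      intro γ hγ hγ1 w hw hw'
      rw [mem_iUnion] at hw hw'
      obtain ⟨n, u, hu, rfl⟩ := hw
      obtain ⟨m, v, hv, he⟩ := hw'
      simp only at he
      rcases lt_trichotomy m n with h | h | h
      · exact hmeet m n h γ hγ u hu v hv he.symm
      · subst h
        have e : (f m)⁻¹ * γ * f m = v * u⁻¹ := by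
          rw [eq_mul_inv_iff_mul_eq]
          calc (f m)⁻¹ * γ * f m * u = (f m)⁻¹ * (γ * (f m * u)) := by group
            _ = v := by rw [← he]; group
        have hnear := UU_div hη0 hη1 hη2 hv hu
        by_cases hm1 : γ = -1
        · -- `v = -u`
          subst hm1
          have h3 : v = -u := by
            have h4 : f m * v = f m * (-u) := by
              rw [he]; simp
            exact mul_left_cancel h4
          have h5 := hv 0 0
          have h6 := hu 0 0
          rw [h3] at h5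
          rw [Matrix.one_apply_eq, abs_lt] at h5 h6
          have h7 : (-u).1 0 0 = -u.1 0 0 := by
            rw [Matrix.SpecialLinearGroup.coe_neg, Matrix.neg_apply]
          rw [h7] at h5
          linarith [h5.1, h6.1]
        · obtain ⟨i, j, hij⟩ := hf1 m γ hγ hγ1 hm1
          rw [e] at hij
          exact absurd (hnear i j) (not_lt.2 hij)
      · refine hmeet n m h γ⁻¹ (Γ.inv_mem hγ) v hv u hu ?_
        rw [he, inv_mul_cancel_left])
  -- the volume of the union is infinite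
  have hinf : volume (coneP (⋃ n, U n)) = ⊤ := by
    rw [coneP_iUnion, measure_iUnion (fun m n hmn => coneP_disj (hUd m n hmn)) hUm]
    simp only [hvolU]
    exact ENNReal.tsum_const_eq_top_of_ne_zero (coneP_UU_pos hη0).ne'
  have hfin : volume (coneP F) < ⊤ := by
    refine lt_of_le_of_lt (measure_mono ?_) hvol
    rintro M ⟨g, hg, z, h1, h2, h3⟩
    exact ⟨g, hg, z, h1.ne', by rw [Real.norm_of_nonneg h1.le]; exact h2, h3⟩
  rw [hinf] at hle
  exact absurd (lt_of_le_of_lt hle hfin) (lt_irrefl _)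

end Pool.Agent.ToFP
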