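import Pool.Agent.Lib.MP_305fdd_al.To.F.Defs
import Pool.Agent.Lib.MP_305fdd_al.To.F.Pack

/-!
# MP_305fdd_al, torsion room, block F: the packing property of a lattice
-/

set_option autoImplicit false

namespace Pool.Agent.ToF

open Matrix MeasureTheory Pool.Agent.ToN

theorem Dsc.lit {Γ : Subgroup SLR} (hd : Dsc Γ) : ∃ ε : ℝ, 0 < ε ∧ ∀ γ ∈ Γ,
    (∀ i j, ‖(γ : Matrix (Fin 2) (Fin 2) ℝ) i j - (1 : Matrix (Fin 2) (Fin 2) ℝ) i j‖ < ε) →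
      γ = 1 := hd

/-- **a discrete group of finite covolume has the packing property** -/
theorem pck_of {Γ : Subgroup SLR} (hd : Dsc Γ)
    (hc : ∃ F : Set SLR, (∀ g : SLR, ∃ γ ∈ Γ, ∃ f ∈ F, g = γ * f) ∧
      volume {M : Fin 2 → Fin 2 → ℝ | ∃ f ∈ F, ∃ z : ℝ, z ≠ 0 ∧ ‖z‖ ≤ 1 ∧
        M = fun i j => z * (f : Matrix (Fin 2) (Fin 2) ℝ) i j} < ⊤) : Pck Γ := by
  obtain ⟨F, hF, hv⟩ := hc
  intro δ hδ
  exact Pool.Agent.ToFP.packing Γ hd.lit F hF hv δ hδ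

end Pool.Agent.ToF
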