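import Pool.Agent.Lib.MP_305fdd_al.To.F.Defs

/-!
# MP_305fdd_al, torsion room, block F: the shooting lemma, existence of a perfect form
-/

set_option autoImplicit false

namespace Pool.Agent.ToF

open Matrix Pool.Agent.ToN

theorem ev_mul0 (Y : Qf) (x : V2) : Y 0 * ev Y x = (Y 0 * x 0 + Y 1 * x 1) ^ 2 + ds Y * x 1 ^ 2 := by
  unfold ev ds
  ring

theorem v2_ne {x : V2} (hx : x ≠ 0) : x 0 ≠ 0 ∨ x 1 ≠ 0 := by
  by_contra hc
  push Not at hc
  exact hx (v2_ext hc.1 hc.2)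

theorem Ps.pos {Y : Qf} (h : Ps Y) {x : V2} (hx : x ≠ 0) : 0 < ev Y x := by
  have h1 := ev_mul0 Y x
  obtain ⟨h2, h3⟩ := h
  have h4 : 0 < (Y 0 * x 0 + Y 1 * x 1) ^ 2 + ds Y * x 1 ^ 2 := by
    by_cases hx1 : x 1 = 0
    · have hx0 : x 0 ≠ 0 := (v2_ne hx).resolve_right (fun h => h hx1)
      rw [hx1]
      have : 0 < (Y 0 * x 0 + Y 1 * 0) ^ 2 := by
        rw [mul_zero, add_zero]
        exact sq_pos_of_ne_zero (mul_ne_zero h2.ne' hx0)
      linarith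
    · have : 0 < ds Y * x 1 ^ 2 := mul_pos h3 (sq_pos_of_ne_zero hx1)
      linarith [sq_nonneg (Y 0 * x 0 + Y 1 * x 1)]
  rw [← h1] at h4
  exact pos_of_mul_pos_right h4 h2.le

theorem ps_iff (Y : Qf) : Ps Y ↔ ∀ x : V2, x ≠ 0 → 0 < ev Y x := by
  refine ⟨fun h x hx => h.pos hx, fun h => ?_⟩
  have h1 : 0 < Y 0 := by
    have h2 := h ![1, 0] (fun h0 => by
      have := congrFun h0 0
      simp at this)
    unfold ev at h2
    simpa using h2
  refine ⟨h1, ?_⟩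
  have h3 := h ![-Y 1, Y 0] (fun h0 => by
    have := congrFun h0 1
    simp at this
    exact h1.ne' this)
  have h4 : ev Y ![-Y 1, Y 0] = Y 0 * ds Y := by
    unfold ev ds
    simp only [Matrix.cons_val_zero, Matrix.cons_val_one]
    ring
  rw [h4] at h3
  exact pos_of_mul_pos_right h3 h1.le

theorem Ps.ray {Z q : Qf} {t T : ℝ} (h : Ps Z) (hT : Ps (Z + T • q)) (ht : 0 ≤ t) (htT : t ≤ T) :
    Ps (Z + t • q) := by
  rw [ps_iff] at h hT ⊢
  intro x hx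
  have h1 := h x hx
  have h2 := hT x hx
  rw [ev_add, ev_smul] at h2 ⊢
  by_cases hq : 0 ≤ ev q x
  · have : 0 ≤ t * ev q x := mul_nonneg ht hq
    linarith
  · push Not at hq
    have : T * ev q x ≤ t * ev q x := mul_le_mul_of_nonpos_right htT hq.le
    linarith

theorem nm_nonneg (x : V2) : 0 ≤ nm x := by
  unfold nm
  positivity

theorem nm_pos {x : V2} (hx : x ≠ 0) : 0 < nm x := by
  unfold nm
  rcases v2_ne hx with h | h
  · have := sq_pos_of_ne_zero h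
    linarith [sq_nonneg (x 1)]
  · have := sq_pos_of_ne_zero h
    linarith [sq_nonneg (x 0)]

theorem Ps.tr_pos {Y : Qf} (h : Ps Y) : 0 < Y 0 + Y 2 := by
  obtain ⟨h1, h2⟩ := h
  unfold ds at h2
  have : 0 < Y 0 * Y 2 := by linarith [sq_nonneg (Y 1)]
  have := pos_of_mul_pos_right this h1.le
  linarith

theorem ds_nm_le (Y : Qf) (x : V2) : ds Y * nm x ≤ (Y 0 + Y 2) * ev Y x := by
  have : (Y 0 + Y 2) * ev Y x - ds Y * nm x = (Y 0 * x 0 + Y 1 * x 1) ^ 2 +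
      (Y 1 * x 0 + Y 2 * x 1) ^ 2 := by
    unfold ds nm ev
    ring
  linarith [sq_nonneg (Y 0 * x 0 + Y 1 * x 1), sq_nonneg (Y 1 * x 0 + Y 2 * x 1)]

theorem CU.fin_ev {U : Set V2} (h : CU U) {Y : Qf} (hY : Ps Y) (R : ℝ) :
    {u | u ∈ U ∧ ev Y u ≤ R}.Finite := by
  refine (h.fin ((Y 0 + Y 2) * R / ds Y)).subset ?_
  rintro u ⟨hu, hR⟩
  refine ⟨hu, ?_⟩
  rw [le_div_iff₀ hY.2, mul_comm]
  exact (ds_nm_le Y u).trans (mul_le_mul_of_nonneg_left hR hY.tr_pos.le)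

/-- along a ray on which the form takes negative values the determinant becomes small -/
theorem exists_small {Z q : Qf} (hZ : Ps Z) {x₀ : V2} (hq : ev q x₀ < 0) {c : ℝ} (hc : 0 < c) :
    ∃ T : ℝ, 0 ≤ T ∧ Ps (Z + T • q) ∧ ds (Z + T • q) < c := by
  have hx0 : x₀ ≠ 0 := by
    rintro rfl
    unfold ev at hq
    simp at hq
  have hZx := hZ.pos hx0
  set t₀ := ev Z x₀ / (-ev q x₀) with ht₀
  have ht₀pos : 0 < t₀ := div_pos hZx (by linarith)
  let a : ℝ → ℝ := fun t => (Z + t • q) 0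
  let f : ℝ → ℝ := fun t => ds (Z + t • q)
  have ha : ∀ t, a t = Z 0 + t * q 0 := fun t => rfl
  have hf : ∀ t, f t = (Z 0 + t * q 0) * (Z 2 + t * q 2) - (Z 1 + t * q 1) ^ 2 := fun t => rfl
  have hac : Continuous a := by
    have : a = fun t => Z 0 + t * q 0 := funext ha
    rw [this]
    fun_prop
  have hfc : Continuous f := by
    have : f = fun t => (Z 0 + t * q 0) * (Z 2 + t * q 2) - (Z 1 + t * q 1) ^ 2 := funext hf
    rw [this]
    fun_prop
  -- a bound for the last coefficient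
  obtain ⟨B, hB⟩ : ∃ B : ℝ, ∀ t ∈ Set.Icc 0 t₀, Z 2 + t * q 2 ≤ B := by
    refine ⟨|Z 2| + t₀ * |q 2|, fun t ht => ?_⟩
    have h1 : t * q 2 ≤ t₀ * |q 2| := by
      calc t * q 2 ≤ t * |q 2| := mul_le_mul_of_nonneg_left (le_abs_self _) ht.1
        _ ≤ t₀ * |q 2| := mul_le_mul_of_nonneg_right ht.2 (abs_nonneg _)
    linarith [le_abs_self (Z 2)]
  set K := |B| + 1 with hK
  have hK0 : 0 < K := by positivity
  let g : ℝ → ℝ := fun t => min (K * a t) (f t)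
  have hgc : Continuous g := (hac.const_mul K |>.min hfc)
  have hg0 : 0 < g 0 := by
    have h1 : a 0 = Z 0 := by rw [ha, zero_mul, add_zero]
    have h2 : f 0 = ds Z := by
      change ds (Z + (0 : ℝ) • q) = ds Z
      rw [zero_smul, add_zero]
    change 0 < min (K * a 0) (f 0)
    rw [h1, h2]
    exact lt_min (mul_pos hK0 hZ.1) hZ.2
  have hgt : g t₀ ≤ 0 := by
    -- the form is not positive definite at `t₀`
    by_contra hcon
    push Not at hcon
    have h1 : 0 < K * a t₀ ∧ 0 < f t₀ := lt_min_iff.1 hcon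
    have h2 : Ps (Z + t₀ • q) := ⟨pos_of_mul_pos_right h1.1 hK0.le, h1.2⟩
    have h3 := h2.pos hx0
    rw [ev_add, ev_smul, ht₀] at h3
    have h4 : ev Z x₀ / (-ev q x₀) * ev q x₀ = -ev Z x₀ := by
      have : ev q x₀ ≠ 0 := hq.ne
      field_simp
    rw [h4] at h3
    linarith
  set e := min (g 0) (c / 2) with he
  have he0 : 0 < e := lt_min hg0 (by linarith)
  have hmem : e ∈ Set.Icc (g t₀) (g 0) := ⟨hgt.trans he0.le, min_le_left _ _⟩
  obtain ⟨t, ht, hte⟩ := intermediate_value_Icc' ht₀pos.le hgc.continuousOn hmem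
  have hte' : min (K * a t) (f t) = e := hte
  have hcase : f t = e := by
    rcases min_choice (K * a t) (f t) with h1 | h1
    · rw [h1] at hte'
      have h2 : e ≤ f t := by
        have := min_le_right (K * a t) (f t)
        rw [h1, hte'] at this
        exact this
      exfalso
      have h3 : 0 < a t := pos_of_mul_pos_right (by rw [hte']; exact he0) hK0.le
      have h4 : f t ≤ a t * B := by
        rw [hf]
        have := mul_le_mul_of_nonneg_left (hB t ht) h3.le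
        rw [ha] at this ⊢
        linarith [sq_nonneg (Z 1 + t * q 1)]
      have h5 : a t * B ≤ a t * |B| := mul_le_mul_of_nonneg_left (le_abs_self _) h3.le
      have h6 : K * a t = a t * |B| + a t := by rw [hK]; ring
      linarith
    · rw [h1] at hte'
      exact hte'
  have hat : 0 < a t := by
    have := min_le_left (K * a t) (f t)
    rw [hte'] at this
    exact pos_of_mul_pos_right (he0.trans_le this) hK0.le
  refine ⟨t, ht.1, ⟨hat, ?_⟩, ?_⟩
  · change 0 < f t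
    rw [hcase]
    exact he0
  · change f t < c
    rw [hcase]
    exact (min_le_right _ _).trans_lt (by linarith)

/-- THE SHOOTING LEMMA -/
theorem CU.shoot {U : Set V2} (h : CU U) {Z q : Qf} (hZ : Ad U Z) {x₀ : V2} (hq : ev q x₀ < 0) :
    ∃ t : ℝ, 0 ≤ t ∧ Ad U (Z + t • q) ∧ ∃ u ∈ U, ev q u < 0 ∧ ev (Z + t • q) u = 1 := by
  obtain ⟨c, hc, hdeg⟩ := h.deg
  obtain ⟨T, hT0, hT, hTc⟩ := exists_small hZ.1 hq hc
  obtain ⟨u₁, hu₁, hu₁'⟩ := hdeg _ hT hTc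
  have hJ : {u | (u ∈ U ∧ ev (Z + T • q) u ≤ 1) ∧ ev q u < 0}.Finite :=
    (h.fin_ev hT 1).subset fun u hu => hu.1
  have hq₁ : ev q u₁ < 0 := by
    by_contra hcon
    push Not at hcon
    rw [ev_add, ev_smul] at hu₁'
    have := hZ.2 u₁ hu₁
    have := mul_nonneg hT0 hcon
    linarith
  obtain ⟨u, hu, hmin⟩ := Set.exists_min_image _ (fun u => (ev Z u - 1) / (-ev q u)) hJ
    ⟨u₁, ⟨hu₁, hu₁'.le⟩, hq₁⟩
  obtain ⟨⟨huU, huT⟩, huq⟩ := hu
  set t := (ev Z u - 1) / (-ev q u) with ht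
  have ht0 : 0 ≤ t := div_nonneg (by linarith [hZ.2 u huU]) (by linarith)
  have htT : t ≤ T := by
    rw [ht, div_le_iff₀ (by linarith)]
    rw [ev_add, ev_smul] at huT
    linarith
  have hval : ev (Z + t • q) u = 1 := by
    rw [ev_add, ev_smul]
    have h1 : t * (-ev q u) = ev Z u - 1 := div_mul_cancel₀ _ (by linarith)
    linarith
  refine ⟨t, ht0, ⟨hZ.1.ray hT ht0 htT, fun v hv => ?_⟩, u, huU, huq, hval⟩
  rw [ev_add, ev_smul]
  have hZv := hZ.2 v hv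
  by_cases hvq : 0 ≤ ev q v
  · have := mul_nonneg ht0 hvq
    linarith
  push Not at hvq
  by_cases hvT : ev (Z + T • q) v ≤ 1
  · have h1 := hmin v ⟨⟨hv, hvT⟩, hvq⟩
    change t ≤ (ev Z v - 1) / (-ev q v) at h1
    rw [le_div_iff₀ (by linarith)] at h1
    linarith
  · push Not at hvT
    rw [ev_add, ev_smul] at hvT
    have : T * ev q v ≤ t * ev q v := mul_le_mul_of_nonpos_right htT hvq.le
    linarith

/-- the form `x ↦ dt v x * dt w x` -/
noncomputable def qd (v w : V2) : Qf := ![v 1 * w 1, -(v 0 * w 1 + v 1 * w 0) / 2, v 0 * w 0]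

theorem ev_qd (v w x : V2) : ev (qd v w) x = dt v x * dt w x := by
  unfold ev qd dt
  simp only [Matrix.cons_val_zero, Matrix.cons_val_one, Matrix.cons_val]
  ring

theorem ev_negY (Y : Qf) (x : V2) : ev (-Y) x = -ev Y x := by
  unfold ev
  simp only [Pi.neg_apply]
  ring

theorem dt_self (v : V2) : dt v v = 0 := by unfold dt; ring

theorem dt_swap (v w : V2) : dt v w = -dt w v := by unfold dt; ring

theorem exists_dt_ne {v : V2} (hv : v ≠ 0) : ∃ x, dt v x ≠ 0 := by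
  rcases v2_ne hv with h | h
  · exact ⟨![0, 1], by unfold dt; simpa using h⟩
  · exact ⟨![1, 0], by unfold dt; simpa using h⟩

/-- admissible forms exist -/
theorem CU.exists_ad {U : Set V2} (h : CU U) : ∃ Z, Ad U Z := by
  have h1 : Ps (![1, 0, 1] : Qf) := by
    unfold Ps ds
    simp
  have h2 : ∀ x, ev (![1, 0, 1] : Qf) x = nm x := by
    intro x
    unfold ev nm
    simp
  obtain ⟨m, hm, hm'⟩ : ∃ m : ℝ, 0 < m ∧ ∀ u ∈ U, m ≤ nm u := by
    by_cases hne : {v | v ∈ U ∧ nm v ≤ 1}.Nonempty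
    · obtain ⟨u, hu, hmin⟩ := Set.exists_min_image _ nm (h.fin 1) hne
      refine ⟨nm u, nm_pos (h.nz u hu.1), fun v hv => ?_⟩
      by_cases hv1 : nm v ≤ 1
      · exact hmin v ⟨hv, hv1⟩
      · exact hu.2.trans (not_le.1 hv1).le
    · refine ⟨1, one_pos, fun v hv => ?_⟩
      by_contra hcon
      exact hne ⟨v, hv, (not_le.1 hcon).le⟩
  refine ⟨m⁻¹ • ![1, 0, 1], ?_, fun u hu => ?_⟩
  · rw [ps_iff] at h1 ⊢
    intro x hx
    rw [ev_smul]
    exact mul_pos (inv_pos.2 hm) (h1 x hx)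
  · rw [ev_smul, h2]
    rw [inv_mul_eq_div, one_le_div hm]
    exact hm' u hu

/-- PERFECT FORMS EXIST -/
theorem CU.exists_pf {U : Set V2} (h : CU U) : Nonempty (Vx U) := by
  obtain ⟨Z, hZ⟩ := h.exists_ad
  -- first minimal vector
  obtain ⟨t₁, -, hA₁, u₁, hu₁, -, hv₁⟩ := h.shoot hZ (q := -Z) (x₀ := ![1, 0]) (by
    rw [ev_negY]
    have := hZ.1.pos (x := ![1, 0]) (fun h0 => by
      have := congrFun h0 0
      simp at this)
    linarith)
  set Z₁ := Z + t₁ • -Z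
  -- second minimal vector
  obtain ⟨x₁, hx₁⟩ := exists_dt_ne (h.nz u₁ hu₁)
  obtain ⟨t₂, -, hA₂, u₂, hu₂, hq₂, hv₂⟩ := h.shoot hA₁ (q := -qd u₁ u₁) (x₀ := x₁) (by
    rw [ev_negY, ev_qd]
    have : 0 < dt u₁ x₁ * dt u₁ x₁ := mul_self_pos.2 hx₁
    linarith)
  have hv₁₂ : ev (Z₁ + t₂ • -qd u₁ u₁) u₁ = 1 := by
    rw [ev_add, ev_smul, ev_negY, ev_qd, dt_self, hv₁]
    ring
  set Z₂ := Z₁ + t₂ • -qd u₁ u₁
  have hd₁₂ : dt u₁ u₂ ≠ 0 := by
    intro h0
    rw [ev_negY, ev_qd, h0] at hq₂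
    simp at hq₂
  -- third minimal vector
  obtain ⟨t₃, -, hA₃, u₃, hu₃, hq₃, hv₃⟩ := h.shoot hA₂ (q := qd u₁ u₂) (x₀ := u₁ + u₂) (by
    rw [ev_qd]
    have e1 : dt u₁ (u₁ + u₂) * dt u₂ (u₁ + u₂) = -(dt u₁ u₂ * dt u₁ u₂) := by
      unfold dt
      simp only [Pi.add_apply]
      ring
    rw [e1]
    have : 0 < dt u₁ u₂ * dt u₁ u₂ := mul_self_pos.2 hd₁₂
    linarith)
  rw [ev_qd] at hq₃
  have hw₁ : ev (Z₂ + t₃ • qd u₁ u₂) u₁ = 1 := by
    rw [ev_add, ev_smul, ev_qd, dt_self, hv₁₂]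
    ring
  have hw₂ : ev (Z₂ + t₃ • qd u₁ u₂) u₂ = 1 := by
    rw [ev_add, ev_smul, ev_qd, dt_self, hv₂]
    ring
  exact ⟨⟨_, hA₃, u₁, ⟨hu₁, hw₁⟩, u₂, ⟨hu₂, hw₂⟩, u₃, ⟨hu₃, hv₃⟩, hd₁₂,
    right_ne_zero_of_mul hq₃.ne, left_ne_zero_of_mul hq₃.ne⟩⟩

end Pool.Agent.ToF
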